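import Pool.Agent.Helper72.TM.Final
import Pool.Agent.Helper72.IM.Forms

/-!
# Transport along polynomial automorphisms (project TM of helper72, MP_1994dd_an)
-/

open MvPolynomial Pool.Agent.Helper40.IM Pool.Agent.Helper72.IM

namespace Pool.Agent.Helper72.TM

/-- An immersion of `{F₀ = 1}` gives one of `{τ F₀ = 1}` for every automorphism `τ` of the
polynomial ring. The immersion of `{F₀ = 1}` may use the smoothness of `{F₀ = 1}`. -/
theorem of_auto {n : ℕ} (F₀ : MvPolynomial (Fin (n + 1)) ℂ)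
    (τ : MvPolynomial (Fin (n + 1)) ℂ ≃ₐ[ℂ] MvPolynomial (Fin (n + 1)) ℂ)
    (F : MvPolynomial (Fin (n + 1)) ℂ) (hF : F = τ F₀)
    (hs : ∀ w, eval w F = 1 → ∃ i, eval w (pderiv i F) ≠ 0)
    (h : (∀ w, eval w F₀ = 1 → ∃ v, fderiv ℂ (fun w => eval w F₀) w v ≠ 0) →
      ∃ Φ : (Fin (n + 1) → ℂ) → (Fin n → ℂ), Differentiable ℂ Φ ∧
      ∀ w, eval w F₀ = 1 → ∀ v, fderiv ℂ (fun w => eval w F₀) w v = 0 →
        fderiv ℂ Φ w v = 0 → v = 0) :
    ∃ Φ : (Fin (n + 1) → ℂ) → (Fin n → ℂ), Differentiable ℂ Φ ∧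
      ∀ w, eval w F = 1 → ∀ v, ∑ i, v i * eval w (pderiv i F) = 0 →
        fderiv ℂ Φ w v = 0 → v = 0 := by
  let α : (Fin (n + 1) → ℂ) → (Fin (n + 1) → ℂ) := fun w i => eval w (τ (X i))
  let β : (Fin (n + 1) → ℂ) → (Fin (n + 1) → ℂ) := fun w i => eval w (τ.symm (X i))
  have hα : ∀ w p, eval w (τ p) = eval (α w) p := by
    intro w p
    have h1 : (aeval w : MvPolynomial (Fin (n + 1)) ℂ →ₐ[ℂ] ℂ).comp (τ : _ →ₐ[ℂ] _) =
        (aeval (α w) : MvPolynomial (Fin (n + 1)) ℂ →ₐ[ℂ] ℂ) := by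
      apply MvPolynomial.algHom_ext
      intro i
      simp [α, aeval_eq_eval]
    have h2 := congrArg (fun L => L p) h1
    simpa [aeval_eq_eval] using h2
  have hβ : ∀ w p, eval w (τ.symm p) = eval (β w) p := by
    intro w p
    have h1 : (aeval w : MvPolynomial (Fin (n + 1)) ℂ →ₐ[ℂ] ℂ).comp (τ.symm : _ →ₐ[ℂ] _) =
        (aeval (β w) : MvPolynomial (Fin (n + 1)) ℂ →ₐ[ℂ] ℂ) := by
      apply MvPolynomial.algHom_ext
      intro i
      simp [β, aeval_eq_eval]
    have h2 := congrArg (fun L => L p) h1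
    simpa [aeval_eq_eval] using h2
  have hβα : ∀ w, β (α w) = w := by
    intro w
    ext i
    change eval (α w) (τ.symm (X i)) = w i
    rw [← hα w, AlgEquiv.apply_symm_apply, eval_X]
  have hαβ : ∀ w, α (β w) = w := by
    intro w
    ext i
    change eval (β w) (τ (X i)) = w i
    rw [← hβ w, AlgEquiv.symm_apply_apply, eval_X]
  have hdα : Differentiable ℂ α := differentiable_pi.2 fun i => differentiable_eval _
  have hdβ : Differentiable ℂ β := differentiable_pi.2 fun i => differentiable_eval _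
  have hFα : ∀ w, eval w F = eval (α w) F₀ := fun w => by rw [hF]; exact hα w _
  refine transport α β hdα hdβ hβα (fun w => eval w F₀) (differentiable_eval F₀) (h ?_) F hFα
  intro w hw
  obtain ⟨i, hi⟩ := hs (β w) (by rw [hFα, hαβ, hw])
  have h1 : fderiv ℂ (fun w => eval w F) (β w) (Pi.single i 1) = eval (β w) (pderiv i F) := by
    rw [fderiv_eval]
    simp [Pi.single_apply]
  rw [← h1] at hi
  have h2 : HasFDerivAt (fun w => eval w F)
      ((fderiv ℂ (fun w => eval w F₀) (α (β w))).comp (fderiv ℂ α (β w))) (β w) := by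
    rw [funext hFα]
    exact (differentiable_eval F₀ _).hasFDerivAt.comp _ (hdα _).hasFDerivAt
  rw [h2.fderiv, hαβ] at hi
  exact ⟨_, hi⟩

end Pool.Agent.Helper72.TM
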