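import Mathlib

/-!
# Entire functions of several variables: derivatives, parametric integrals, division by `x`
(project TM of helper72, MP_1994dd_an)
-/

open Complex MeasureTheory Metric Set

namespace Pool.Agent.Helper72.TM

variable {W : Type*} [NormedAddCommGroup W] [NormedSpace ℂ W] [FiniteDimensional ℂ W]

/-- Differentiation under the integral sign, continuous case. -/
theorem hasFDerivAt_par {F : W → ℝ → ℂ} {F' : W → ℝ → W →L[ℂ] ℂ}
    (hF : Continuous (Function.uncurry F)) (hF' : Continuous (Function.uncurry F'))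
    (h : ∀ w t, HasFDerivAt (fun w => F w t) (F' w t) w) (a b : ℝ) (w₀ : W) :
    HasFDerivAt (fun w => ∫ t in a..b, F w t) (∫ t in a..b, F' w₀ t) w₀ := by
  have hp : ProperSpace W := FiniteDimensional.proper ℂ W
  obtain ⟨C, hC⟩ := ((isCompact_closedBall w₀ 1).prod
    (isCompact_uIcc (a := a) (b := b))).exists_bound_of_continuousOn hF'.continuousOn
  refine intervalIntegral.hasFDerivAt_integral_of_dominated_of_fderiv_le (bound := fun _ => C)
    (s := ball w₀ 1) (ball_mem_nhds _ one_pos) ?_ ?_ ?_ ?_ ?_ ?_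
  · exact Filter.Eventually.of_forall fun w =>
      (hF.comp (continuous_const.prodMk continuous_id)).aestronglyMeasurable
  · exact (hF.comp (continuous_const.prodMk continuous_id)).intervalIntegrable _ _
  · exact (hF'.comp (continuous_const.prodMk continuous_id)).aestronglyMeasurable
  · refine Filter.Eventually.of_forall fun t ht w hw => ?_
    exact hC (w, t) ⟨ball_subset_closedBall hw, uIoc_subset_uIcc ht⟩
  · exact continuous_const.intervalIntegrable _ _
  · exact Filter.Eventually.of_forall fun t _ w _ => h w t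

omit [FiniteDimensional ℂ W] in
/-- The Cauchy formula for directional derivatives. -/
theorem fderiv_eq_circle {f : W → ℂ} (hf : Differentiable ℂ f) (w v : W) :
    fderiv ℂ f w v = (2 * Real.pi * I : ℂ)⁻¹ * ∫ t in (0 : ℝ)..2 * Real.pi,
      (circleMap 0 1 t * I) * ((circleMap 0 1 t) ^ 2)⁻¹ * f (w + circleMap 0 1 t • v) := by
  have hg : Differentiable ℂ (fun s : ℂ => f (w + s • v)) :=
    hf.comp ((differentiable_id.smul_const v).const_add w)
  have h1 := Complex.two_pi_I_inv_smul_circleIntegral_sub_sq_inv_smul_of_differentiable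
    (U := univ) (c := 0) (w₀ := 0) (R := 1) isOpen_univ (subset_univ _) hg.differentiableOn
    (mem_ball_self one_pos)
  have h2 : deriv (fun s : ℂ => f (w + s • v)) 0 = fderiv ℂ f w v := by
    have h3 : HasDerivAt (fun s : ℂ => w + s • v) v 0 := by
      simpa using ((hasDerivAt_id (0 : ℂ)).smul_const v).const_add w
    have h4 : HasFDerivAt f (fderiv ℂ f w) (w + (0 : ℂ) • v) := by
      simpa using (hf w).hasFDerivAt
    exact (h4.comp_hasDerivAt (0 : ℂ) h3).deriv
  rw [h2] at h1
  rw [← h1, circleIntegral, smul_eq_mul]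
  congr 1
  refine intervalIntegral.integral_congr fun t _ => ?_
  simp only [deriv_circleMap, smul_eq_mul, sub_zero]
  ring

theorem continuous_fderiv_apply {f : W → ℂ} (hf : Differentiable ℂ f) (v : W) :
    Continuous (fun w => fderiv ℂ f w v) := by
  simp_rw [fderiv_eq_circle hf]
  refine continuous_const.mul ?_
  apply intervalIntegral.continuous_parametric_intervalIntegral_of_continuous'
  have h1 : Continuous (fun p : W × ℝ => circleMap 0 1 p.2) :=
    (continuous_circleMap 0 1).comp continuous_snd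
  have h2 : ∀ p : W × ℝ, (circleMap 0 1 p.2) ^ 2 ≠ 0 := fun p =>
    pow_ne_zero 2 (circleMap_ne_center one_ne_zero)
  exact ((h1.mul continuous_const).mul ((h1.pow 2).inv₀ h2)).mul
    (hf.continuous.comp (continuous_fst.add (h1.smul continuous_const)))

theorem continuous_fderiv {f : W → ℂ} (hf : Differentiable ℂ f) : Continuous (fderiv ℂ f) :=
  continuous_clm_apply.2 fun v => continuous_fderiv_apply hf v

/-- Directional derivatives of entire functions are entire. -/
theorem differentiable_fderiv_apply {f : W → ℂ} (hf : Differentiable ℂ f) (v : W) :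
    Differentiable ℂ (fun w => fderiv ℂ f w v) := by
  simp_rw [fderiv_eq_circle hf]
  refine (differentiable_const _).mul fun w₀ => ?_
  have h1 : Continuous (fun p : W × ℝ => circleMap 0 1 p.2) :=
    (continuous_circleMap 0 1).comp continuous_snd
  have h2 : ∀ p : W × ℝ, (circleMap 0 1 p.2) ^ 2 ≠ 0 := fun p =>
    pow_ne_zero 2 (circleMap_ne_center one_ne_zero)
  have h3 : Continuous (fun p : W × ℝ =>
      (circleMap 0 1 p.2 * I) * ((circleMap 0 1 p.2) ^ 2)⁻¹) :=
    (h1.mul continuous_const).mul ((h1.pow 2).inv₀ h2)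
  have h4 : Continuous (fun p : W × ℝ => p.1 + circleMap 0 1 p.2 • v) :=
    continuous_fst.add (h1.smul continuous_const)
  refine (hasFDerivAt_par
    (F := fun w t => (circleMap 0 1 t * I) * ((circleMap 0 1 t) ^ 2)⁻¹ *
      f (w + circleMap 0 1 t • v))
    (F' := fun w t => ((circleMap 0 1 t * I) * ((circleMap 0 1 t) ^ 2)⁻¹) •
      fderiv ℂ f (w + circleMap 0 1 t • v)) ?_ ?_ ?_ _ _ w₀).differentiableAt
  · exact h3.mul (hf.continuous.comp h4)
  · exact h3.smul ((continuous_fderiv hf).comp h4)
  · intro w t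
    have h5 : HasFDerivAt (fun w => f (w + circleMap 0 1 t • v))
        (fderiv ℂ f (w + circleMap 0 1 t • v)) w := by
      have h6 := (hf (w + circleMap 0 1 t • v)).hasFDerivAt.comp w
        ((hasFDerivAt_id w).add_const (circleMap 0 1 t • v))
      rw [ContinuousLinearMap.comp_id] at h6
      exact h6
    exact h5.const_mul _

/-- Parametric integrals of entire functions. -/
theorem differentiable_par {G : ℂ × W → ℂ} (hG : Differentiable ℂ G) :
    Differentiable ℂ (fun w => ∫ t in (0 : ℝ)..1, G ((t : ℂ), w)) := by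
  intro w₀
  refine (hasFDerivAt_par (F := fun w t => G ((t : ℂ), w))
    (F' := fun w t => (fderiv ℂ G ((t : ℂ), w)).comp (ContinuousLinearMap.inr ℂ ℂ W))
    ?_ ?_ ?_ _ _ w₀).differentiableAt
  · exact hG.continuous.comp ((continuous_ofReal.comp continuous_snd).prodMk continuous_fst)
  · exact ((continuous_fderiv hG).comp
      ((continuous_ofReal.comp continuous_snd).prodMk continuous_fst)).clm_comp continuous_const
  · intro w t
    exact (hG ((t : ℂ), w)).hasFDerivAt.comp w (hasFDerivAt_prodMk_right (t : ℂ) w)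

/-- The derivative of a parametric integral. -/
theorem hasFDerivAt_par' {G : ℂ × W → ℂ} (hG : Differentiable ℂ G) (w₀ : W) :
    HasFDerivAt (fun w => ∫ t in (0 : ℝ)..1, G ((t : ℂ), w))
      (∫ t in (0 : ℝ)..1, (fderiv ℂ G ((t : ℂ), w₀)).comp (ContinuousLinearMap.inr ℂ ℂ W)) w₀ := by
  refine hasFDerivAt_par (F := fun w t => G ((t : ℂ), w))
    (F' := fun w t => (fderiv ℂ G ((t : ℂ), w)).comp (ContinuousLinearMap.inr ℂ ℂ W))
    ?_ ?_ ?_ _ _ w₀
  · exact hG.continuous.comp ((continuous_ofReal.comp continuous_snd).prodMk continuous_fst)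
  · exact ((continuous_fderiv hG).comp
      ((continuous_ofReal.comp continuous_snd).prodMk continuous_fst)).clm_comp continuous_const
  · intro w t
    exact (hG ((t : ℂ), w)).hasFDerivAt.comp w (hasFDerivAt_prodMk_right (t : ℂ) w)

/-- Division of an entire function of `(x, z)` vanishing on `x = 0` by `x`. -/
theorem exists_div {f : ℂ × W → ℂ} (hf : Differentiable ℂ f) (h0 : ∀ z, f (0, z) = 0) :
    ∃ B : ℂ × W → ℂ, Differentiable ℂ B ∧ (∀ x z, f (x, z) = x * B (x, z)) ∧
      ∀ z, B (0, z) = fderiv ℂ f (0, z) (1, 0) := by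
  refine ⟨fun p => ∫ t in (0 : ℝ)..1, fderiv ℂ f ((t : ℂ) * p.1, p.2) (1, 0), ?_, ?_, ?_⟩
  · have h1 : Differentiable ℂ (fun q : ℂ × (ℂ × W) => fderiv ℂ f (q.1 * q.2.1, q.2.2) (1, 0)) :=
      (differentiable_fderiv_apply hf (1, 0)).comp (by fun_prop)
    exact differentiable_par h1
  · intro x z
    have h1 : ∀ t : ℝ, HasDerivAt (fun t : ℝ => f ((t : ℂ) * x, z))
        (x * fderiv ℂ f ((t : ℂ) * x, z) (1, 0)) t := by
      intro t
      have h2 : HasDerivAt (fun t : ℝ => ((t : ℂ) * x, z)) (x, 0) t := by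
        have h3 : HasDerivAt (fun t : ℝ => (t : ℂ) * x) x t := by
          simpa using (Complex.ofRealCLM.hasDerivAt (x := t)).mul_const x
        exact h3.prodMk (hasDerivAt_const t z)
      have h4 := ((hf ((t : ℂ) * x, z)).hasFDerivAt.restrictScalars ℝ).comp_hasDerivAt t h2
      have h5 : ((x, 0) : ℂ × W) = x • ((1, 0) : ℂ × W) := by simp
      have h6 : (ContinuousLinearMap.restrictScalars ℝ (fderiv ℂ f ((t : ℂ) * x, z))) (x, 0) =
          x * fderiv ℂ f ((t : ℂ) * x, z) (1, 0) := by
        rw [ContinuousLinearMap.coe_restrictScalars', h5, map_smul, smul_eq_mul]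
      rw [h6] at h4
      exact h4
    have h2 : Continuous (fun t : ℝ => x * fderiv ℂ f ((t : ℂ) * x, z) (1, 0)) :=
      continuous_const.mul ((continuous_fderiv_apply hf (1, 0)).comp (by fun_prop))
    have h3 := intervalIntegral.integral_eq_sub_of_hasDerivAt (a := 0) (b := 1)
      (fun t _ => h1 t) (h2.intervalIntegrable _ _)
    rw [intervalIntegral.integral_const_mul] at h3
    simp only [ofReal_one, one_mul, ofReal_zero, zero_mul, h0, sub_zero] at h3
    exact h3.symm
  · intro z
    simp

/-- Division by `x ^ 2`. -/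
theorem exists_div_sq {f : ℂ × W → ℂ} (hf : Differentiable ℂ f) (h0 : ∀ z, f (0, z) = 0)
    (h1 : ∀ z, fderiv ℂ f (0, z) (1, 0) = 0) :
    ∃ B : ℂ × W → ℂ, Differentiable ℂ B ∧ ∀ x z, f (x, z) = x ^ 2 * B (x, z) := by
  obtain ⟨B, hB, hB1, hB2⟩ := exists_div hf h0
  obtain ⟨C, hC, hC1, -⟩ := exists_div hB (fun z => by rw [hB2, h1])
  refine ⟨C, hC, fun x z => ?_⟩
  rw [hB1, hC1]
  ring

omit [FiniteDimensional ℂ W] in
/-- If `f` vanishes on `x = 0` then the derivative of `f` at `(0, z)` only sees `dx`. -/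
theorem fderiv_of_vanish {f : ℂ × W → ℂ} (hf : Differentiable ℂ f) (h0 : ∀ z, f (0, z) = 0)
    (z v : W) : fderiv ℂ f (0, z) (0, v) = 0 := by
  have h1 : HasFDerivAt (fun z => f (0, z))
      ((fderiv ℂ f (0, z)).comp (ContinuousLinearMap.inr ℂ ℂ W)) z :=
    (hf (0, z)).hasFDerivAt.comp z (hasFDerivAt_prodMk_right (0 : ℂ) z)
  have h2 : HasFDerivAt (fun z => f (0, z)) (0 : W →L[ℂ] ℂ) z := by
    simp_rw [h0]
    exact hasFDerivAt_const _ _
  have h3 := congrArg (fun L => L v) (h1.unique h2)
  simpa using h3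

end Pool.Agent.Helper72.TM
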