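import Mathlib
import Pool.Agent.Helper40.IM.Ent

/-!
# `x - x ^ m y` is a component of a holomorphic immersion of `ℂ²` (project TM of helper72)
-/

open Complex

namespace Pool.Agent.Helper72.TM

/-- The one-variable function behind the immersion. -/
theorem exists_B (k : ℕ) (hk : 1 ≤ k) : ∃ B : ℂ → ℂ, Differentiable ℂ B ∧
    ∀ T, B T * (1 - (k + 1) * T) + T * (1 - T) * deriv B T =
      -(2 * Real.pi * I * k) * exp (2 * Real.pi * I * (1 - T) ^ k) := by
  obtain ⟨E, hE, hE1⟩ := Pool.Agent.Helper40.IM.exists_quot {0, 1}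
    (fun s : ℂ => exp (2 * Real.pi * I * s) - 1) (by fun_prop) (by
      intro r hr
      simp only [Finset.mem_insert, Finset.mem_singleton] at hr
      rcases hr with rfl | rfl
      · simp
      · simp [exp_two_pi_mul_I])
  have hE2 : ∀ s : ℂ, exp (2 * Real.pi * I * s) - 1 = s * (s - 1) * E s := by
    intro s
    have h1 := hE1 s
    simp at h1
    rw [h1]
  set B : ℂ → ℂ := fun T => -(∑ i ∈ Finset.range k, (1 - T) ^ i) * E ((1 - T) ^ k) with hB
  have hBd : Differentiable ℂ B := by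
    have h1 : Differentiable ℂ (fun T : ℂ => E ((1 - T) ^ k)) := hE.comp (by fun_prop)
    have h2 : Differentiable ℂ (fun T : ℂ => -(∑ i ∈ Finset.range k, (1 - T) ^ i)) := by
      fun_prop
    exact h2.mul h1
  have hN : ∀ T : ℂ, T * (1 - T) ^ k * B T = exp (2 * Real.pi * I * (1 - T) ^ k) - 1 := by
    intro T
    rw [hE2]
    have h1 := geom_sum_mul (1 - T) k
    simp only [hB]
    linear_combination ((1 - T) ^ k * E ((1 - T) ^ k)) * h1
  clear_value B
  refine ⟨B, hBd, ?_⟩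
  have hd : ∀ T : ℂ, (1 - T) ^ (k - 1) * (B T * (1 - (k + 1) * T) + T * (1 - T) * deriv B T) =
      (1 - T) ^ (k - 1) * (-(2 * Real.pi * I * k) * exp (2 * Real.pi * I * (1 - T) ^ k)) := by
    intro T
    have h0 : HasDerivAt (fun T : ℂ => 1 - T) (-1) T := by
      simpa using (hasDerivAt_id T).const_sub 1
    have h1 : HasDerivAt (fun T : ℂ => (1 - T) ^ k) (k * (1 - T) ^ (k - 1) * (-1)) T := h0.pow k
    have h2 : HasDerivAt (fun T : ℂ => T * (1 - T) ^ k * B T)
        ((1 * (1 - T) ^ k + T * (k * (1 - T) ^ (k - 1) * (-1))) * B T +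
          T * (1 - T) ^ k * deriv B T) T :=
      ((hasDerivAt_id T).mul h1).mul (hBd T).hasDerivAt
    have h3 : HasDerivAt (fun T : ℂ => exp (2 * Real.pi * I * (1 - T) ^ k) - 1)
        (exp (2 * Real.pi * I * (1 - T) ^ k) * (2 * Real.pi * I *
          (k * (1 - T) ^ (k - 1) * (-1)))) T :=
      ((h1.const_mul (2 * Real.pi * I)).cexp).sub_const 1
    rw [funext hN] at h2
    have h4 := h2.unique h3
    have h5 : (1 - T) ^ k = (1 - T) ^ (k - 1) * (1 - T) := by
      rw [← pow_succ, Nat.sub_add_cancel hk]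
    linear_combination h4 - (B T + T * deriv B T) * h5
  have hdB : Continuous (deriv B) := hBd.contDiff.continuous_deriv (n := 1) le_rfl
  have hc : Continuous B := hBd.continuous
  have h1 : Set.EqOn (fun T => B T * (1 - (k + 1) * T) + T * (1 - T) * deriv B T)
      (fun T => -(2 * Real.pi * I * k) * exp (2 * Real.pi * I * (1 - T) ^ k)) {1}ᶜ := by
    intro T hT
    have h2 : (1 - T) ^ (k - 1) ≠ 0 := pow_ne_zero _ (sub_ne_zero.2 (Ne.symm hT))
    exact mul_left_cancel₀ h2 (hd T)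
  have h2 := Continuous.ext_on (dense_compl_singleton (1 : ℂ)) (by fun_prop) (by fun_prop) h1
  exact fun T => congrFun h2 T

/-- `x - x ^ m y` is a component of an immersion of `ℂ²` for `m ≥ 2`. -/
theorem exists_psi (m : ℕ) (hm : 2 ≤ m) : ∃ ψ : ℂ × ℂ → ℂ, Differentiable ℂ ψ ∧
    ∀ x y dx dy : ℂ, fderiv ℂ ψ (x, y) (dx, dy) = 0 →
      dx - (m * x ^ (m - 1) * y * dx + x ^ m * dy) = 0 → dx = 0 ∧ dy = 0 := by
  obtain ⟨k, rfl⟩ : ∃ k, m = k + 1 := ⟨m - 1, by omega⟩
  have hk : 1 ≤ k := by omega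
  obtain ⟨B, hB, hB1⟩ := exists_B k hk
  have hd : ∀ p : ℂ × ℂ, HasFDerivAt (fun p : ℂ × ℂ => p.2 * B (p.1 ^ k * p.2))
      (p.2 • (deriv B (p.1 ^ k * p.2) • (p.1 ^ k • ContinuousLinearMap.snd ℂ ℂ ℂ +
        p.2 • ((k * p.1 ^ (k - 1)) • ContinuousLinearMap.fst ℂ ℂ ℂ))) +
        B (p.1 ^ k * p.2) • ContinuousLinearMap.snd ℂ ℂ ℂ) p := by
    intro p
    have h1 : HasFDerivAt (fun q : ℂ × ℂ => q.1 ^ k)
        (((k : ℂ) * p.1 ^ (k - 1)) • ContinuousLinearMap.fst ℂ ℂ ℂ) p :=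
      (hasDerivAt_pow k p.1).comp_hasFDerivAt p hasFDerivAt_fst
    have h2 := h1.mul (hasFDerivAt_snd (𝕜 := ℂ) (E := ℂ) (F := ℂ) (p := p))
    have h3 := (hB (p.1 ^ k * p.2)).hasDerivAt.comp_hasFDerivAt p h2
    exact (hasFDerivAt_snd (𝕜 := ℂ) (E := ℂ) (F := ℂ) (p := p)).mul h3
  refine ⟨fun p => p.2 * B (p.1 ^ k * p.2), fun p => (hd p).differentiableAt, ?_⟩
  intro x y dx dy h1 h2
  rw [(hd (x, y)).fderiv] at h1
  simp only [_root_.add_apply, _root_.smul_apply,
    ContinuousLinearMap.coe_snd', ContinuousLinearMap.coe_fst', smul_eq_mul] at h1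
  rw [Nat.add_sub_cancel] at h2
  push_cast at h2
  have hk1 : x ^ (k + 1) = x * x ^ k := by ring
  have hk2 : x ^ k = x ^ (k - 1) * x := by rw [← pow_succ, Nat.sub_add_cancel hk]
  have key := hB1 (x ^ k * y)
  have hne : -(2 * Real.pi * I * k) * exp (2 * Real.pi * I * (1 - x ^ k * y) ^ k) ≠ (0 : ℂ) := by
    refine mul_ne_zero (neg_ne_zero.2 (mul_ne_zero two_pi_I_ne_zero ?_)) (exp_ne_zero _)
    exact_mod_cast (by omega : k ≠ 0)
  rw [← key] at hne
  clear key
  generalize B (x ^ k * y) = b at *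
  generalize deriv B (x ^ k * y) = b' at *
  rw [hk1, hk2] at h2
  rw [hk2] at h1 hne
  generalize x ^ (k - 1) = a at *
  constructor
  · refine (mul_eq_zero.1 ?_).resolve_left hne
    linear_combination (x * (a * x)) * h1 + (b + b' * (a * x * y)) * h2
  · refine (mul_eq_zero.1 ?_).resolve_left hne
    linear_combination (1 - (k + 1) * (a * x * y)) * h1 - (b' * y ^ 2 * k * a) * h2

end Pool.Agent.Helper72.TM
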