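import Pool.Agent.Helper72.TM.Elem
import Pool.Agent.Helper72.TM.Two

/-!
# Immersions of `x ^ m y = q(x, z)` for `m ≥ 2` (project TM of helper72, MP_1994dd_an)
-/

open Complex

namespace Pool.Agent.Helper72.TM

variable {d : ℕ}

/-- Every entire function of `(x, z)` is, modulo `q` and `x ^ k`, a function of `Ξ(x, z)`. -/
theorem exists_mod {q : ℂ × (Fin d → ℂ) → ℂ} (hq : Differentiable ℂ q)
    {c : (Fin d → ℂ) → (Fin d → ℂ)} {α β : (Fin d → ℂ) → ℂ} (hα : Differentiable ℂ α)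
    (hβ : Differentiable ℂ β)
    (hbez : ∀ z, α z * fderiv ℂ q (0, z) (1, c z) + β z * q (0, z) = 1)
    {Ξ : ℂ × (Fin d → ℂ) → (Fin d → ℂ)} (hΞ : Differentiable ℂ Ξ) (h0 : ∀ z, Ξ (0, z) = z)
    (h1 : ∀ z, fderiv ℂ Ξ (0, z) (1, c z) = 0) (k : ℕ) (f : ℂ × (Fin d → ℂ) → ℂ)
    (hf : Differentiable ℂ f) :
    ∃ (g : (Fin d → ℂ) → ℂ) (A B : ℂ × (Fin d → ℂ) → ℂ), Differentiable ℂ g ∧
      Differentiable ℂ A ∧ Differentiable ℂ B ∧
      ∀ w, f w - g (Ξ w) = A w * q w + w.1 ^ k * B w := by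
  have hq0 : Differentiable ℂ (fun z : Fin d → ℂ => q (0, z)) := hq.comp (by fun_prop)
  set p : (Fin d → ℂ) → ℂ := fun z => -(α z * q (0, z)) with hp
  have hpd : Differentiable ℂ p := (hα.mul hq0).neg
  have hpΞ : Differentiable ℂ (fun w => p (Ξ w)) := hpd.comp hΞ
  have hfst : Differentiable ℂ (fun w : ℂ × (Fin d → ℂ) => w.1) := differentiable_fst
  have hαΞ : Differentiable ℂ (fun w => α (Ξ w)) := hα.comp hΞ
  have hβ2 : Differentiable ℂ (fun w : ℂ × (Fin d → ℂ) => β w.2) := hβ.comp differentiable_snd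
  -- first step
  obtain ⟨A₀, B₀, hA₀, hB₀, hAB⟩ : ∃ A B : ℂ × (Fin d → ℂ) → ℂ, Differentiable ℂ A ∧
      Differentiable ℂ B ∧ ∀ w, w.1 - p (Ξ w) = A w * q w + w.1 ^ 2 * B w := by
    set A' : ℂ × (Fin d → ℂ) → ℂ := fun w => α (Ξ w) + w.1 * β w.2 with hA'
    have hA'd : Differentiable ℂ A' := hαΞ.add (hfst.mul hβ2)
    have hFd : Differentiable ℂ (fun w : ℂ × (Fin d → ℂ) => w.1 - p (Ξ w) - A' w * q w) :=
      (hfst.sub hpΞ).sub (hA'd.mul hq)
    have hF0 : ∀ z, (fun w : ℂ × (Fin d → ℂ) => w.1 - p (Ξ w) - A' w * q w) (0, z) = 0 := by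
      intro z
      simp only [hp, hA', h0]
      ring
    obtain ⟨B, hB, hB1⟩ := exists_div_sq hFd hF0 (by
      intro z
      have h2 : fderiv ℂ (fun w : ℂ × (Fin d → ℂ) => w.1 - p (Ξ w) - A' w * q w) (0, z)
          (1, c z) = 0 := by
        have e1 : HasFDerivAt (fun w => p (Ξ w)) ((fderiv ℂ p (Ξ (0, z))).comp
            (fderiv ℂ Ξ (0, z))) (0, z) := (hpd _).hasFDerivAt.comp _ (hΞ _).hasFDerivAt
        have e2 : HasFDerivAt (fun w => α (Ξ w)) ((fderiv ℂ α (Ξ (0, z))).comp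
            (fderiv ℂ Ξ (0, z))) (0, z) := (hα _).hasFDerivAt.comp _ (hΞ _).hasFDerivAt
        have e3 : HasFDerivAt (fun w : ℂ × (Fin d → ℂ) => w.1 * β w.2)
            (((0 : ℂ), z).1 • fderiv ℂ (fun w : ℂ × (Fin d → ℂ) => β w.2) (0, z) +
              β ((0 : ℂ), z).2 • ContinuousLinearMap.fst ℂ ℂ (Fin d → ℂ)) (0, z) :=
          hasFDerivAt_fst.mul (hβ2 _).hasFDerivAt
        have e4 := (hasFDerivAt_fst.sub e1).sub ((e2.add e3).mul (hq (0, z)).hasFDerivAt)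
        have e5 := e4.fderiv
        have e6 : fderiv ℂ (fun w : ℂ × (Fin d → ℂ) => w.1 - p (Ξ w) - A' w * q w) (0, z) = _ :=
          e5
        rw [e6]
        simp only [_root_.sub_apply, _root_.add_apply, _root_.smul_apply,
          ContinuousLinearMap.comp_apply, ContinuousLinearMap.coe_fst', h1, map_zero, h0,
          smul_eq_mul, zero_mul, zero_add, sub_zero, add_zero, mul_one, Pi.add_apply]
        linear_combination -(hbez z)
      have h3 : ((1 : ℂ), (0 : Fin d → ℂ)) = (1, c z) - (0, c z) := by simp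
      rw [h3, map_sub, h2, fderiv_of_vanish hFd hF0, sub_zero])
    refine ⟨A', B, hA'd, hB, fun w => ?_⟩
    have h4 := hB1 w.1 w.2
    simp only [Prod.mk.eta] at h4
    linear_combination h4
  -- powers
  have hpow : ∀ k : ℕ, ∃ C D : ℂ × (Fin d → ℂ) → ℂ, Differentiable ℂ C ∧ Differentiable ℂ D ∧
      ∀ w, w.1 ^ k - p (Ξ w) ^ k = C w * q w + w.1 ^ (k + 1) * D w := by
    intro k
    induction k with
    | zero => exact ⟨0, 0, differentiable_const _, differentiable_const _, fun w => by simp⟩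
    | succ k ih =>
      obtain ⟨C, D, hC, hD, hCD⟩ := ih
      refine ⟨fun w => w.1 * C w + p (Ξ w) ^ k * A₀ w - w.1 ^ 2 * B₀ w * C w,
        fun w => D w + B₀ w - w.1 * D w * B₀ w, ?_, ?_, fun w => ?_⟩
      · exact ((hfst.mul hC).add ((hpΞ.pow k).mul hA₀)).sub (((hfst.pow 2).mul hB₀).mul hC)
      · exact (hD.add hB₀).sub ((hfst.mul hD).mul hB₀)
      · have e1 := hCD w
        have e2 := hAB w
        have e3 : w.1 ^ (k + 1) - p (Ξ w) ^ (k + 1) =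
            w.1 * (w.1 ^ k - p (Ξ w) ^ k) + p (Ξ w) ^ k * (w.1 - p (Ξ w)) := by ring
        rw [e3, e1, e2]
        linear_combination (-(w.1 ^ 2 * B₀ w)) * e1
  induction k with
  | zero =>
    exact ⟨0, 0, f, differentiable_const _, differentiable_const _, hf, fun w => by simp⟩
  | succ k ih =>
    obtain ⟨g, A, B, hg, hA, hB, hgAB⟩ := ih
    obtain ⟨C, D, hC, hD, hCD⟩ := hpow k
    set h : (Fin d → ℂ) → ℂ := fun z => B (0, z) with hh
    have hhd : Differentiable ℂ h := hB.comp (by fun_prop)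
    have hhΞ : Differentiable ℂ (fun w => h (Ξ w)) := hhd.comp hΞ
    obtain ⟨B', hB', hB'1, -⟩ := exists_div (f := fun w => B w - h (Ξ w)) (hB.sub hhΞ) (by
      intro z
      simp [hh, h0])
    refine ⟨fun z => g z + p z ^ k * h z, fun w => A w + h (Ξ w) * C w,
      fun w => h (Ξ w) * D w + B' w, hg.add ((hpd.pow k).mul hhd), hA.add (hhΞ.mul hC),
      (hhΞ.mul hD).add hB', fun w => ?_⟩
    have e1 := hgAB w
    have e2 := hCD w
    have e3 := hB'1 w.1 w.2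
    simp only [Prod.mk.eta] at e3
    simp only
    linear_combination e1 + (h (Ξ w)) * e2 + w.1 ^ k * e3

/-- The core theorem. -/
theorem core (m : ℕ) (hm : 2 ≤ m) {q : ℂ × (Fin d → ℂ) → ℂ} (hq : Differentiable ℂ q)
    {c : (Fin d → ℂ) → (Fin d → ℂ)} (hc : Differentiable ℂ c) {α β : (Fin d → ℂ) → ℂ}
    (hα : Differentiable ℂ α) (hβ : Differentiable ℂ β)
    (hbez : ∀ z, α z * fderiv ℂ q (0, z) (1, c z) + β z * q (0, z) = 1) :
    ∃ Φ : ℂ × ℂ × (Fin d → ℂ) → ℂ × (Fin d → ℂ), Differentiable ℂ Φ ∧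
      ∀ x y z, x ^ m * y = q (x, z) → ∀ dx dy dz,
        m * x ^ (m - 1) * y * dx + x ^ m * dy = fderiv ℂ q (x, z) (dx, dz) →
        fderiv ℂ Φ (x, y, z) (dx, dy, dz) = 0 → dx = 0 ∧ dy = 0 ∧ dz = 0 := by
  obtain ⟨Ξ, hΞ, h0, h1, h2⟩ := exists_Xi (c := fun z => -c z) hc.neg
  have h3 : ∀ z v, fderiv ℂ Ξ (0, z) (0, v) = v := by
    intro z v
    have h4 : HasFDerivAt (fun ζ => Ξ (0, ζ))
        ((fderiv ℂ Ξ (0, z)).comp (ContinuousLinearMap.inr ℂ ℂ (Fin d → ℂ))) z :=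
      (hΞ (0, z)).hasFDerivAt.comp z (hasFDerivAt_prodMk_right (0 : ℂ) z)
    have h5 : HasFDerivAt (fun ζ => Ξ (0, ζ)) (ContinuousLinearMap.id ℂ (Fin d → ℂ)) z := by
      simp_rw [h0]
      exact hasFDerivAt_id z
    have h6 := congrArg (fun L => L v) (h4.unique h5)
    simpa using h6
  have h4 : ∀ z, fderiv ℂ Ξ (0, z) (1, c z) = 0 := by
    intro z
    have h5 : ((1 : ℂ), c z) = (1, 0) + (0, c z) := by simp
    rw [h5, map_add, h1, h3]
    simp
  obtain ⟨χ, u, r, hχ, hu, hr, hχur⟩ := exists_mod hq hα hβ hbez hΞ h0 h4 m (fun w => w.1)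
    differentiable_fst
  -- the derivative of the identity
  have hder : ∀ (w v : ℂ × (Fin d → ℂ)), v.1 - fderiv ℂ χ (Ξ w) (fderiv ℂ Ξ w v) =
      u w * fderiv ℂ q w v + q w * fderiv ℂ u w v +
      (w.1 ^ m * fderiv ℂ r w v + r w * (m * w.1 ^ (m - 1) * v.1)) := by
    intro w v
    have e1 : HasFDerivAt (fun w => χ (Ξ w)) ((fderiv ℂ χ (Ξ w)).comp (fderiv ℂ Ξ w)) w :=
      (hχ _).hasFDerivAt.comp _ (hΞ _).hasFDerivAt
    have e2 : HasFDerivAt (fun w : ℂ × (Fin d → ℂ) => w.1 - χ (Ξ w))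
        (ContinuousLinearMap.fst ℂ ℂ (Fin d → ℂ) - (fderiv ℂ χ (Ξ w)).comp (fderiv ℂ Ξ w)) w :=
      hasFDerivAt_fst.sub e1
    have e3 : HasFDerivAt (fun w : ℂ × (Fin d → ℂ) => w.1 ^ m)
        ((m * w.1 ^ (m - 1)) • ContinuousLinearMap.fst ℂ ℂ (Fin d → ℂ)) w :=
      (hasDerivAt_pow m w.1).comp_hasFDerivAt w hasFDerivAt_fst
    have e4 := ((hu w).hasFDerivAt.mul (hq w).hasFDerivAt).add (e3.mul (hr w).hasFDerivAt)
    have e5 : (fun w : ℂ × (Fin d → ℂ) => w.1 - χ (Ξ w)) = fun w => u w * q w + w.1 ^ m * r w :=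
      funext hχur
    rw [e5] at e2
    have e6 := congrArg (fun L => L v) (e2.unique e4)
    simpa using e6
  have hu0 : ∀ z, q (0, z) = 0 → u (0, z) ≠ 0 := by
    intro z hz hz0
    have e1 := hder (0, z) (1, c z)
    have e2 : (0 : ℂ) ^ m = 0 := zero_pow (by omega)
    have e3 : (0 : ℂ) ^ (m - 1) = 0 := zero_pow (by omega)
    simp only [h4, map_zero, hz, hz0, e2, e3] at e1
    norm_num at e1
  obtain ⟨ψ, hψ, hψ1⟩ := exists_psi m hm
  set π : ℂ × ℂ × (Fin d → ℂ) →L[ℂ] ℂ × (Fin d → ℂ) :=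
    (ContinuousLinearMap.fst ℂ ℂ (ℂ × (Fin d → ℂ))).prod
      ((ContinuousLinearMap.snd ℂ ℂ (Fin d → ℂ)).comp
        (ContinuousLinearMap.snd ℂ ℂ (ℂ × (Fin d → ℂ)))) with hπ
  set πy : ℂ × ℂ × (Fin d → ℂ) →L[ℂ] ℂ :=
    (ContinuousLinearMap.fst ℂ ℂ (Fin d → ℂ)).comp
      (ContinuousLinearMap.snd ℂ ℂ (ℂ × (Fin d → ℂ))) with hπy
  have hYd : ∀ P : ℂ × ℂ × (Fin d → ℂ), HasFDerivAt
      (fun P : ℂ × ℂ × (Fin d → ℂ) => u (π P) * πy P + r (π P))
      ((u (π P) • πy + πy P • (fderiv ℂ u (π P)).comp π) + (fderiv ℂ r (π P)).comp π) P := by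
    intro P
    have e1 : HasFDerivAt (fun P => u (π P)) ((fderiv ℂ u (π P)).comp π) P :=
      (hu _).hasFDerivAt.comp _ π.hasFDerivAt
    have e2 : HasFDerivAt (fun P => r (π P)) ((fderiv ℂ r (π P)).comp π) P :=
      (hr _).hasFDerivAt.comp _ π.hasFDerivAt
    exact (e1.mul πy.hasFDerivAt).add e2
  have hΦd : ∀ P : ℂ × ℂ × (Fin d → ℂ), HasFDerivAt
      (fun P : ℂ × ℂ × (Fin d → ℂ) =>
        ((ψ (P.1, u (π P) * πy P + r (π P)), Ξ (π P)) : ℂ × (Fin d → ℂ)))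
      (((fderiv ℂ ψ (P.1, u (π P) * πy P + r (π P))).comp
        ((ContinuousLinearMap.fst ℂ ℂ (ℂ × (Fin d → ℂ))).prod
          ((u (π P) • πy + πy P • (fderiv ℂ u (π P)).comp π) +
            (fderiv ℂ r (π P)).comp π))).prod ((fderiv ℂ Ξ (π P)).comp π)) P := by
    intro P
    have e1 : HasFDerivAt (fun P : ℂ × ℂ × (Fin d → ℂ) => (P.1, u (π P) * πy P + r (π P)))
        ((ContinuousLinearMap.fst ℂ ℂ (ℂ × (Fin d → ℂ))).prod
          ((u (π P) • πy + πy P • (fderiv ℂ u (π P)).comp π) +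
            (fderiv ℂ r (π P)).comp π)) P := hasFDerivAt_fst.prodMk (hYd P)
    have e2 : HasFDerivAt (fun P => ψ (P.1, u (π P) * πy P + r (π P)))
        ((fderiv ℂ ψ (P.1, u (π P) * πy P + r (π P))).comp
        ((ContinuousLinearMap.fst ℂ ℂ (ℂ × (Fin d → ℂ))).prod
          ((u (π P) • πy + πy P • (fderiv ℂ u (π P)).comp π) +
            (fderiv ℂ r (π P)).comp π))) P := (hψ _).hasFDerivAt.comp P e1
    exact e2.prodMk ((hΞ _).hasFDerivAt.comp P π.hasFDerivAt)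
  refine ⟨_, fun P => (hΦd P).differentiableAt, ?_⟩
  intro x y z hX dx dy dz hT hv
  rw [(hΦd (x, y, z)).fderiv] at hv
  have v1 : fderiv ℂ ψ (x, u (x, z) * y + r (x, z)) (dx, (u (x, z) * dy +
      y * fderiv ℂ u (x, z) (dx, dz)) + fderiv ℂ r (x, z) (dx, dz)) = 0 := congrArg Prod.fst hv
  have v2 : fderiv ℂ Ξ (x, z) (dx, dz) = 0 := congrArg Prod.snd hv
  have e1 := hder (x, z) (dx, dz)
  rw [v2, map_zero, sub_zero] at e1
  simp only at e1
  rw [← hT, ← hX] at e1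
  have e2 := hψ1 x (u (x, z) * y + r (x, z)) dx _ v1 (by linear_combination e1)
  obtain ⟨hdx, hdY⟩ := e2
  subst hdx
  have hdz := h2 x z dz v2
  subst hdz
  refine ⟨rfl, ?_, rfl⟩
  have e3 : (((0 : ℂ), (0 : Fin d → ℂ))) = 0 := rfl
  rw [e3, map_zero, map_zero, mul_zero, add_zero, add_zero] at hdY
  rcases mul_eq_zero.1 hdY with h | h
  · rw [e3, map_zero, mul_zero, zero_add] at hT
    rcases mul_eq_zero.1 hT with h5 | h5
    · have hx0 : x = 0 := by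
        by_contra hne
        exact pow_ne_zero m hne h5
      subst hx0
      refine absurd h (hu0 z ?_)
      rw [← hX, zero_pow (by omega), zero_mul]
    · exact h5
  · exact h

end Pool.Agent.Helper72.TM
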