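import Mathlib

/-!
# Interpolation by exponentials of entire functions (project TM of helper72, MP_1994dd_an)
-/

open Complex

namespace Pool.Agent.Helper72.TM

/-- Division by a linear factor. -/
theorem exists_div_one {f : ℂ → ℂ} (hf : Differentiable ℂ f) {r : ℂ} (h0 : f r = 0) :
    ∃ g : ℂ → ℂ, Differentiable ℂ g ∧ ∀ x, f x = (x - r) * g x := by
  refine ⟨dslope f r, ?_, fun x => ?_⟩
  · have h1 : DifferentiableOn ℂ (dslope f r) Set.univ :=
      (Complex.differentiableOn_dslope (by simp)).2 hf.differentiableOn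
    exact differentiableOn_univ.1 h1
  · have := sub_smul_dslope f r x
    rw [h0, sub_zero] at this
    simpa using this.symm

/-- The function `(exp s - 1) / s`. -/
theorem exists_phi : ∃ φ : ℂ → ℂ, Differentiable ℂ φ ∧ φ 0 = 1 ∧ ∀ s, exp s - 1 = s * φ s := by
  obtain ⟨φ, hφ, h1⟩ := exists_div_one (f := fun s => exp s - 1) (r := 0) (by fun_prop) (by simp)
  simp only [sub_zero] at h1
  refine ⟨φ, hφ, ?_, h1⟩
  have h2 : HasDerivAt (fun s : ℂ => exp s - 1) (exp 0) 0 := (hasDerivAt_exp 0).sub_const 1
  have h3 : HasDerivAt (fun s : ℂ => s * φ s) (1 * φ 0 + 0 * deriv φ 0) 0 :=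
    (hasDerivAt_id 0).mul (hφ 0).hasDerivAt
  rw [← funext h1] at h3
  have h4 := h3.unique h2
  simpa using h4

theorem differentiable_prod_sub (s : Multiset ℂ) :
    Differentiable ℂ (fun x : ℂ => (s.map (fun r => x - r)).prod) := by
  induction s using Multiset.induction_on with
  | empty => simp
  | cons t s ih =>
    simp only [Multiset.map_cons, Multiset.prod_cons]
    exact (differentiable_id.sub_const t).mul ih

/-- Every entire function without zeros at the points of the multiset `s` is congruent to the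
exponential of an entire function modulo `∏ (x - r)`. -/
theorem exists_expInterp (s : Multiset ℂ) {A : ℂ → ℂ} (hA : Differentiable ℂ A)
    (h0 : ∀ r ∈ s, A r ≠ 0) : ∃ h E : ℂ → ℂ, Differentiable ℂ h ∧ Differentiable ℂ E ∧
      ∀ x, exp (h x) = A x + (s.map (fun r => x - r)).prod * E x := by
  obtain ⟨φ, hφ, hφ0, hφ1⟩ := exists_phi
  induction s using Multiset.induction_on with
  | empty =>
    exact ⟨fun _ => 0, fun x => 1 - A x, differentiable_const _, hA.const_sub 1,
      fun x => by simp⟩
  | cons r s ih =>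
    obtain ⟨h, E, hh, hE, hhE⟩ := ih (fun t ht => h0 t (Multiset.mem_cons_of_mem ht))
    set P : ℂ → ℂ := fun x => (s.map (fun r => x - r)).prod with hP
    have hPd : Differentiable ℂ P := differentiable_prod_sub s
    have key : ∀ κ : ℂ, ∀ x, exp (h x + κ * P x) =
        A x + P x * (κ * exp (h x) * φ (κ * P x) + E x) := by
      intro κ x
      have e1 := hhE x
      have e2 := hφ1 (κ * P x)
      rw [exp_add]
      change exp (h x) = A x + P x * E x at e1
      linear_combination e1 + exp (h x) * e2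
    obtain ⟨κ, hκ⟩ : ∃ κ : ℂ, κ * exp (h r) * φ (κ * P r) + E r = 0 := by
      by_cases hPr : P r = 0
      · refine ⟨-(E r) * exp (-(h r)), ?_⟩
        rw [hPr, mul_zero, hφ0, mul_assoc _ _ (exp (h r)), ← exp_add]
        simp
      · refine ⟨(log (A r) - h r) / P r, ?_⟩
        have e1 := key ((log (A r) - h r) / P r) r
        rw [div_mul_cancel₀ _ hPr, add_sub_cancel, exp_log (h0 r (Multiset.mem_cons_self _ _))] at e1
        rw [div_mul_cancel₀ _ hPr]
        exact (mul_eq_zero.1 (left_eq_add.1 e1)).resolve_left hPr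
    have hBd : Differentiable ℂ (fun x => κ * exp (h x) * φ (κ * P x) + E x) := by
      have e1 : Differentiable ℂ (fun x => φ (κ * P x)) := hφ.comp (hPd.const_mul κ)
      exact ((hh.cexp.const_mul κ).mul e1).add hE
    obtain ⟨g, hg, hg1⟩ := exists_div_one hBd hκ
    refine ⟨fun x => h x + κ * P x, g, hh.add (hPd.const_mul κ), hg, fun x => ?_⟩
    rw [key, hg1, Multiset.map_cons, Multiset.prod_cons]
    ring

/-- The version modulo a polynomial. -/
theorem exists_expInterp_poly {a : Polynomial ℂ} (ha : a ≠ 0) {A : ℂ → ℂ}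
    (hA : Differentiable ℂ A) (h0 : ∀ r, a.IsRoot r → A r ≠ 0) :
    ∃ h E : ℂ → ℂ, Differentiable ℂ h ∧ Differentiable ℂ E ∧
      ∀ x, exp (h x) = A x + a.eval x * E x := by
  obtain ⟨h, E, hh, hE, h1⟩ := exists_expInterp a.roots hA (fun r hr => h0 r
    (Polynomial.isRoot_of_mem_roots hr))
  have hlc : a.leadingCoeff ≠ 0 := Polynomial.leadingCoeff_ne_zero.2 ha
  refine ⟨h, fun x => a.leadingCoeff⁻¹ * E x, hh, hE.const_mul _, fun x => ?_⟩
  rw [h1]
  have h2 : a.eval x = a.leadingCoeff * (a.roots.map (fun r => x - r)).prod := by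
    conv_lhs => rw [(IsAlgClosed.splits a).eq_prod_roots]
    rw [Polynomial.eval_mul, Polynomial.eval_C, Polynomial.eval_multiset_prod, Multiset.map_map]
    simp
  rw [h2]
  field_simp

end Pool.Agent.Helper72.TM
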