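import Pool.Agent.Helper72.TM.PolyData
import Pool.Agent.Helper72.TM.EI
import Pool.Agent.Helper72.TM.Calc
import Pool.Agent.Helper40.IM.Ent

/-!
# `σ(x) - a(x) y` is a component of a holomorphic immersion of `ℂ²`, if `a` has no simple roots
(project TM of helper72, MP_1994dd_an)
-/

open Polynomial Complex

namespace Pool.Agent.Helper72.TM

theorem hasFDerivAt_eval_fst (p : ℂ[X]) (w : ℂ × ℂ) :
    HasFDerivAt (fun w : ℂ × ℂ => p.eval w.1)
      ((derivative p).eval w.1 • ContinuousLinearMap.fst ℂ ℂ ℂ) w :=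
  (p.hasDerivAt w.1).comp_hasFDerivAt w hasFDerivAt_fst

theorem differentiable_evalEval (L : ℂ[X][X]) :
    Differentiable ℂ (fun w : ℂ × ℂ => (L.eval (C w.2)).eval w.1) := by
  have h1 : ∀ w : ℂ × ℂ, (L.eval (C w.2)).eval w.1 =
      ∑ i ∈ Finset.range (L.natDegree + 1), (L.coeff i).eval w.1 * w.2 ^ i := by
    intro w
    rw [eval_eq_sum_range (p := L), eval_finsetSum]
    refine Finset.sum_congr rfl fun i _ => ?_
    rw [eval_mul, eval_pow, eval_C]
  simp_rw [h1]
  refine Differentiable.fun_sum fun i _ => ?_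
  have h2 : Differentiable ℂ (fun w : ℂ × ℂ => (L.coeff i).eval w.1) :=
    fun w => (hasFDerivAt_eval_fst _ w).differentiableAt
  exact h2.mul (differentiable_snd.pow i)

theorem dense_root (p : ℂ[X]) (hp : p ≠ 0) : Dense {x : ℂ | p.eval x ≠ 0} := by
  have h1 : ({x : ℂ | p.eval x ≠ 0}) = (p.roots.toFinset : Set ℂ)ᶜ := by
    ext x
    simp [hp]
  rw [h1]
  exact (p.roots.toFinset.finite_toSet.countable).dense_compl ℂ

/-- If `a` has no simple roots then `σ(x) - a(x) y` is a component of an immersion. -/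
theorem exists_psi_gen {a σ : ℂ[X]} (ha : a ≠ 0) (h2 : ∀ r, a.IsRoot r → 2 ≤ a.rootMultiplicity r)
    (hσ : ∀ r, a.IsRoot r → σ.derivative.eval r ≠ 0)
    (hcls : ∀ r r', a.IsRoot r → a.IsRoot r' → σ.eval r = σ.eval r' →
      a.rootMultiplicity r = a.rootMultiplicity r') :
    ∃ ψ : ℂ × ℂ → ℂ, Differentiable ℂ ψ ∧ ∀ x y dx dy : ℂ, fderiv ℂ ψ (x, y) (dx, dy) = 0 →
      σ.derivative.eval x * dx - (a.derivative.eval x * y * dx + a.eval x * dy) = 0 →
        dx = 0 ∧ dy = 0 := by
  obtain ⟨κ, b, P, M, c, c₁, N₀, N₁, L, hκ, hab, hPM, hc0, hN, hroot, hL⟩ :=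
    poly_data ha h2 hσ hcls
  have hab' : ∀ x, a.eval x = κ * b.eval x * P.eval x := fun x => by
    rw [hab, eval_mul, eval_mul, eval_C]
  have hPM' : ∀ x, P.eval x * (derivative b).eval x = b.eval x * M.eval x := fun x => by
    rw [← eval_mul, hPM, eval_mul]
  have hN' : ∀ x, N₀.eval x * c₁.eval x + N₁.eval x * b.eval x = 1 := fun x => by
    rw [← eval_mul, ← eval_mul, ← eval_add, hN, eval_one]
  -- the functions `h` and `E`
  obtain ⟨h, E₁, hh, hE₁, hhE⟩ := exists_expInterp_poly ha
    (A := fun x => (C κ * (P * derivative N₀ - M * N₀)).eval x) (Polynomial.differentiable _) (by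
      intro r hr
      obtain ⟨r1, r2, r3⟩ := hroot r hr
      simp only [eval_mul, eval_C, eval_sub, r1, zero_mul, zero_sub]
      exact mul_ne_zero hκ (neg_ne_zero.2 (mul_ne_zero r2 r3)))
  obtain ⟨E, hE⟩ := hE₁.isExactOn_univ
  have hE' : ∀ x, HasDerivAt E (E₁ x) x := fun x => hE x (Set.mem_univ _)
  set N : ℂ → ℂ := fun x => N₀.eval x + b.eval x * E x with hNdef
  set N' : ℂ → ℂ := fun x => (derivative N₀).eval x +
    ((derivative b).eval x * E x + b.eval x * E₁ x) with hN'def
  have hNd : ∀ x, HasDerivAt N (N' x) x := fun x =>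
    (N₀.hasDerivAt x).add ((b.hasDerivAt x).mul (hE' x))
  have hNN : ∀ x, κ * (P.eval x * N' x - M.eval x * N x) = exp (h x) := by
    intro x
    rw [hhE x, hab' x]
    simp only [hNdef, hN'def, eval_mul, eval_C, eval_sub]
    linear_combination (κ * E x) * hPM' x
  -- the function `G`
  set Lf : ℂ × ℂ → ℂ := fun w => (L.eval (C w.2)).eval w.1 with hLf
  have hLd : Differentiable ℂ Lf := differentiable_evalEval L
  have hN1 : Differentiable ℂ (fun w : ℂ × ℂ => N w.1) := fun w =>
    ((hNd w.1).comp_hasFDerivAt w hasFDerivAt_fst).differentiableAt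
  have hev : ∀ p : ℂ[X], Differentiable ℂ (fun w : ℂ × ℂ => p.eval w.1) := fun p w =>
    (hasFDerivAt_eval_fst p w).differentiableAt
  set s : ℂ × ℂ → ℂ := fun w => σ.eval w.1 - a.eval w.1 * w.2 with hs
  set s' : ℂ × ℂ → (ℂ × ℂ →L[ℂ] ℂ) := fun w =>
    (derivative σ).eval w.1 • ContinuousLinearMap.fst ℂ ℂ ℂ -
      (a.eval w.1 • ContinuousLinearMap.snd ℂ ℂ ℂ +
        w.2 • ((derivative a).eval w.1 • ContinuousLinearMap.fst ℂ ℂ ℂ)) with hs'
  have hsd : ∀ w, HasFDerivAt s (s' w) w := fun w =>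
    (hasFDerivAt_eval_fst σ w).sub ((hasFDerivAt_eval_fst a w).mul hasFDerivAt_snd)
  set G : ℂ × ℂ → ℂ := fun w => N w.1 * (c₁.eval w.1 - b.eval w.1 * Lf w) with hG
  have hGd : Differentiable ℂ G := hN1.mul ((hev c₁).sub ((hev b).mul hLd))
  set G₁ : ℂ × ℂ → ℂ := fun w => -N₁.eval w.1 + E w.1 * c₁.eval w.1 - Lf w * N w.1 with hG₁
  have hEd : Differentiable ℂ (fun w : ℂ × ℂ => E w.1) := fun w =>
    ((hE' w.1).comp_hasFDerivAt w hasFDerivAt_fst).differentiableAt
  have hG₁d : Differentiable ℂ G₁ :=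
    ((hev N₁).neg.add (hEd.mul (hev c₁))).sub (hLd.mul hN1)
  have hbG : ∀ w, b.eval w.1 * G w = c.eval (s w) * N w.1 := by
    intro w
    have e1 := hL w.1 w.2
    simp only [hG, hs, hLf]
    rw [e1]
    ring
  have hG1 : ∀ w, G w - 1 = b.eval w.1 * G₁ w := by
    intro w
    simp only [hG, hG₁, hNdef]
    linear_combination hN' w.1
  obtain ⟨W, hW, hW1⟩ := Pool.Agent.Helper40.IM.exists_quot {0, 1}
    (fun s : ℂ => exp (2 * Real.pi * I * s) - 1) (by fun_prop) (by
      intro r hr
      simp only [Finset.mem_insert, Finset.mem_singleton] at hr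
      rcases hr with rfl | rfl
      · simp
      · simp [exp_two_pi_mul_I])
  have hW2 : ∀ s : ℂ, exp (2 * Real.pi * I * s) - 1 = s * (s - 1) * W s := by
    intro s
    have h1 := hW1 s
    simp at h1
    rw [h1]
  set ψ : ℂ × ℂ → ℂ := fun w => N w.1 * G₁ w * W (G w) with hψ
  have hψd : Differentiable ℂ ψ := (hN1.mul hG₁d).mul (hW.comp hGd)
  have hcψ : ∀ w, c.eval (s w) * ψ w = exp (2 * Real.pi * I * G w) - 1 := by
    intro w
    rw [hW2, hG1 w]
    simp only [hψ]
    linear_combination (-(G₁ w * W (G w))) * hbG w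
  clear_value G G₁ ψ N N'
  -- the vector field
  set V : ℂ × ℂ → ℂ × ℂ := fun w => (a.eval w.1, (derivative σ).eval w.1 -
    (derivative a).eval w.1 * w.2) with hV
  have hsV : ∀ w, s' w (V w) = 0 := by
    intro w
    simp only [hs', hV, _root_.sub_apply, _root_.add_apply, _root_.smul_apply,
      ContinuousLinearMap.coe_fst', ContinuousLinearMap.coe_snd', smul_eq_mul]
    ring
  have hcs : ∀ w, HasFDerivAt (fun w => c.eval (s w)) ((derivative c).eval (s w) • s' w) w :=
    fun w => (c.hasDerivAt (s w)).comp_hasFDerivAt w (hsd w)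
  have hD1 : ∀ w, c.eval (s w) * fderiv ℂ ψ w (V w) =
      2 * Real.pi * I * exp (2 * Real.pi * I * G w) * fderiv ℂ G w (V w) := by
    intro w
    have e1 := (hcs w).fun_mul (hψd w).hasFDerivAt
    have e2 : HasFDerivAt (fun w => exp (2 * Real.pi * I * G w) - 1)
        (exp (2 * Real.pi * I * G w) • ((2 * Real.pi * I : ℂ) • fderiv ℂ G w)) w :=
      (((hGd w).hasFDerivAt.const_mul (2 * Real.pi * I : ℂ)).cexp).sub_const 1
    rw [← funext hcψ] at e2
    have e3 := congrArg (fun L => L (V w)) (e1.unique e2)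
    simp only [_root_.add_apply, _root_.smul_apply, smul_eq_mul, hsV, mul_zero, add_zero] at e3
    linear_combination e3
  have hD2 : ∀ w, b.eval w.1 * fderiv ℂ G w (V w) + G w * ((derivative b).eval w.1 * a.eval w.1) =
      c.eval (s w) * (N' w.1 * a.eval w.1) := by
    intro w
    have e1 := (hasFDerivAt_eval_fst b w).fun_mul (hGd w).hasFDerivAt
    have e0 : HasFDerivAt (fun w : ℂ × ℂ => N w.1) (N' w.1 • ContinuousLinearMap.fst ℂ ℂ ℂ) w :=
      (hNd w.1).comp_hasFDerivAt w hasFDerivAt_fst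
    have e2 := (hcs w).fun_mul e0
    rw [← funext hbG] at e2
    have e3 := congrArg (fun L => L (V w)) (e1.unique e2)
    have e4 := hsV w
    simp only [_root_.add_apply, _root_.smul_apply, smul_eq_mul,
      ContinuousLinearMap.coe_fst', hV] at e3
    simp only [hV] at e4 ⊢
    linear_combination e3 + (N w.1 * (derivative c).eval (s w)) * e4
  have hD3 : ∀ w, a.eval w.1 * fderiv ℂ G w (V w) =
      a.eval w.1 * (c.eval (s w) * exp (h w.1)) := by
    intro w
    have e1 := hD2 w
    have e2 := hbG w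
    have e3 := hPM' w.1
    have e4 := hNN w.1
    have e5 := hab' w.1
    rw [← e4]
    linear_combination (κ * P.eval w.1) * e1 + fderiv ℂ G w (V w) * e5 -
      (κ * a.eval w.1 * G w) * e3 - (κ * a.eval w.1 * M.eval w.1) * e2
  have hD4 : ∀ w, a.eval w.1 * c.eval (s w) * fderiv ℂ ψ w (V w) = a.eval w.1 * c.eval (s w) *
      (2 * Real.pi * I * exp (2 * Real.pi * I * G w) * exp (h w.1)) := by
    intro w
    linear_combination (a.eval w.1) * hD1 w +
      (2 * Real.pi * I * exp (2 * Real.pi * I * G w)) * hD3 w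
  have hfd : Continuous (fun w => fderiv ℂ ψ w (V w)) := by
    have e1 := continuous_fderiv hψd
    have e2 : Continuous V := by
      refine ((hev a).continuous).prodMk ?_
      exact ((hev (derivative σ)).continuous).sub
        (((hev (derivative a)).continuous).mul continuous_snd)
    exact e1.clm_apply e2
  have hKc : Continuous (fun w : ℂ × ℂ =>
      2 * Real.pi * I * exp (2 * Real.pi * I * G w) * exp (h w.1)) := by
    have e1 := hGd.continuous
    have e2 := hh.continuous
    fun_prop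
  have hD5 : ∀ x y, a.eval x ≠ 0 → fderiv ℂ ψ (x, y) (V (x, y)) =
      2 * Real.pi * I * exp (2 * Real.pi * I * G (x, y)) * exp (h x) := by
    intro x y hx
    have e1 : Dense {y : ℂ | c.eval (σ.eval x - a.eval x * y) ≠ 0} := by
      have e2 : ({y : ℂ | c.eval (σ.eval x - a.eval x * y) ≠ 0}) =
          ((c.roots.toFinset.image (fun ρ => (σ.eval x - ρ) / a.eval x) : Finset ℂ) : Set ℂ)ᶜ := by
        ext t
        simp only [Set.mem_ofPred_eq, Set.mem_compl_iff, Finset.mem_coe, Finset.mem_image,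
          Multiset.mem_toFinset, mem_roots hc0, IsRoot.def, not_exists, not_and]
        constructor
        · intro e3 ρ e4 e5
          apply e3
          rw [← e5, mul_div_cancel₀ _ hx, sub_sub_cancel, e4]
        · intro e3 e4
          refine e3 _ e4 ?_
          field_simp
          ring
      rw [e2]
      exact (Finset.finite_toSet _).countable.dense_compl ℂ
    have e3 := Continuous.ext_on e1
      (f := fun y => fderiv ℂ ψ (x, y) (V (x, y)))
      (g := fun y => 2 * Real.pi * I * exp (2 * Real.pi * I * G (x, y)) * exp (h x))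
      (hfd.comp (by fun_prop : Continuous (fun y : ℂ => (x, y))))
      (hKc.comp (by fun_prop : Continuous (fun y : ℂ => (x, y)))) (by
        intro t ht
        exact mul_left_cancel₀ (mul_ne_zero hx ht) (hD4 (x, t)))
    exact congrFun e3 y
  have hD6 : ∀ x y, fderiv ℂ ψ (x, y) (V (x, y)) =
      2 * Real.pi * I * exp (2 * Real.pi * I * G (x, y)) * exp (h x) := by
    intro x y
    have e3 := Continuous.ext_on (dense_root a ha)
      (f := fun x => fderiv ℂ ψ (x, y) (V (x, y)))
      (g := fun x => 2 * Real.pi * I * exp (2 * Real.pi * I * G (x, y)) * exp (h x))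
      (hfd.comp (by fun_prop : Continuous (fun x : ℂ => (x, y))))
      (hKc.comp (by fun_prop : Continuous (fun x : ℂ => (x, y)))) (by
        intro t ht
        exact hD5 t y ht)
    exact congrFun e3 x
  refine ⟨ψ, hψd, fun x y dx dy e1 e2 => ?_⟩
  have hne : fderiv ℂ ψ (x, y) (V (x, y)) ≠ 0 := by
    rw [hD6]
    exact mul_ne_zero (mul_ne_zero two_pi_I_ne_zero (exp_ne_zero _)) (exp_ne_zero _)
  have e3 : dx • V (x, y) = a.eval x • (dx, dy) := by
    simp only [hV, Prod.smul_mk, smul_eq_mul, Prod.mk.injEq]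
    exact ⟨by ring, by linear_combination e2⟩
  have e4 : dy • V (x, y) = ((derivative σ).eval x - (derivative a).eval x * y) • (dx, dy) := by
    simp only [hV, Prod.smul_mk, smul_eq_mul, Prod.mk.injEq]
    exact ⟨by linear_combination -e2, by ring⟩
  have e5 := congrArg (fderiv ℂ ψ (x, y)) e3
  have e6 := congrArg (fderiv ℂ ψ (x, y)) e4
  rw [map_smul, map_smul, e1, smul_zero, smul_eq_mul] at e5 e6
  exact ⟨(mul_eq_zero.1 e5).resolve_right hne, (mul_eq_zero.1 e6).resolve_right hne⟩

end Pool.Agent.Helper72.TM
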