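import Pool.Agent.Helper72.TM.MultiXi
import Pool.Agent.Helper72.TM.Psi
import Pool.Agent.Helper40.IM.Core

/-!
# Immersions of `a(x) y = q(σ(x), z)` for `a` without simple roots
(project TM of helper72, MP_1994dd_an)
-/

open Polynomial

namespace Pool.Agent.Helper72.TM

variable {d : ℕ}

theorem isCoprime_of_disjoint {p q : MvPolynomial (Fin d) ℂ}
    (h : ∀ z, MvPolynomial.eval z p = 0 → MvPolynomial.eval z q ≠ 0) : IsCoprime p q := by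
  have h1 : MvPolynomial.zeroLocus ℂ (Ideal.span {p, q}) = ∅ := by
    ext z
    simp only [MvPolynomial.mem_zeroLocus_iff, Set.mem_empty_iff_false, iff_false, not_forall]
    by_cases h2 : MvPolynomial.eval z p = 0
    · exact ⟨q, Ideal.subset_span (by simp), by simpa [MvPolynomial.aeval_eq_eval] using h z h2⟩
    · exact ⟨p, Ideal.subset_span (by simp), by simpa [MvPolynomial.aeval_eq_eval] using h2⟩
  have h2 := MvPolynomial.vanishingIdeal_zeroLocus_eq_radical (K := ℂ) (Ideal.span {p, q})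
  rw [h1, MvPolynomial.vanishingIdeal_empty] at h2
  have h3 : Ideal.span {p, q} = ⊤ := Ideal.radical_eq_top.1 h2.symm
  have h4 : (1 : MvPolynomial (Fin d) ℂ) ∈ Ideal.span {p, q} := by rw [h3]; trivial
  obtain ⟨u, v, huv⟩ := Ideal.mem_span_pair.1 h4
  exact ⟨u, v, huv⟩

theorem differentiable_prod_fst (m : ℂ → ℕ) (T : Finset ℂ) : Differentiable ℂ
    (fun w : ℂ × (Fin d → ℂ) => ∏ ρ ∈ T, (w.1 - ρ) ^ m ρ) := by
  have h1 : (fun w : ℂ × (Fin d → ℂ) => ∏ ρ ∈ T, (w.1 - ρ) ^ m ρ) =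
      fun w => (∏ ρ ∈ T, (X - C ρ) ^ m ρ : ℂ[X]).eval w.1 := by
    funext w
    rw [eval_prod]
    simp
  rw [h1]
  have h2 : Differentiable ℂ (fun w : ℂ × (Fin d → ℂ) => w.1) := differentiable_fst
  exact (Polynomial.differentiable (∏ ρ ∈ T, (X - C ρ) ^ m ρ : ℂ[X])).comp h2

/-- Products of functions congruent to `(s - ρ) R`. -/
theorem exists_prodmod {q : ℂ × (Fin d → ℂ) → ℂ} (hq : Differentiable ℂ q) (m : ℂ → ℕ)
    (R : ℂ → ℂ × (Fin d → ℂ) → ℂ) (T : Finset ℂ) : (∀ ρ ∈ T, Differentiable ℂ (R ρ)) →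
    ∃ K L : ℂ × (Fin d → ℂ) → ℂ, Differentiable ℂ K ∧ Differentiable ℂ L ∧
      ∀ w, ∏ ρ ∈ T, (q w + (w.1 - ρ) * R ρ w) ^ m ρ =
        K w * q w + (∏ ρ ∈ T, (w.1 - ρ) ^ m ρ) * L w := by
  classical
  induction T using Finset.induction_on with
  | empty =>
    intro _
    exact ⟨fun _ => 0, fun _ => 1, differentiable_const _, differentiable_const _, by simp⟩
  | insert ρ T hρ ih =>
    intro hR
    obtain ⟨K, L, hK, hL, hKL⟩ := ih (fun ρ' h => hR ρ' (Finset.mem_insert_of_mem h))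
    have hRρ := hR ρ (Finset.mem_insert_self _ _)
    have hs : Differentiable ℂ (fun w : ℂ × (Fin d → ℂ) => w.1 - ρ) :=
      differentiable_fst.sub_const ρ
    set K' : ℂ × (Fin d → ℂ) → ℂ := fun w => ∑ i ∈ Finset.range (m ρ),
      (q w + (w.1 - ρ) * R ρ w) ^ i * ((w.1 - ρ) * R ρ w) ^ (m ρ - 1 - i) with hK'
    have hK'd : Differentiable ℂ K' := by
      refine Differentiable.fun_sum fun i _ => ?_
      exact ((hq.add (hs.mul hRρ)).pow i).mul ((hs.mul hRρ).pow _)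
    have h1 : ∀ w, (q w + (w.1 - ρ) * R ρ w) ^ m ρ = K' w * q w + (w.1 - ρ) ^ m ρ * R ρ w ^ m ρ := by
      intro w
      have h2 := (Commute.all (q w + (w.1 - ρ) * R ρ w) ((w.1 - ρ) * R ρ w)).geom_sum₂_mul (m ρ)
      rw [add_sub_cancel_right] at h2
      rw [← mul_pow]
      simp only [hK']
      linear_combination -h2
    refine ⟨fun w => K' w * (K w * q w + (∏ ρ ∈ T, (w.1 - ρ) ^ m ρ) * L w) +
      (w.1 - ρ) ^ m ρ * R ρ w ^ m ρ * K w, fun w => R ρ w ^ m ρ * L w, ?_,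
      (hRρ.pow _).mul hL, fun w => ?_⟩
    · have h2 : Differentiable ℂ (fun w : ℂ × (Fin d → ℂ) => ∏ ρ ∈ T, (w.1 - ρ) ^ m ρ) :=
        differentiable_prod_fst m T
      exact (hK'd.mul ((hK.mul hq).add (h2.mul hL))).add (((hs.pow _).mul (hRρ.pow _)).mul hK)
    · rw [Finset.prod_insert hρ, Finset.prod_insert hρ, h1, hKL]
      ring

/-- The function `χ`. -/
theorem exists_chi (S : Finset ℂ) (hS : S.Nonempty) (m : ℂ → ℕ) {q : ℂ × (Fin d → ℂ) → ℂ}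
    (hq : Differentiable ℂ q) {c : ℂ → (Fin d → ℂ) → (Fin d → ℂ)} {α β : ℂ → (Fin d → ℂ) → ℂ}
    (hα : ∀ ρ ∈ S, Differentiable ℂ (α ρ)) (hβ : ∀ ρ ∈ S, Differentiable ℂ (β ρ))
    (hbez : ∀ ρ ∈ S, ∀ z, α ρ z * fderiv ℂ q (ρ, z) (1, c ρ z) + β ρ z * q (ρ, z) = 1)
    (p : ℂ → MvPolynomial (Fin d) ℂ) (hp : ∀ ρ ∈ S, ∀ z, q (ρ, z) = MvPolynomial.eval z (p ρ))
    (hdisj : ∀ ρ ∈ S, ∀ ρ' ∈ S, ρ ≠ ρ' → ∀ z, MvPolynomial.eval z (p ρ) = 0 →
      MvPolynomial.eval z (p ρ') ≠ 0)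
    {Ξ : ℂ × (Fin d → ℂ) → (Fin d → ℂ)} (hΞ : Differentiable ℂ Ξ)
    (h0 : ∀ ρ ∈ S, ∀ z, Ξ (ρ, z) = z) (h1 : ∀ ρ ∈ S, ∀ z, fderiv ℂ Ξ (ρ, z) (1, c ρ z) = 0) :
    ∃ (χ : (Fin d → ℂ) → ℂ) (u r : ℂ × (Fin d → ℂ) → ℂ), Differentiable ℂ χ ∧
      Differentiable ℂ u ∧ Differentiable ℂ r ∧
      ∀ w, w.1 - χ (Ξ w) = u w * q w + (∏ ρ ∈ S, (w.1 - ρ) ^ m ρ) * r w := by
  classical
  choose! g A B hg hA hB hgAB using fun ρ (hρ : ρ ∈ S) => exists_mod_at hq ρ (hα ρ hρ) (hβ ρ hρ)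
    (hbez ρ hρ) hΞ (h0 ρ hρ) (h1 ρ hρ) (m ρ)
  have hevd : ∀ P : MvPolynomial (Fin d) ℂ, Differentiable ℂ (fun z => MvPolynomial.eval z P) :=
    fun P => Pool.Agent.Helper40.IM.differentiable_eval P
  have hR : ∀ ρ ∈ S, ∃ R : ℂ × (Fin d → ℂ) → ℂ, Differentiable ℂ R ∧
      ∀ w, MvPolynomial.eval (Ξ w) (p ρ) = q w + (w.1 - ρ) * R w := by
    intro ρ hρ
    have e1 : Differentiable ℂ (fun w : ℂ × (Fin d → ℂ) => ((ρ + w.1, w.2) : ℂ × (Fin d → ℂ))) := by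
      fun_prop
    obtain ⟨B', hB', hB1, -⟩ := exists_div (f := fun w : ℂ × (Fin d → ℂ) =>
      MvPolynomial.eval (Ξ (ρ + w.1, w.2)) (p ρ) - q (ρ + w.1, w.2))
      (((hevd (p ρ)).comp (hΞ.comp e1)).sub (hq.comp e1)) (by
        intro z
        simp only [add_zero]
        rw [h0 ρ hρ, hp ρ hρ, sub_self])
    refine ⟨fun w => B' (w.1 - ρ, w.2), hB'.comp (by fun_prop), fun w => ?_⟩
    have e2 := hB1 (w.1 - ρ) w.2
    simp only [add_sub_cancel, Prod.mk.eta] at e2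
    linear_combination e2
  choose! R hR hR1 using hR
  have hcop : Pairwise (Function.onFun IsCoprime fun ρ : S => (p ρ) ^ m ρ) := by
    rintro ⟨ρ, hρ⟩ ⟨ρ', hρ'⟩ hne
    exact (isCoprime_of_disjoint (hdisj ρ hρ ρ' hρ' (fun h => hne (Subtype.ext h)))).pow
  obtain ⟨μ, hμ⟩ := (exists_sum_eq_one_iff_pairwise_coprime (s := fun ρ => (p ρ) ^ m ρ) hS).2 hcop
  have hKL : ∀ ρ ∈ S, ∃ K L : ℂ × (Fin d → ℂ) → ℂ, Differentiable ℂ K ∧ Differentiable ℂ L ∧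
      ∀ w, MvPolynomial.eval (Ξ w) (∏ j ∈ S \ {ρ}, (p j) ^ m j) =
        K w * q w + (∏ j ∈ S \ {ρ}, (w.1 - j) ^ m j) * L w := by
    intro ρ hρ
    obtain ⟨K, L, hK, hL, hKL⟩ := exists_prodmod hq m R (S \ {ρ})
      (fun ρ' h => hR ρ' (Finset.sdiff_subset h))
    refine ⟨K, L, hK, hL, fun w => ?_⟩
    rw [← hKL w, map_prod]
    refine Finset.prod_congr rfl fun j hj => ?_
    rw [map_pow, hR1 j (Finset.sdiff_subset hj)]
  choose! K L hK hL hKL using hKL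
  set e : ℂ → (Fin d → ℂ) → ℂ := fun ρ z =>
    MvPolynomial.eval z (μ ρ * ∏ j ∈ S \ {ρ}, (p j) ^ m j) with he
  have hed : ∀ ρ, Differentiable ℂ (e ρ) := fun ρ => hevd _
  have hesum : ∀ z, ∑ ρ ∈ S, e ρ z = 1 := by
    intro z
    have e1 := congrArg (fun P => MvPolynomial.eval z P) hμ
    simpa [he, map_sum] using e1
  have hμΞ : ∀ ρ, Differentiable ℂ (fun w => MvPolynomial.eval (Ξ w) (μ ρ)) := fun ρ =>
    (hevd (μ ρ)).comp hΞ
  have hprod : ∀ T : Finset ℂ, Differentiable ℂ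
      (fun w : ℂ × (Fin d → ℂ) => ∏ ρ ∈ T, (w.1 - ρ) ^ m ρ) := differentiable_prod_fst m
  refine ⟨fun z => ∑ ρ ∈ S, e ρ z * g ρ z,
    fun w => ∑ ρ ∈ S, MvPolynomial.eval (Ξ w) (μ ρ) * (K ρ w * (w.1 - g ρ (Ξ w)) +
      (∏ j ∈ S \ {ρ}, (w.1 - j) ^ m j) * L ρ w * A ρ w),
    fun w => ∑ ρ ∈ S, MvPolynomial.eval (Ξ w) (μ ρ) * (L ρ w * B ρ w), ?_, ?_, ?_, fun w => ?_⟩
  · exact Differentiable.fun_sum fun ρ hρ => (hed ρ).mul (hg ρ hρ)
  · refine Differentiable.fun_sum fun ρ hρ => (hμΞ ρ).mul ?_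
    exact ((hK ρ hρ).mul (differentiable_fst.sub ((hg ρ hρ).comp hΞ))).add
      (((hprod _).mul (hL ρ hρ)).mul (hA ρ hρ))
  · exact Differentiable.fun_sum fun ρ hρ => (hμΞ ρ).mul ((hL ρ hρ).mul (hB ρ hρ))
  · have e1 : w.1 - ∑ ρ ∈ S, e ρ (Ξ w) * g ρ (Ξ w) =
        ∑ ρ ∈ S, e ρ (Ξ w) * (w.1 - g ρ (Ξ w)) := by
      simp_rw [mul_sub]
      rw [Finset.sum_sub_distrib, ← Finset.sum_mul, hesum, one_mul]
    rw [e1, Finset.sum_mul, Finset.mul_sum, ← Finset.sum_add_distrib]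
    refine Finset.sum_congr rfl fun ρ hρ => ?_
    have e2 : e ρ (Ξ w) = MvPolynomial.eval (Ξ w) (μ ρ) *
        (K ρ w * q w + (∏ j ∈ S \ {ρ}, (w.1 - j) ^ m j) * L ρ w) := by
      rw [← hKL ρ hρ w, ← map_mul]
    have e3 : ∏ j ∈ S, (w.1 - j) ^ m j = (∏ j ∈ S \ {ρ}, (w.1 - j) ^ m j) * (w.1 - ρ) ^ m ρ := by
      rw [Finset.sdiff_singleton_eq_erase]
      exact (Finset.prod_erase_mul S _ hρ).symm
    rw [e2, e3]
    linear_combination (MvPolynomial.eval (Ξ w) (μ ρ) *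
      (∏ j ∈ S \ {ρ}, (w.1 - j) ^ m j) * L ρ w) * hgAB ρ hρ w

/-- The polynomial `∏ (σ - ρ) ^ m ρ` is divisible by `a`. -/
theorem dvd_prod_comp {a σ : ℂ[X]} (ha : a ≠ 0) (m : ℂ → ℕ)
    (hm : ∀ r, a.IsRoot r → m (σ.eval r) = a.rootMultiplicity r) :
    a ∣ ∏ ρ ∈ a.roots.toFinset.image (fun r => σ.eval r), (σ - C ρ) ^ m ρ := by
  classical
  have h1 : IsUnit (C a.leadingCoeff : ℂ[X]) :=
    (leadingCoeff_ne_zero.2 ha).isUnit.map C
  have h2 : ∏ r ∈ a.roots.toFinset, (X - C r) ^ a.rootMultiplicity r ∣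
      ∏ ρ ∈ a.roots.toFinset.image (fun r => σ.eval r), (σ - C ρ) ^ m ρ := by
    refine Finset.prod_dvd_of_coprime (pairwise_coprime _ _) fun r hr => ?_
    have hr' : a.IsRoot r := isRoot_of_mem_roots (Multiset.mem_toFinset.1 hr)
    refine dvd_trans ?_ (Finset.dvd_prod_of_mem _ (Finset.mem_image_of_mem _ hr))
    rw [hm r hr']
    refine pow_dvd_pow_of_dvd ?_ _
    rw [dvd_iff_isRoot]
    simp
  rw [eq_prod a]
  conv_rhs => rw [← eq_prod a]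
  exact (h1.mul_left_dvd).2 h2

/-- The core theorem. -/
theorem coreG {a σ : ℂ[X]} (ha : a ≠ 0) (h2 : ∀ r, a.IsRoot r → 2 ≤ a.rootMultiplicity r)
    (hσ : ∀ r, a.IsRoot r → σ.derivative.eval r ≠ 0)
    (hcls : ∀ r r', a.IsRoot r → a.IsRoot r' → σ.eval r = σ.eval r' →
      a.rootMultiplicity r = a.rootMultiplicity r')
    {q : ℂ × (Fin d → ℂ) → ℂ} (hq : Differentiable ℂ q)
    {c : ℂ → (Fin d → ℂ) → (Fin d → ℂ)} {α β : ℂ → (Fin d → ℂ) → ℂ}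
    (hc : ∀ r, a.IsRoot r → Differentiable ℂ (c (σ.eval r)))
    (hα : ∀ r, a.IsRoot r → Differentiable ℂ (α (σ.eval r)))
    (hβ : ∀ r, a.IsRoot r → Differentiable ℂ (β (σ.eval r)))
    (hbez : ∀ r, a.IsRoot r → ∀ z, α (σ.eval r) z * fderiv ℂ q (σ.eval r, z) (1, c (σ.eval r) z) +
      β (σ.eval r) z * q (σ.eval r, z) = 1)
    (p : ℂ → MvPolynomial (Fin d) ℂ)
    (hp : ∀ r, a.IsRoot r → ∀ z, q (σ.eval r, z) = MvPolynomial.eval z (p (σ.eval r)))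
    (hdisj : ∀ r r', a.IsRoot r → a.IsRoot r' → σ.eval r ≠ σ.eval r' →
      ∀ z, q (σ.eval r, z) = 0 → q (σ.eval r', z) ≠ 0) :
    ∃ Φ : ℂ × ℂ × (Fin d → ℂ) → ℂ × (Fin d → ℂ), Differentiable ℂ Φ ∧
      ∀ x y z, a.eval x * y = q (σ.eval x, z) → ∀ dx dy dz,
        (derivative a).eval x * y * dx + a.eval x * dy =
          fderiv ℂ q (σ.eval x, z) ((derivative σ).eval x * dx, dz) →
        fderiv ℂ Φ (x, y, z) (dx, dy, dz) = 0 → dx = 0 ∧ dy = 0 ∧ dz = 0 := by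
  classical
  set S := a.roots.toFinset.image (fun r => σ.eval r) with hSdef
  have hS : ∀ ρ ∈ S, ∃ r, a.IsRoot r ∧ σ.eval r = ρ := by
    intro ρ hρ
    obtain ⟨r, hr, hr'⟩ := Finset.mem_image.1 hρ
    exact ⟨r, isRoot_of_mem_roots (Multiset.mem_toFinset.1 hr), hr'⟩
  have hS' : ∀ r, a.IsRoot r → σ.eval r ∈ S := fun r hr =>
    Finset.mem_image_of_mem _ (Multiset.mem_toFinset.2 ((mem_roots ha).2 hr))
  -- the multiplicities
  obtain ⟨m, hm⟩ : ∃ m : ℂ → ℕ, ∀ r, a.IsRoot r → m (σ.eval r) = a.rootMultiplicity r := by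
    refine ⟨fun ρ => if h : ∃ r, a.IsRoot r ∧ σ.eval r = ρ then a.rootMultiplicity h.choose else 0,
      fun r hr => ?_⟩
    have h3 : ∃ r', a.IsRoot r' ∧ σ.eval r' = σ.eval r := ⟨r, hr, rfl⟩
    simp only
    rw [dif_pos h3]
    exact hcls _ _ h3.choose_spec.1 hr h3.choose_spec.2
  -- the families
  obtain ⟨Ξ, hΞ, h0, h1, hinj⟩ := exists_multiXi S (c := fun ρ z => -c ρ z) (by
    intro ρ hρ
    obtain ⟨r, hr, rfl⟩ := hS ρ hρ
    exact (hc r hr).neg)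
  have h1' : ∀ ρ ∈ S, ∀ z, fderiv ℂ Ξ (ρ, z) (1, c ρ z) = 0 := by
    intro ρ hρ z
    have h5 : ((1 : ℂ), c ρ z) = (1, 0) + (0, c ρ z) := by simp
    rw [h5, map_add, h1 ρ hρ, fderiv_snd_of_id hΞ (h0 ρ hρ)]
    simp
  obtain ⟨ψ, hψ, hψ1⟩ := exists_psi_gen ha h2 hσ hcls
  rcases S.eq_empty_or_nonempty with hSe | hSn
  · -- no roots: `X` is a graph
    have hne : ∀ x, a.eval x ≠ 0 := by
      intro x hx
      have := hS' x hx
      rw [hSe] at this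
      simp at this
    refine ⟨fun P => (P.1, P.2.2), by fun_prop, fun x y z _ dx dy dz hT hv => ?_⟩
    have e1 : fderiv ℂ (fun P : ℂ × ℂ × (Fin d → ℂ) => (P.1, P.2.2)) (x, y, z) =
        (ContinuousLinearMap.fst ℂ ℂ (ℂ × (Fin d → ℂ))).prod
        ((ContinuousLinearMap.snd ℂ ℂ (Fin d → ℂ)).comp
          (ContinuousLinearMap.snd ℂ ℂ (ℂ × (Fin d → ℂ)))) :=
      ((ContinuousLinearMap.fst ℂ ℂ (ℂ × (Fin d → ℂ))).prod
        ((ContinuousLinearMap.snd ℂ ℂ (Fin d → ℂ)).comp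
          (ContinuousLinearMap.snd ℂ ℂ (ℂ × (Fin d → ℂ))))).hasFDerivAt.fderiv
    rw [e1] at hv
    have hdx : dx = 0 := congrArg Prod.fst hv
    have hdz : dz = 0 := congrArg Prod.snd hv
    subst hdx hdz
    refine ⟨rfl, ?_, rfl⟩
    have e3 : (((derivative σ).eval x * 0, (0 : Fin d → ℂ))) = 0 := by simp
    rw [e3, map_zero, mul_zero, zero_add] at hT
    exact (mul_eq_zero.1 hT).resolve_left (hne x)
  obtain ⟨χ, u, r, hχ, hu, hr, hχur⟩ := exists_chi S hSn m hq (c := c) (α := α) (β := β)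
    (fun ρ hρ => by obtain ⟨r, hr, rfl⟩ := hS ρ hρ; exact hα r hr)
    (fun ρ hρ => by obtain ⟨r, hr, rfl⟩ := hS ρ hρ; exact hβ r hr)
    (fun ρ hρ => by obtain ⟨r, hr, rfl⟩ := hS ρ hρ; exact hbez r hr) p
    (fun ρ hρ => by obtain ⟨r, hr, rfl⟩ := hS ρ hρ; exact hp r hr)
    (fun ρ hρ ρ' hρ' hne z => by
      obtain ⟨r, hr, rfl⟩ := hS ρ hρ
      obtain ⟨r', hr', rfl⟩ := hS ρ' hρ'
      rw [← hp r hr, ← hp r' hr']
      exact hdisj r r' hr hr' hne z) hΞ h0 h1'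
  -- the polynomial `a₀`
  set a₀ : ℂ[X] := ∏ ρ ∈ S, (X - C ρ) ^ m ρ with ha₀
  have ha₀e : ∀ s : ℂ, ∏ ρ ∈ S, (s - ρ) ^ m ρ = a₀.eval s := by
    intro s
    rw [ha₀, eval_prod]
    simp
  obtain ⟨k, hk⟩ : a ∣ a₀.comp σ := by
    have e1 := dvd_prod_comp (σ := σ) ha m hm
    have e2 : a₀.comp σ = ∏ ρ ∈ S, (σ - C ρ) ^ m ρ := by
      rw [ha₀, prod_comp]
      simp
    rw [e2]
    exact e1
  have hk1 : ∀ x, a₀.eval (σ.eval x) = a.eval x * k.eval x := by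
    intro x
    rw [← eval_comp, hk, eval_mul]
  have hk2 : ∀ x, (derivative a₀).eval (σ.eval x) * (derivative σ).eval x =
      (derivative a).eval x * k.eval x + a.eval x * (derivative k).eval x := by
    intro x
    have e1 := congrArg (fun p => (derivative p).eval x) hk
    simp only [derivative_comp, derivative_mul, eval_mul, eval_add, eval_comp] at e1
    linear_combination e1
  -- the derivative of the identity
  have hder : ∀ (w v : ℂ × (Fin d → ℂ)), v.1 - fderiv ℂ χ (Ξ w) (fderiv ℂ Ξ w v) =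
      u w * fderiv ℂ q w v + q w * fderiv ℂ u w v +
      (a₀.eval w.1 * fderiv ℂ r w v + r w * ((derivative a₀).eval w.1 * v.1)) := by
    intro w v
    have e1 : HasFDerivAt (fun w => χ (Ξ w)) ((fderiv ℂ χ (Ξ w)).comp (fderiv ℂ Ξ w)) w :=
      (hχ _).hasFDerivAt.comp _ (hΞ _).hasFDerivAt
    have e2 : HasFDerivAt (fun w : ℂ × (Fin d → ℂ) => w.1 - χ (Ξ w))
        (ContinuousLinearMap.fst ℂ ℂ (Fin d → ℂ) - (fderiv ℂ χ (Ξ w)).comp (fderiv ℂ Ξ w)) w :=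
      hasFDerivAt_fst.sub e1
    have e3 : HasFDerivAt (fun w : ℂ × (Fin d → ℂ) => a₀.eval w.1)
        ((derivative a₀).eval w.1 • ContinuousLinearMap.fst ℂ ℂ (Fin d → ℂ)) w :=
      (a₀.hasDerivAt w.1).comp_hasFDerivAt w hasFDerivAt_fst
    have e4 := ((hu w).hasFDerivAt.fun_mul (hq w).hasFDerivAt).fun_add
      (e3.fun_mul (hr w).hasFDerivAt)
    have e5 : (fun w : ℂ × (Fin d → ℂ) => w.1 - χ (Ξ w)) =
        fun w => u w * q w + a₀.eval w.1 * r w :=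
      funext fun w => by rw [hχur w, ha₀e]
    rw [e5] at e2
    have e6 := congrArg (fun L => L v) (e2.unique e4)
    simpa using e6
  have hu0 : ∀ ρ ∈ S, ∀ z, q (ρ, z) = 0 → u (ρ, z) ≠ 0 := by
    intro ρ hρ z hz hz0
    have e1 := hder (ρ, z) (1, c ρ z)
    obtain ⟨t, ht, rfl⟩ := hS ρ hρ
    obtain ⟨a₁, e0⟩ : (X - C (σ.eval t)) ^ 2 ∣ a₀ := by
      refine dvd_trans ?_ (Finset.dvd_prod_of_mem _ (hS' t ht))
      rw [hm t ht]
      exact pow_dvd_pow _ (h2 t ht)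
    have e2 : a₀.eval (σ.eval t) = 0 := by simp [e0]
    have e3 : (derivative a₀).eval (σ.eval t) = 0 := by
      rw [e0]
      simp [derivative_mul, derivative_pow]
    simp only [h1' _ hρ, map_zero, hz, hz0, e2, e3] at e1
    norm_num at e1
  -- the map
  set πy : ℂ × ℂ × (Fin d → ℂ) →L[ℂ] ℂ :=
    (ContinuousLinearMap.fst ℂ ℂ (Fin d → ℂ)).comp
      (ContinuousLinearMap.snd ℂ ℂ (ℂ × (Fin d → ℂ))) with hπy
  set Sg : ℂ × ℂ × (Fin d → ℂ) → ℂ × (Fin d → ℂ) := fun P => (σ.eval P.1, P.2.2) with hSg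
  set DSg : ℂ × ℂ × (Fin d → ℂ) → (ℂ × ℂ × (Fin d → ℂ) →L[ℂ] ℂ × (Fin d → ℂ)) := fun P =>
    ((derivative σ).eval P.1 • ContinuousLinearMap.fst ℂ ℂ (ℂ × (Fin d → ℂ))).prod
      ((ContinuousLinearMap.snd ℂ ℂ (Fin d → ℂ)).comp
        (ContinuousLinearMap.snd ℂ ℂ (ℂ × (Fin d → ℂ)))) with hDSg
  have hSgd : ∀ P, HasFDerivAt Sg (DSg P) P := by
    intro P
    have e1 : HasFDerivAt (fun P : ℂ × ℂ × (Fin d → ℂ) => σ.eval P.1)
        ((derivative σ).eval P.1 • ContinuousLinearMap.fst ℂ ℂ (ℂ × (Fin d → ℂ))) P :=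
      (σ.hasDerivAt P.1).comp_hasFDerivAt P hasFDerivAt_fst
    exact e1.prodMk ((ContinuousLinearMap.snd ℂ ℂ (Fin d → ℂ)).comp
        (ContinuousLinearMap.snd ℂ ℂ (ℂ × (Fin d → ℂ)))).hasFDerivAt
  set Y : ℂ × ℂ × (Fin d → ℂ) → ℂ := fun P => u (Sg P) * πy P + k.eval P.1 * r (Sg P) with hY
  set DY : ℂ × ℂ × (Fin d → ℂ) → (ℂ × ℂ × (Fin d → ℂ) →L[ℂ] ℂ) := fun P =>
    (u (Sg P) • πy + πy P • (fderiv ℂ u (Sg P)).comp (DSg P)) +
      (k.eval P.1 • (fderiv ℂ r (Sg P)).comp (DSg P) +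
        r (Sg P) • ((derivative k).eval P.1 • ContinuousLinearMap.fst ℂ ℂ (ℂ × (Fin d → ℂ))))
    with hDY
  have hYd : ∀ P, HasFDerivAt Y (DY P) P := by
    intro P
    have e1 : HasFDerivAt (fun P => u (Sg P)) ((fderiv ℂ u (Sg P)).comp (DSg P)) P :=
      (hu _).hasFDerivAt.comp _ (hSgd P)
    have e2 : HasFDerivAt (fun P => r (Sg P)) ((fderiv ℂ r (Sg P)).comp (DSg P)) P :=
      (hr _).hasFDerivAt.comp _ (hSgd P)
    have e3 : HasFDerivAt (fun P : ℂ × ℂ × (Fin d → ℂ) => k.eval P.1)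
        ((derivative k).eval P.1 • ContinuousLinearMap.fst ℂ ℂ (ℂ × (Fin d → ℂ))) P :=
      (k.hasDerivAt P.1).comp_hasFDerivAt P hasFDerivAt_fst
    exact (e1.fun_mul πy.hasFDerivAt).fun_add (e3.fun_mul e2)
  have hΦd : ∀ P : ℂ × ℂ × (Fin d → ℂ), HasFDerivAt
      (fun P : ℂ × ℂ × (Fin d → ℂ) => ((ψ (P.1, Y P), Ξ (Sg P)) : ℂ × (Fin d → ℂ)))
      (((fderiv ℂ ψ (P.1, Y P)).comp
        ((ContinuousLinearMap.fst ℂ ℂ (ℂ × (Fin d → ℂ))).prod (DY P))).prod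
        ((fderiv ℂ Ξ (Sg P)).comp (DSg P))) P := by
    intro P
    have e1 : HasFDerivAt (fun P : ℂ × ℂ × (Fin d → ℂ) => (P.1, Y P))
        ((ContinuousLinearMap.fst ℂ ℂ (ℂ × (Fin d → ℂ))).prod (DY P)) P :=
      hasFDerivAt_fst.prodMk (hYd P)
    have e2 : HasFDerivAt (fun P => ψ (P.1, Y P))
        ((fderiv ℂ ψ (P.1, Y P)).comp
        ((ContinuousLinearMap.fst ℂ ℂ (ℂ × (Fin d → ℂ))).prod (DY P))) P :=
      (hψ _).hasFDerivAt.comp P e1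
    exact e2.prodMk ((hΞ _).hasFDerivAt.comp P (hSgd P))
  refine ⟨_, fun P => (hΦd P).differentiableAt, ?_⟩
  intro x y z hX dx dy dz hT hv
  rw [(hΦd (x, y, z)).fderiv] at hv
  have v1 : fderiv ℂ ψ (x, u (σ.eval x, z) * y + k.eval x * r (σ.eval x, z)) (dx,
      (u (σ.eval x, z) * dy + y * fderiv ℂ u (σ.eval x, z) ((derivative σ).eval x * dx, dz)) +
      (k.eval x * fderiv ℂ r (σ.eval x, z) ((derivative σ).eval x * dx, dz) +
        r (σ.eval x, z) * ((derivative k).eval x * dx))) = 0 := congrArg Prod.fst hv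
  have v2 : fderiv ℂ Ξ (σ.eval x, z) ((derivative σ).eval x * dx, dz) = 0 := congrArg Prod.snd hv
  have e1 := hder (σ.eval x, z) ((derivative σ).eval x * dx, dz)
  rw [v2, map_zero, sub_zero] at e1
  simp only at e1
  rw [← hT, ← hX] at e1
  have e2 := hψ1 x (u (σ.eval x, z) * y + k.eval x * r (σ.eval x, z)) dx _ v1 (by
    linear_combination e1 + (fderiv ℂ r (σ.eval x, z) ((derivative σ).eval x * dx, dz)) * hk1 x +
      (r (σ.eval x, z) * dx) * hk2 x)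
  obtain ⟨hdx, hdY⟩ := e2
  subst hdx
  rw [mul_zero] at v2
  have hdz := hinj _ z dz v2
  subst hdz
  refine ⟨rfl, ?_, rfl⟩
  have e3 : (((derivative σ).eval x * 0, (0 : Fin d → ℂ))) = 0 := by simp
  rw [e3, map_zero, map_zero, mul_zero, mul_zero, mul_zero, mul_zero, add_zero, add_zero,
    add_zero] at hdY
  rw [e3, map_zero, mul_zero, zero_add] at hT
  rcases mul_eq_zero.1 hT with h5 | h5
  · rcases mul_eq_zero.1 hdY with h | h
    · refine absurd h (hu0 _ (hS' x h5) z ?_)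
      rw [← hX, h5, zero_mul]
    · exact h
  · exact h5

end Pool.Agent.Helper72.TM
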