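import Pool.Agent.Helper72.TM.CoreG

/-!
# The Bézout data (project TM of helper72, MP_1994dd_an)
-/

open MvPolynomial Complex

namespace Pool.Agent.Helper72.TM

variable {d : ℕ}

/-- The transversal vector field. -/
theorem exists_data (p₀ p₁ μ : MvPolynomial (Fin d) ℂ) (hμ : ∀ z, eval z p₀ = 0 → eval z μ ≠ 0)
    (hfin : {w : ℂ | ∃ z, eval z p₀ = 0 ∧ (∀ i, eval z (pderiv i p₀) = 0) ∧
      w = eval z μ * eval z p₁}.Finite)
    (hsm : ∀ z, eval z p₀ = 0 → (∀ i, eval z (pderiv i p₀) = 0) → eval z p₁ ≠ 0) :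
    ∃ (c : (Fin d → ℂ) → (Fin d → ℂ)) (α β : (Fin d → ℂ) → ℂ), Differentiable ℂ c ∧
      Differentiable ℂ α ∧ Differentiable ℂ β ∧
      ∀ z, α z * (eval z p₁ + ∑ i, c z i * eval z (pderiv i p₀)) + β z * eval z p₀ = 1 := by
  classical
  set V : Finset ℂ := hfin.toFinset with hV
  have hV' : ∀ z, eval z p₀ = 0 → (∀ i, eval z (pderiv i p₀) = 0) →
      eval z μ * eval z p₁ ∈ V := fun z h1 h2 => (Set.Finite.mem_toFinset _).2 ⟨z, h1, h2, rfl⟩
  have hV0 : ∀ v ∈ V, v ≠ 0 := by
    intro v hv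
    obtain ⟨z, h1, h2, rfl⟩ := (Set.Finite.mem_toFinset _).1 hv
    exact mul_ne_zero (hμ z h1) (hsm z h1 h2)
  set Mv : MvPolynomial (Fin d) ℂ := ∏ v ∈ V, (μ * p₁ - C v) with hMv
  set J : Ideal (MvPolynomial (Fin d) ℂ) :=
    Ideal.span (insert p₀ (Set.range (fun i => pderiv i p₀))) with hJ
  have h1 : Mv ∈ J.radical := by
    rw [← vanishingIdeal_zeroLocus_eq_radical (K := ℂ), mem_vanishingIdeal_iff]
    intro z hz
    rw [mem_zeroLocus_iff] at hz
    have h2 : eval z p₀ = 0 := by
      have := hz p₀ (Ideal.subset_span (by simp))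
      simpa [aeval_eq_eval] using this
    have h3 : ∀ i, eval z (pderiv i p₀) = 0 := by
      intro i
      have := hz (pderiv i p₀) (Ideal.subset_span (by simp))
      simpa [aeval_eq_eval] using this
    rw [hMv, map_prod]
    refine Finset.prod_eq_zero (hV' z h2 h3) ?_
    simp [aeval_eq_eval]
  obtain ⟨N, hN⟩ := h1
  obtain ⟨b', w, hw, hN⟩ := Ideal.mem_span_insert.1 hN
  obtain ⟨c', hc'⟩ := Ideal.mem_span_range_iff_exists_fun.1 hw
  obtain ⟨L, E, hL, hE, hLE⟩ := exists_expInterp (N • V.val) (A := fun t => t) differentiable_id (by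
    intro v hv
    exact hV0 v (Multiset.mem_of_mem_nsmul hv))
  obtain ⟨μ', ν, hμν⟩ := isCoprime_of_disjoint (p := μ) (q := p₀) (fun z h2 h3 => hμ z h3 h2)
  have hd : ∀ P : MvPolynomial (Fin d) ℂ, Differentiable ℂ (fun z => eval z P) :=
    fun P => Pool.Agent.Helper40.IM.differentiable_eval P
  set t : (Fin d → ℂ) → ℂ := fun z => eval z μ * eval z p₁ with ht
  have htd : Differentiable ℂ t := (hd μ).mul (hd p₁)
  have hEt : Differentiable ℂ (fun z => E (t z)) := hE.comp htd
  have hLt : Differentiable ℂ (fun z => exp (-(L (t z)))) := (hL.comp htd).neg.cexp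
  refine ⟨fun z i => eval z μ' * E (t z) * eval z (c' i),
    fun z => eval z μ * exp (-(L (t z))),
    fun z => exp (-(L (t z))) * E (t z) *
      (eval z b' + eval z ν * (eval z Mv ^ N - eval z b' * eval z p₀)), ?_, ?_, ?_, fun z => ?_⟩
  · exact differentiable_pi.2 fun i => ((hd μ').mul hEt).mul (hd (c' i))
  · exact (hd μ).mul hLt
  · exact (hLt.mul hEt).mul ((hd b').add ((hd ν).mul (((hd Mv).pow N).sub ((hd b').mul (hd p₀)))))
  · have e1 := congrArg (fun P => eval z P) hN
    have e2 := congrArg (fun P => eval z P) hc'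
    have e3 := congrArg (fun P => eval z P) hμν
    simp only [map_add, map_mul, map_pow, map_sum, map_one] at e1 e2 e3
    have e4 := hLE (t z)
    have e5 : (Multiset.map (fun r => t z - r) (N • V.val)).prod = eval z Mv ^ N := by
      rw [Multiset.map_nsmul, Multiset.prod_nsmul, hMv, map_prod]
      congr 1
      simp only [map_sub, map_mul, eval_C]
      rfl
    rw [e5] at e4
    have e6 : exp (-(L (t z))) * exp (L (t z)) = 1 := by rw [← exp_add]; simp
    have e7 : ∑ i, eval z μ' * E (t z) * eval z (c' i) * eval z (pderiv i p₀) =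
        eval z μ' * E (t z) * (eval z Mv ^ N - eval z b' * eval z p₀) := by
      rw [e1, add_sub_cancel_left, ← e2, Finset.mul_sum]
      refine Finset.sum_congr rfl fun i _ => ?_
      ring
    rw [e7]
    rw [e4] at e6
    simp only [ht] at e6 ⊢
    linear_combination e6 + (exp (-(L (eval z μ * eval z p₁))) * E (eval z μ * eval z p₁) *
      (eval z Mv ^ N - eval z b' * eval z p₀)) * e3

end Pool.Agent.Helper72.TM
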