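import Pool.Agent.Helper72.TM.Calc

/-!
# Families of immersions with a prescribed first jet (project TM of helper72, MP_1994dd_an)
-/

open Complex MeasureTheory

namespace Pool.Agent.Helper72.TM

/-- One coordinate of an elementary immersion. -/
theorem exists_eta {d : ℕ} (k : Fin d) {p : (Fin d → ℂ) → ℂ} (hp : Differentiable ℂ p) :
    ∃ η : ℂ × (Fin d → ℂ) → ℂ, Differentiable ℂ η ∧ (∀ ζ, η (0, ζ) = ζ k) ∧
      (∀ ζ, fderiv ℂ η (0, ζ) (1, 0) = p ζ) ∧
      ∀ x ζ, fderiv ℂ η (x, ζ) (0, Pi.single k 1) ≠ 0 := by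
  set e : Fin d → ℂ := Pi.single k 1 with he
  have hek : e k = 1 := by simp [he]
  set a : (Fin d → ℂ) → ℂ := fun ζ => fderiv ℂ p ζ e with ha
  have had : Differentiable ℂ a := differentiable_fderiv_apply hp e
  set G : ℂ × (ℂ × (Fin d → ℂ)) → ℂ := fun q =>
    q.2.2 k * exp (q.2.1 * a (q.2.2 + ((q.1 - 1) * q.2.2 k) • e)) with hG
  have hGd : Differentiable ℂ G := by
    have h1 : Differentiable ℂ (fun q : ℂ × (ℂ × (Fin d → ℂ)) =>
        a (q.2.2 + ((q.1 - 1) * q.2.2 k) • e)) := had.comp (by fun_prop)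
    have h2 : Differentiable ℂ (fun q : ℂ × (ℂ × (Fin d → ℂ)) => q.2.1) := by fun_prop
    have h3 : Differentiable ℂ (fun q : ℂ × (ℂ × (Fin d → ℂ)) => q.2.2 k) := by fun_prop
    exact h3.mul (h2.mul h1).cexp
  have hI : Differentiable ℂ (fun w : ℂ × (Fin d → ℂ) => ∫ t in (0 : ℝ)..1, G ((t : ℂ), w)) :=
    differentiable_par hGd
  have hP : Differentiable ℂ (fun w : ℂ × (Fin d → ℂ) => w.1 * p (w.2 - w.2 k • e)) := by
    have h1 : Differentiable ℂ (fun w : ℂ × (Fin d → ℂ) => p (w.2 - w.2 k • e)) :=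
      hp.comp (by fun_prop)
    exact (by fun_prop : Differentiable ℂ (fun w : ℂ × (Fin d → ℂ) => w.1)).mul h1
  refine ⟨fun w => w.1 * p (w.2 - w.2 k • e) + ∫ t in (0 : ℝ)..1, G ((t : ℂ), w), hP.add hI,
    ?_, ?_, ?_⟩
  · intro ζ
    simp [hG]
  · intro ζ
    -- derivative in `x`
    have h1 : HasDerivAt (fun s : ℂ => ((s, ζ) : ℂ × (Fin d → ℂ))) (1, 0) 0 :=
      (hasDerivAt_id (0 : ℂ)).prodMk (hasDerivAt_const _ _)
    have h2 : HasDerivAt (fun s : ℂ => s * p (ζ - ζ k • e)) (p (ζ - ζ k • e)) 0 := by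
      simpa using (hasDerivAt_id (0 : ℂ)).mul_const (p (ζ - ζ k • e))
    have h3 := (hasFDerivAt_par' hGd ((0 : ℂ), ζ)).comp_hasDerivAt (0 : ℂ) h1
    have h4 : ∀ t : ℝ, ((fderiv ℂ G ((t : ℂ), ((0 : ℂ), ζ))).comp
        (ContinuousLinearMap.inr ℂ ℂ (ℂ × (Fin d → ℂ)))) (1, 0) =
        ζ k * a (ζ + (((t : ℂ) - 1) * ζ k) • e) := by
      intro t
      have h5 : HasDerivAt (fun s : ℂ => (((t : ℂ), (s, ζ)) : ℂ × (ℂ × (Fin d → ℂ))))
          (0, (1, 0)) 0 := (hasDerivAt_const _ _).prodMk h1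
      have h6 := (hGd ((t : ℂ), ((0 : ℂ), ζ))).hasFDerivAt.comp_hasDerivAt (0 : ℂ) h5
      have h7 : HasDerivAt (fun s : ℂ => G ((t : ℂ), (s, ζ)))
          (ζ k * a (ζ + (((t : ℂ) - 1) * ζ k) • e)) 0 := by
        have h8 : HasDerivAt (fun s : ℂ => s * a (ζ + (((t : ℂ) - 1) * ζ k) • e))
            (a (ζ + (((t : ℂ) - 1) * ζ k) • e)) 0 := by
          simpa using (hasDerivAt_id (0 : ℂ)).mul_const (a (ζ + (((t : ℂ) - 1) * ζ k) • e))
        have h9 := h8.cexp.const_mul (ζ k)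
        simpa using h9
      exact h6.unique h7
    have h10 : (∫ t in (0 : ℝ)..1, (fderiv ℂ G ((t : ℂ), ((0 : ℂ), ζ))).comp
        (ContinuousLinearMap.inr ℂ ℂ (ℂ × (Fin d → ℂ)))) (1, 0) =
        p ζ - p (ζ - ζ k • e) := by
      have hc : Continuous (fun t : ℝ => (fderiv ℂ G ((t : ℂ), ((0 : ℂ), ζ))).comp
          (ContinuousLinearMap.inr ℂ ℂ (ℂ × (Fin d → ℂ)))) :=
        ((continuous_fderiv hGd).comp (by fun_prop)).clm_comp continuous_const
      rw [ContinuousLinearMap.intervalIntegral_apply (hc.intervalIntegrable _ _)]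
      simp_rw [h4]
      have h11 : ∀ t : ℝ, HasDerivAt (fun t : ℝ => p (ζ + (((t : ℂ) - 1) * ζ k) • e))
          (ζ k * a (ζ + (((t : ℂ) - 1) * ζ k) • e)) t := by
        intro t
        have h12 : HasDerivAt (fun t : ℝ => ζ + (((t : ℂ) - 1) * ζ k) • e) (ζ k • e) t := by
          have h13 : HasDerivAt (fun t : ℝ => (t : ℂ)) 1 t := Complex.ofRealCLM.hasDerivAt
          simpa using (((h13.sub_const 1).mul_const (ζ k)).smul_const e).const_add ζ
        have h14 := ((hp (ζ + (((t : ℂ) - 1) * ζ k) • e)).hasFDerivAt.restrictScalars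
          ℝ).comp_hasDerivAt t h12
        have h15 : (ContinuousLinearMap.restrictScalars ℝ
            (fderiv ℂ p (ζ + (((t : ℂ) - 1) * ζ k) • e))) (ζ k • e) =
            ζ k * a (ζ + (((t : ℂ) - 1) * ζ k) • e) := by
          rw [ContinuousLinearMap.coe_restrictScalars', map_smul, smul_eq_mul]
        rw [h15] at h14
        exact h14
      have h16 : Continuous (fun t : ℝ => ζ k * a (ζ + (((t : ℂ) - 1) * ζ k) • e)) :=
        continuous_const.mul (had.continuous.comp (by fun_prop))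
      rw [intervalIntegral.integral_eq_sub_of_hasDerivAt (fun t _ => h11 t)
        (h16.intervalIntegrable _ _)]
      congr 1
      · simp
      · congr 1
        simp [sub_eq_add_neg]
    have h17 := h2.add h3
    have h18 := ((hP.add hI) ((0 : ℂ), ζ)).hasFDerivAt.comp_hasDerivAt (0 : ℂ) h1
    have h19 := h18.unique h17
    rw [h10] at h19
    have h20 : p (ζ - ζ k • e) + (p ζ - p (ζ - ζ k • e)) = p ζ := by ring
    rw [h20] at h19
    exact h19
  · intro x ζ
    -- derivative in `ζ k`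
    set b : Fin d → ℂ := ζ - ζ k • e with hb
    have hg : Differentiable ℂ (fun σ : ℂ => exp (x * a (b + σ • e))) :=
      ((differentiable_const x).mul (had.comp (by fun_prop))).cexp
    obtain ⟨Γ, hΓ⟩ := hg.isExactOn_univ
    have hΓ' : ∀ σ, HasDerivAt Γ (exp (x * a (b + σ • e))) σ := fun σ => hΓ σ (Set.mem_univ _)
    have h1 : ∀ s : ℂ, (x * p (((ζ + s • e)) - (ζ + s • e) k • e) +
        ∫ t in (0 : ℝ)..1, G ((t : ℂ), (x, ζ + s • e))) =
        x * p b + (Γ (ζ k + s) - Γ 0) := by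
      intro s
      have h2 : (ζ + s • e) - (ζ + s • e) k • e = b := by
        simp only [hb, Pi.add_apply, Pi.smul_apply, hek, smul_eq_mul, mul_one, add_smul]
        abel
      rw [h2]
      congr 1
      have h3 : ∀ t : ℝ, HasDerivAt (fun t : ℝ => Γ ((t : ℂ) * (ζ k + s)))
          (G ((t : ℂ), (x, ζ + s • e))) t := by
        intro t
        have h4 : HasDerivAt (fun t : ℝ => (t : ℂ) * (ζ k + s)) (ζ k + s) t := by
          simpa using (Complex.ofRealCLM.hasDerivAt (x := t)).mul_const (ζ k + s)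
        have h5 := (hΓ' ((t : ℂ) * (ζ k + s))).comp t h4
        have h6 : exp (x * a (b + ((t : ℂ) * (ζ k + s)) • e)) * (ζ k + s) =
            G ((t : ℂ), (x, ζ + s • e)) := by
          have h7 : (ζ + s • e) + (((t : ℂ) - 1) * (ζ + s • e) k) • e =
              b + ((t : ℂ) * (ζ k + s)) • e := by
            simp only [hb, Pi.add_apply, Pi.smul_apply, hek, smul_eq_mul, mul_one]
            module
          simp only [hG]
          rw [h7]
          simp only [Pi.add_apply, Pi.smul_apply, hek, smul_eq_mul, mul_one]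
          ring
        rw [h6] at h5
        exact h5
      have h8 : Continuous (fun t : ℝ => G ((t : ℂ), (x, ζ + s • e))) :=
        hGd.continuous.comp (by fun_prop)
      rw [intervalIntegral.integral_eq_sub_of_hasDerivAt (fun t _ => h3 t)
        (h8.intervalIntegrable _ _)]
      simp
    have h9 : HasDerivAt (fun s : ℂ => ((x, ζ + s • e) : ℂ × (Fin d → ℂ))) (0, e) 0 := by
      refine (hasDerivAt_const _ _).prodMk ?_
      simpa using ((hasDerivAt_id (0 : ℂ)).smul_const e).const_add ζ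
    have h10 : HasDerivAt (fun s : ℂ => x * p b + (Γ (ζ k + s) - Γ 0))
        (exp (x * a (b + ζ k • e))) 0 := by
      have h11 : HasDerivAt (fun s : ℂ => ζ k + s) 1 0 := (hasDerivAt_id (0 : ℂ)).const_add _
      have h12 := (hΓ' (ζ k + 0)).comp (0 : ℂ) h11
      rw [mul_one, add_zero] at h12
      exact (h12.sub_const _).const_add _
    have h13 : HasFDerivAt (fun w : ℂ × (Fin d → ℂ) => w.1 * p (w.2 - w.2 k • e) +
        ∫ t in (0 : ℝ)..1, G ((t : ℂ), w)) (fderiv ℂ (fun w : ℂ × (Fin d → ℂ) =>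
        w.1 * p (w.2 - w.2 k • e) + ∫ t in (0 : ℝ)..1, G ((t : ℂ), w)) (x, ζ))
        (x, ζ + (0 : ℂ) • e) := by
      rw [zero_smul, add_zero]
      exact ((hP.add hI) (x, ζ)).hasFDerivAt
    have h14 := h13.comp_hasDerivAt (0 : ℂ) h9
    have h15 : HasDerivAt (fun s : ℂ => x * p b + (Γ (ζ k + s) - Γ 0))
        (fderiv ℂ (fun w : ℂ × (Fin d → ℂ) =>
        w.1 * p (w.2 - w.2 k • e) + ∫ t in (0 : ℝ)..1, G ((t : ℂ), w)) (x, ζ) (0, e)) 0 := by
      rw [← funext h1]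
      exact h14
    rw [h15.unique h10]
    exact exp_ne_zero _

/-- The elementary immersion. -/
theorem exists_elem {d : ℕ} (k : Fin d) {p : (Fin d → ℂ) → ℂ} (hp : Differentiable ℂ p) :
    ∃ E : ℂ × (Fin d → ℂ) → (Fin d → ℂ), Differentiable ℂ E ∧ (∀ ζ, E (0, ζ) = ζ) ∧
      (∀ ζ, fderiv ℂ E (0, ζ) (1, 0) = p ζ • Pi.single k 1) ∧
      ∀ x ζ v, fderiv ℂ E (x, ζ) (0, v) = 0 → v = 0 := by
  obtain ⟨η, hη, h0, h1, h2⟩ := exists_eta k hp
  set e : Fin d → ℂ := Pi.single k 1 with he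
  have hek : e k = 1 := by simp [he]
  have hd : ∀ w : ℂ × (Fin d → ℂ), HasFDerivAt (fun w : ℂ × (Fin d → ℂ) => w.2 + (η w - w.2 k) • e)
      (ContinuousLinearMap.snd ℂ ℂ (Fin d → ℂ) + (fderiv ℂ η w -
        (ContinuousLinearMap.proj k).comp (ContinuousLinearMap.snd ℂ ℂ (Fin d → ℂ))).smulRight e)
      w := by
    intro w
    have h3 : HasFDerivAt (fun w : ℂ × (Fin d → ℂ) => w.2 k)
        ((ContinuousLinearMap.proj k).comp (ContinuousLinearMap.snd ℂ ℂ (Fin d → ℂ))) w :=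
      ((ContinuousLinearMap.proj (R := ℂ) (φ := fun _ : Fin d => ℂ) k).comp
        (ContinuousLinearMap.snd ℂ ℂ (Fin d → ℂ))).hasFDerivAt
    exact hasFDerivAt_snd.add (((hη w).hasFDerivAt.sub h3).smul_const e)
  refine ⟨fun w => w.2 + (η w - w.2 k) • e, fun w => (hd w).differentiableAt, ?_, ?_, ?_⟩
  · intro ζ
    simp [h0]
  · intro ζ
    rw [(hd (0, ζ)).fderiv]
    simp [h1]
  · intro x ζ v hv
    rw [(hd (x, ζ)).fderiv] at hv
    have h3 : v + (fderiv ℂ η (x, ζ) (0, v) - v k) • e = 0 := by simpa using hv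
    have h4 : v = v k • e := by
      ext j
      by_cases hj : j = k
      · subst hj
        simp [hek]
      · have h5 := congrFun h3 j
        simp [he, hj] at h5
        simp [he, hj, h5]
    have h6 : fderiv ℂ η (x, ζ) (0, v) = 0 := by
      have h5 := congrFun h3 k
      simp [hek] at h5
      exact h5
    have h7 : ((0, v) : ℂ × (Fin d → ℂ)) = v k • ((0, e) : ℂ × (Fin d → ℂ)) := by
      rw [Prod.smul_mk, ← h4, smul_zero]
    rw [h7, map_smul, smul_eq_mul, mul_eq_zero] at h6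
    rcases h6 with h6 | h6
    · rw [h4, h6, zero_smul]
    · exact absurd h6 (h2 x ζ)

theorem exists_Xi_aux {d : ℕ} (p : Fin d → (Fin d → ℂ) → ℂ) (hp : ∀ k, Differentiable ℂ (p k))
    (S : Finset (Fin d)) :
    ∃ Ξ : ℂ × (Fin d → ℂ) → (Fin d → ℂ), Differentiable ℂ Ξ ∧ (∀ z, Ξ (0, z) = z) ∧
      (∀ z, fderiv ℂ Ξ (0, z) (1, 0) = ∑ k ∈ S, p k z • Pi.single k (1 : ℂ)) ∧
      ∀ x z v, fderiv ℂ Ξ (x, z) (0, v) = 0 → v = 0 := by
  classical
  induction S using Finset.induction_on with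
  | empty =>
    refine ⟨fun w => w.2, differentiable_snd, fun z => rfl, fun z => ?_, fun x z v hv => ?_⟩
    · rw [fderiv_snd]; simp
    · rw [fderiv_snd] at hv; simpa using hv
  | insert k S hk ih =>
    obtain ⟨Ξ, hΞ, h0, h1, h2⟩ := ih
    obtain ⟨E, hE, e0, e1, e2⟩ := exists_elem k (hp k)
    have hd : ∀ w : ℂ × (Fin d → ℂ), HasFDerivAt (fun w : ℂ × (Fin d → ℂ) => E (w.1, Ξ w))
        ((fderiv ℂ E (w.1, Ξ w)).comp ((ContinuousLinearMap.fst ℂ ℂ (Fin d → ℂ)).prod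
          (fderiv ℂ Ξ w))) w := fun w =>
      (hE (w.1, Ξ w)).hasFDerivAt.comp w (hasFDerivAt_fst.prodMk (hΞ w).hasFDerivAt)
    refine ⟨fun w => E (w.1, Ξ w), fun w => (hd w).differentiableAt, ?_, ?_, ?_⟩
    · intro z
      simp [e0, h0]
    · intro z
      rw [(hd (0, z)).fderiv, Finset.sum_insert hk]
      have h3 : ∀ (ζ u : Fin d → ℂ), fderiv ℂ E (0, ζ) (0, u) = u := by
        intro ζ u
        have h4 : HasFDerivAt (fun ζ => E (0, ζ))
            ((fderiv ℂ E (0, ζ)).comp (ContinuousLinearMap.inr ℂ ℂ (Fin d → ℂ))) ζ :=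
          (hE (0, ζ)).hasFDerivAt.comp ζ (hasFDerivAt_prodMk_right (0 : ℂ) ζ)
        have h5 : HasFDerivAt (fun ζ => E (0, ζ)) (ContinuousLinearMap.id ℂ (Fin d → ℂ)) ζ := by
          simp_rw [e0]
          exact hasFDerivAt_id ζ
        have h6 := congrArg (fun L => L u) (h4.unique h5)
        simpa using h6
      simp only [ContinuousLinearMap.comp_apply, ContinuousLinearMap.prod_apply,
        ContinuousLinearMap.coe_fst', h0, h1]
      have h7 : ((1 : ℂ), ∑ k ∈ S, p k z • (Pi.single k (1 : ℂ) : Fin d → ℂ)) =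
          (1, 0) + (0, ∑ k ∈ S, p k z • (Pi.single k (1 : ℂ) : Fin d → ℂ)) := by simp
      rw [h7, map_add, e1, h3]
    · intro x z v hv
      rw [(hd (x, z)).fderiv] at hv
      simp only [ContinuousLinearMap.comp_apply, ContinuousLinearMap.prod_apply,
        ContinuousLinearMap.coe_fst'] at hv
      exact h2 x z v (e2 _ _ _ hv)

/-- A family `Ξ(x, ·)` of immersions of `ℂ^d` with `Ξ(0, ·) = id` and prescribed derivative in `x`
at `x = 0`. -/
theorem exists_Xi {d : ℕ} {c : (Fin d → ℂ) → (Fin d → ℂ)} (hc : Differentiable ℂ c) :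
    ∃ Ξ : ℂ × (Fin d → ℂ) → (Fin d → ℂ), Differentiable ℂ Ξ ∧ (∀ z, Ξ (0, z) = z) ∧
      (∀ z, fderiv ℂ Ξ (0, z) (1, 0) = c z) ∧
      ∀ x z v, fderiv ℂ Ξ (x, z) (0, v) = 0 → v = 0 := by
  obtain ⟨Ξ, h1, h2, h3, h4⟩ := exists_Xi_aux (fun k z => c z k)
    (fun k => (differentiable_pi.1 hc) k) Finset.univ
  refine ⟨Ξ, h1, h2, fun z => ?_, h4⟩
  rw [h3]
  ext j
  simp [Finset.sum_apply, Pi.single_apply]

end Pool.Agent.Helper72.TM
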