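import Pool.Agent.Helper72.TM.Data

/-!
# The hypersurfaces `a(x) y + B(σ(x), z) = 1` (project TM of helper72, MP_1994dd_an)
-/

open MvPolynomial Pool.Agent.Helper40.IM

namespace Pool.Agent.Helper72.TM

variable {d : ℕ}

/-- `(s, z) ↦ Fin.cons s z` as a linear map. -/
noncomputable def consL (d : ℕ) : ℂ × (Fin d → ℂ) →L[ℂ] (Fin (d + 1) → ℂ) :=
  ContinuousLinearMap.pi fun j => Fin.cases (ContinuousLinearMap.fst ℂ ℂ (Fin d → ℂ))
    (fun i => (ContinuousLinearMap.proj (R := ℂ) (φ := fun _ : Fin d => ℂ) i).comp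
      (ContinuousLinearMap.snd ℂ ℂ (Fin d → ℂ))) j

theorem consL_apply (w : ℂ × (Fin d → ℂ)) : consL d w = Fin.cons w.1 w.2 := by
  ext j
  refine Fin.cases ?_ (fun i => ?_) j
  · simp [consL]
  · simp [consL]

theorem consL_injective (w : ℂ × (Fin d → ℂ)) (h : consL d w = 0) : w = 0 := by
  rw [consL_apply] at h
  refine Prod.ext ?_ (funext fun i => ?_)
  · simpa using congrFun h 0
  · simpa using congrFun h i.succ

/-- The coordinates `x, y, z` of `ℂ^(d+2)`. -/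
noncomputable def lin (d : ℕ) : (Fin (d + 2) → ℂ) →L[ℂ] ℂ × ℂ × (Fin d → ℂ) :=
  (ContinuousLinearMap.proj 0).prod ((ContinuousLinearMap.proj 1).prod
    (ContinuousLinearMap.pi fun i => ContinuousLinearMap.proj i.succ.succ))

theorem lin_apply (w : Fin (d + 2) → ℂ) : lin d w = (w 0, w 1, fun i => w i.succ.succ) := rfl

/-- The function `q = 1 - B`. -/
noncomputable def qf (B : MvPolynomial (Fin (d + 1)) ℂ) (w : ℂ × (Fin d → ℂ)) : ℂ :=
  1 - eval (consL d w) B

theorem hasFDerivAt_qf (B : MvPolynomial (Fin (d + 1)) ℂ) (w : ℂ × (Fin d → ℂ)) :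
    HasFDerivAt (qf B) (-((∑ j, (eval (consL d w) (pderiv j B)) •
      (ContinuousLinearMap.proj j : (Fin (d + 1) → ℂ) →L[ℂ] ℂ)).comp (consL d))) w := by
  have h1 := (hasFDerivAt_eval B (consL d w)).comp w (consL d).hasFDerivAt
  exact h1.const_sub 1

theorem differentiable_qf (B : MvPolynomial (Fin (d + 1)) ℂ) : Differentiable ℂ (qf B) :=
  fun w => (hasFDerivAt_qf B w).differentiableAt

theorem fderiv_qf (B : MvPolynomial (Fin (d + 1)) ℂ) (s ds : ℂ) (z dz : Fin d → ℂ) :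
    fderiv ℂ (qf B) (s, z) (ds, dz) = -(ds * eval (Fin.cons s z) (pderiv 0 B) +
      ∑ i : Fin d, dz i * eval (Fin.cons s z) (pderiv i.succ B)) := by
  have h1 : fderiv ℂ (qf B) (s, z) (ds, dz) = -(∑ j, (Fin.cons ds dz : Fin (d + 1) → ℂ) j *
      eval (Fin.cons s z) (pderiv j B)) := by
    rw [(hasFDerivAt_qf B (s, z)).fderiv]
    simp only [_root_.neg_apply, ContinuousLinearMap.comp_apply, _root_.sum_apply,
      _root_.smul_apply, ContinuousLinearMap.proj_apply, consL_apply, smul_eq_mul]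
    congr 1
    exact Finset.sum_congr rfl fun j _ => mul_comm _ _
  rw [h1, Fin.sum_univ_succ]
  simp only [Fin.cons_zero, Fin.cons_succ]

/-- The restriction of a polynomial to `s = ρ`. -/
noncomputable def slice (ρ : ℂ) (B : MvPolynomial (Fin (d + 1)) ℂ) : MvPolynomial (Fin d) ℂ :=
  aeval (Fin.cons (C ρ) X : Fin (d + 1) → MvPolynomial (Fin d) ℂ) B

theorem eval_slice (ρ : ℂ) (B : MvPolynomial (Fin (d + 1)) ℂ) (z : Fin d → ℂ) :
    eval z (slice ρ B) = eval (Fin.cons ρ z) B := by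
  have h1 : ((aeval z : MvPolynomial (Fin d) ℂ →ₐ[ℂ] ℂ).comp
      (aeval (Fin.cons (C ρ) X : Fin (d + 1) → MvPolynomial (Fin d) ℂ))) =
      (aeval (Fin.cons ρ z : Fin (d + 1) → ℂ) : MvPolynomial (Fin (d + 1)) ℂ →ₐ[ℂ] ℂ) := by
    apply MvPolynomial.algHom_ext
    intro j
    refine Fin.cases ?_ (fun i => ?_) j
    · simp
    · simp
  have h2 := congrArg (fun L => L B) h1
  simpa [aeval_eq_eval, slice] using h2

theorem eval_pderiv_slice (ρ : ℂ) (B : MvPolynomial (Fin (d + 1)) ℂ) (z : Fin d → ℂ) (i : Fin d) :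
    eval z (pderiv i (slice ρ B)) = eval (Fin.cons ρ z) (pderiv i.succ B) := by
  have h1 : HasFDerivAt (fun z => eval z (slice ρ B))
      (-(fderiv ℂ (qf B) (ρ, z)).comp (ContinuousLinearMap.inr ℂ ℂ (Fin d → ℂ))) z := by
    have h2 := ((differentiable_qf B (ρ, z)).hasFDerivAt.comp z
      (hasFDerivAt_prodMk_right ρ z)).const_sub 1
    have h3 : (fun z => eval z (slice ρ B)) = fun z => 1 - (qf B ∘ fun z => (ρ, z)) z := by
      funext z
      simp [qf, eval_slice, consL_apply]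
    rw [h3]
    exact h2
  have h2 := congrArg (fun L => L (Pi.single i 1)) (h1.unique (hasFDerivAt_eval (slice ρ B) z))
  have h3 : (ContinuousLinearMap.inr ℂ ℂ (Fin d → ℂ)) (Pi.single i 1) =
    ((0 : ℂ), (Pi.single i 1 : Fin d → ℂ)) := rfl
  simp only [_root_.neg_apply, ContinuousLinearMap.comp_apply, h3, fderiv_qf,
    _root_.sum_apply, _root_.smul_apply, ContinuousLinearMap.proj_apply,
    smul_eq_mul, zero_mul, zero_add, neg_neg] at h2
  simpa [Pi.single_apply] using h2.symm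

/-- The theorem in terms of functions. -/
theorem hyper (a σ : Polynomial ℂ) (B : MvPolynomial (Fin (d + 1)) ℂ) (ha : a ≠ 0)
    (h1 : ∀ r, a.IsRoot r → 2 ≤ a.rootMultiplicity r ∧ σ.derivative.eval r ≠ 0)
    (h2 : ∀ r r', a.IsRoot r → a.IsRoot r' → σ.eval r = σ.eval r' →
      a.rootMultiplicity r = a.rootMultiplicity r')
    (h3 : ∀ r r', a.IsRoot r → a.IsRoot r' → σ.eval r ≠ σ.eval r' → ∀ z : Fin d → ℂ,
      eval (Fin.cons (σ.eval r) z) B = 1 → eval (Fin.cons (σ.eval r') z) B ≠ 1)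
    (h4 : ∀ r, a.IsRoot r → ∃ μ : MvPolynomial (Fin d) ℂ,
      (∀ z : Fin d → ℂ, eval (Fin.cons (σ.eval r) z) B = 1 → eval z μ ≠ 0) ∧
      {w : ℂ | ∃ z : Fin d → ℂ, eval (Fin.cons (σ.eval r) z) B = 1 ∧
        (∀ i : Fin d, eval (Fin.cons (σ.eval r) z) (pderiv i.succ B) = 0) ∧
        w = eval z μ * eval (Fin.cons (σ.eval r) z) (pderiv 0 B)}.Finite)
    (E₀ : (Fin (d + 2) → ℂ) → ℂ)
    (hE₀ : ∀ w, E₀ w = a.eval (w 0) * w 1 +
      eval (Fin.cons (σ.eval (w 0)) (fun i : Fin d => w i.succ.succ)) B)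
    (hsm : ∀ w, E₀ w = 1 → ∃ v, fderiv ℂ E₀ w v ≠ 0) :
    Differentiable ℂ E₀ ∧ ∃ Φ : (Fin (d + 2) → ℂ) → (Fin (d + 1) → ℂ), Differentiable ℂ Φ ∧
      ∀ w, E₀ w = 1 → ∀ v, fderiv ℂ E₀ w v = 0 → fderiv ℂ Φ w v = 0 → v = 0 := by
  -- the derivative of `E₀`
  set Sg : (Fin (d + 2) → ℂ) → ℂ × (Fin d → ℂ) := fun w =>
    (σ.eval (w 0), fun i => w i.succ.succ) with hSg
  set DSg : (Fin (d + 2) → ℂ) → ((Fin (d + 2) → ℂ) →L[ℂ] ℂ × (Fin d → ℂ)) := fun w =>
    (σ.derivative.eval (w 0) • (ContinuousLinearMap.proj 0 : (Fin (d + 2) → ℂ) →L[ℂ] ℂ)).prod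
      (ContinuousLinearMap.pi fun i => ContinuousLinearMap.proj i.succ.succ) with hDSg
  have hp0 : ∀ w : Fin (d + 2) → ℂ, HasFDerivAt (fun w : Fin (d + 2) → ℂ => w 0)
      (ContinuousLinearMap.proj 0 : (Fin (d + 2) → ℂ) →L[ℂ] ℂ) w := fun w =>
    (ContinuousLinearMap.proj 0 : (Fin (d + 2) → ℂ) →L[ℂ] ℂ).hasFDerivAt
  have hp1 : ∀ w : Fin (d + 2) → ℂ, HasFDerivAt (fun w : Fin (d + 2) → ℂ => w 1)
      (ContinuousLinearMap.proj 1 : (Fin (d + 2) → ℂ) →L[ℂ] ℂ) w := fun w =>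
    (ContinuousLinearMap.proj 1 : (Fin (d + 2) → ℂ) →L[ℂ] ℂ).hasFDerivAt
  have hSgd : ∀ w, HasFDerivAt Sg (DSg w) w := by
    intro w
    have e1 : HasFDerivAt (fun w : Fin (d + 2) → ℂ => σ.eval (w 0))
        (σ.derivative.eval (w 0) • (ContinuousLinearMap.proj 0 : (Fin (d + 2) → ℂ) →L[ℂ] ℂ)) w :=
      HasDerivAt.comp_hasFDerivAt (f := fun w : Fin (d + 2) → ℂ => w 0) w (σ.hasDerivAt (w 0)) (hp0 w)
    exact e1.prodMk (ContinuousLinearMap.pi fun i : Fin d =>
      (ContinuousLinearMap.proj i.succ.succ : (Fin (d + 2) → ℂ) →L[ℂ] ℂ)).hasFDerivAt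
  have hEq : ∀ w, E₀ w = a.eval (w 0) * w 1 + (1 - qf B (Sg w)) := by
    intro w
    rw [hE₀, qf, consL_apply]
    ring
  have hEd : ∀ w, HasFDerivAt E₀ ((a.eval (w 0) •
      (ContinuousLinearMap.proj 1 : (Fin (d + 2) → ℂ) →L[ℂ] ℂ) +
      w 1 • (a.derivative.eval (w 0) • (ContinuousLinearMap.proj 0 : (Fin (d + 2) → ℂ) →L[ℂ] ℂ))) +
      -((fderiv ℂ (qf B) (Sg w)).comp (DSg w))) w := by
    intro w
    rw [funext hEq]
    have e1 : HasFDerivAt (fun w : Fin (d + 2) → ℂ => a.eval (w 0))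
        (a.derivative.eval (w 0) • (ContinuousLinearMap.proj 0 : (Fin (d + 2) → ℂ) →L[ℂ] ℂ)) w :=
      HasDerivAt.comp_hasFDerivAt (f := fun w : Fin (d + 2) → ℂ => w 0) w (a.hasDerivAt (w 0)) (hp0 w)
    have e2 : HasFDerivAt (fun w => qf B (Sg w)) ((fderiv ℂ (qf B) (Sg w)).comp (DSg w)) w :=
      (differentiable_qf B _).hasFDerivAt.comp w (hSgd w)
    exact (e1.fun_mul (hp1 w)).fun_add (e2.const_sub 1)
  have hEv : ∀ w v : Fin (d + 2) → ℂ, fderiv ℂ E₀ w v = a.derivative.eval (w 0) * w 1 * v 0 +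
      a.eval (w 0) * v 1 - fderiv ℂ (qf B) (σ.eval (w 0), fun i => w i.succ.succ)
        (σ.derivative.eval (w 0) * v 0, fun i => v i.succ.succ) := by
    intro w v
    rw [(hEd w).fderiv]
    simp only [_root_.add_apply, _root_.smul_apply, _root_.neg_apply,
      ContinuousLinearMap.comp_apply, ContinuousLinearMap.proj_apply, smul_eq_mul]
    have e1 : DSg w v = (σ.derivative.eval (w 0) * v 0, fun i => v i.succ.succ) := rfl
    rw [e1]
    ring
  refine ⟨fun w => (hEd w).differentiableAt, ?_⟩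
  -- the data
  have hdata : ∀ ρ : ℂ, (∃ r, a.IsRoot r ∧ σ.eval r = ρ) →
      ∃ (c : (Fin d → ℂ) → (Fin d → ℂ)) (α β : (Fin d → ℂ) → ℂ), Differentiable ℂ c ∧
      Differentiable ℂ α ∧ Differentiable ℂ β ∧
      ∀ z, α z * fderiv ℂ (qf B) (ρ, z) (1, c z) + β z * qf B (ρ, z) = 1 := by
    rintro ρ ⟨r, hr, rfl⟩
    obtain ⟨μ, hμ, hfin⟩ := h4 r hr
    have hq0 : ∀ z, eval z (1 - slice (σ.eval r) B) = 0 ↔ eval (Fin.cons (σ.eval r) z) B = 1 := by
      intro z
      rw [map_sub, map_one, eval_slice, sub_eq_zero, eq_comm]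
    have hq1 : ∀ z i, eval z (pderiv i (1 - slice (σ.eval r) B)) =
        -eval (Fin.cons (σ.eval r) z) (pderiv i.succ B) := by
      intro z i
      rw [map_sub, pderiv_one, zero_sub, map_neg, eval_pderiv_slice]
    obtain ⟨c, α, β, hc, hα, hβ, h5⟩ := exists_data (1 - slice (σ.eval r) B)
      (-slice (σ.eval r) (pderiv 0 B)) μ (fun z hz => hμ z ((hq0 z).1 hz)) (by
        refine (hfin.image (fun w => -w)).subset ?_
        rintro w ⟨z, hz, hz', rfl⟩
        refine ⟨_, ⟨z, (hq0 z).1 hz, fun i => ?_, rfl⟩, ?_⟩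
        · have := hz' i
          rw [hq1, neg_eq_zero] at this
          exact this
        · rw [map_neg, eval_slice]
          ring) (by
        intro z hz hz' h0
        have h6 : eval (Fin.cons (σ.eval r) z) (pderiv 0 B) = 0 := by
          rw [map_neg, eval_slice, neg_eq_zero] at h0
          exact h0
        have h7 : a.derivative.eval r = 0 := by
          obtain ⟨a₁, e0⟩ : (Polynomial.X - Polynomial.C r) ^ 2 ∣ a :=
            (pow_dvd_pow _ (h1 r hr).1).trans (a.pow_rootMultiplicity_dvd r)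
          rw [e0]
          simp [Polynomial.derivative_mul, Polynomial.derivative_pow]
        obtain ⟨v, hv⟩ := hsm (Fin.cons r (Fin.cons 0 z)) (by
          rw [hE₀]
          simpa using (hq0 z).1 hz)
        apply hv
        rw [hEv, fderiv_qf]
        have h8 : ∀ i : Fin d, eval (Fin.cons (σ.eval r) z) (pderiv i.succ B) = 0 := by
          intro i
          have := hz' i
          rw [hq1, neg_eq_zero] at this
          exact this
        have h9 : a.eval r = 0 := hr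
        simp [h6, h7, h8, h9])
    refine ⟨c, α, β, hc, hα, hβ, fun z => ?_⟩
    have h6 := h5 z
    simp only [hq1] at h6
    simp only [map_sub, map_one, map_neg, eval_slice] at h6
    rw [fderiv_qf, qf, consL_apply, one_mul]
    refine Eq.trans ?_ h6
    simp only [mul_neg, Finset.sum_neg_distrib]
    ring
  choose! c α β hc hα hβ hbez using hdata
  obtain ⟨Φ, hΦ, hΦ1⟩ := coreG (a := a) (σ := σ) ha (fun r hr => (h1 r hr).1)
    (fun r hr => (h1 r hr).2) h2 (q := qf B) (differentiable_qf B) (c := c) (α := α) (β := β)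
    (fun r hr => hc _ ⟨r, hr, rfl⟩) (fun r hr => hα _ ⟨r, hr, rfl⟩)
    (fun r hr => hβ _ ⟨r, hr, rfl⟩) (fun r hr => hbez _ ⟨r, hr, rfl⟩)
    (fun ρ => 1 - slice ρ B) (fun r hr z => by
      rw [map_sub, map_one, eval_slice, qf, consL_apply]) (fun r r' hr hr' hne z hz => by
      rw [qf, consL_apply, sub_eq_zero] at hz
      rw [qf, consL_apply, Ne, sub_eq_zero]
      exact fun h => h3 r r' hr hr' hne z hz.symm h.symm)
  have hd : ∀ w, HasFDerivAt (fun w => consL d (Φ (lin d w)))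
      ((consL d).comp ((fderiv ℂ Φ (lin d w)).comp (lin d))) w := fun w =>
    (consL d).hasFDerivAt.comp w ((hΦ _).hasFDerivAt.comp w (lin d).hasFDerivAt)
  refine ⟨fun w => consL d (Φ (lin d w)), fun w => (hd w).differentiableAt,
    fun w hw v hv hv' => ?_⟩
  rw [(hd w).fderiv] at hv'
  have e1 : fderiv ℂ Φ (w 0, w 1, fun i => w i.succ.succ) (v 0, v 1, fun i => v i.succ.succ) = 0 :=
    consL_injective _ hv'
  obtain ⟨v0, v1, v2⟩ := hΦ1 (w 0) (w 1) (fun i => w i.succ.succ) (by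
    rw [hEq] at hw
    linear_combination hw) (v 0) (v 1) (fun i => v i.succ.succ) (by
    rw [hEv] at hv
    linear_combination hv) e1
  ext j
  refine Fin.cases v0 (fun j => Fin.cases v1 (fun i => ?_) j) j
  exact congrFun v2 i

end Pool.Agent.Helper72.TM
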