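import Pool.Agent.Helper72.TM.Core

/-!
# Families of immersions with prescribed first jets at several parameters
(project TM of helper72, MP_1994dd_an)
-/

open Polynomial

namespace Pool.Agent.Helper72.TM

variable {d : ℕ}

theorem exists_Lambda (S : Finset ℂ) (ρ : ℂ) : ∃ Λ : ℂ[X],
    (∀ ρ' ∈ S, Λ.eval ρ' = 0) ∧ (derivative Λ).eval ρ = 1 ∧
      ∀ ρ' ∈ S, ρ' ≠ ρ → (derivative Λ).eval ρ' = 0 := by
  classical
  set Q : ℂ[X] := ∏ ρ' ∈ S.erase ρ, (X - C ρ') ^ 2 with hQ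
  have hQρ : Q.eval ρ ≠ 0 := by
    rw [hQ, eval_prod]
    refine Finset.prod_ne_zero_iff.2 fun ρ' h => ?_
    rw [eval_pow, eval_sub, eval_X, eval_C]
    exact pow_ne_zero _ (sub_ne_zero.2 (Finset.ne_of_mem_erase h).symm)
  have hQ' : ∀ ρ' ∈ S, ρ' ≠ ρ → ∃ Q₂ : ℂ[X], Q = (X - C ρ') ^ 2 * Q₂ := by
    intro ρ' h hne
    exact ⟨_, (Finset.mul_prod_erase (S.erase ρ) _ (Finset.mem_erase.2 ⟨hne, h⟩)).symm⟩
  refine ⟨C (Q.eval ρ)⁻¹ * ((X - C ρ) * Q), ?_, ?_, ?_⟩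
  · intro ρ' h
    by_cases hne : ρ' = ρ
    · simp [hne]
    · obtain ⟨Q₂, h2⟩ := hQ' ρ' h hne
      simp [h2]
  · simp only [derivative_mul, derivative_C, zero_mul, zero_add, derivative_sub, derivative_X,
      sub_zero, one_mul, eval_mul, eval_C, eval_add, eval_sub, eval_X, sub_self, add_zero]
    exact inv_mul_cancel₀ hQρ
  · intro ρ' h hne
    obtain ⟨Q₂, h2⟩ := hQ' ρ' h hne
    simp [h2, derivative_mul, derivative_pow]

/-- The derivative of a family which is the identity at `ρ`. -/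
theorem fderiv_snd_of_id {Ξ : ℂ × (Fin d → ℂ) → (Fin d → ℂ)} (hΞ : Differentiable ℂ Ξ) {ρ : ℂ}
    (h0 : ∀ z, Ξ (ρ, z) = z) (z v : Fin d → ℂ) : fderiv ℂ Ξ (ρ, z) (0, v) = v := by
  have h4 : HasFDerivAt (fun ζ => Ξ (ρ, ζ))
      ((fderiv ℂ Ξ (ρ, z)).comp (ContinuousLinearMap.inr ℂ ℂ (Fin d → ℂ))) z :=
    (hΞ (ρ, z)).hasFDerivAt.comp z (hasFDerivAt_prodMk_right ρ z)
  have h5 : HasFDerivAt (fun ζ => Ξ (ρ, ζ)) (ContinuousLinearMap.id ℂ (Fin d → ℂ)) z := by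
    simp_rw [h0]
    exact hasFDerivAt_id z
  have h6 := congrArg (fun L => L v) (h4.unique h5)
  simpa using h6

theorem exists_multiXi_aux (S : Finset ℂ) {c : ℂ → (Fin d → ℂ) → (Fin d → ℂ)}
    (hc : ∀ ρ ∈ S, Differentiable ℂ (c ρ)) (T : Finset ℂ) : T ⊆ S →
    ∃ Ξ : ℂ × (Fin d → ℂ) → (Fin d → ℂ), Differentiable ℂ Ξ ∧
      (∀ ρ ∈ S, ∀ z, Ξ (ρ, z) = z) ∧ (∀ ρ ∈ T, ∀ z, fderiv ℂ Ξ (ρ, z) (1, 0) = c ρ z) ∧
      (∀ ρ ∈ S, ρ ∉ T → ∀ z, fderiv ℂ Ξ (ρ, z) (1, 0) = 0) ∧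
      ∀ s z v, fderiv ℂ Ξ (s, z) (0, v) = 0 → v = 0 := by
  classical
  induction T using Finset.induction_on with
  | empty =>
    intro _
    refine ⟨fun w => w.2, differentiable_snd, fun _ _ z => rfl, by simp, fun _ _ _ z => ?_,
      fun x z v hv => ?_⟩
    · rw [fderiv_snd]; simp
    · rw [fderiv_snd] at hv; simpa using hv
  | insert ρ T hρ ih =>
    intro hTS
    have hρS : ρ ∈ S := hTS (Finset.mem_insert_self _ _)
    obtain ⟨Ξ, hΞ, h0, h1, h1', h2⟩ := ih ((Finset.subset_insert _ _).trans hTS)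
    obtain ⟨E, hE, e0, e1, e2⟩ := exists_Xi (hc ρ hρS)
    obtain ⟨Λ, l0, l1, l2⟩ := exists_Lambda S ρ
    have hd : ∀ w : ℂ × (Fin d → ℂ), HasFDerivAt
        (fun w : ℂ × (Fin d → ℂ) => E (Λ.eval w.1, Ξ w))
        ((fderiv ℂ E (Λ.eval w.1, Ξ w)).comp
          (((derivative Λ).eval w.1 • ContinuousLinearMap.fst ℂ ℂ (Fin d → ℂ)).prod
          (fderiv ℂ Ξ w))) w := fun w => by
      have h3 : HasFDerivAt (fun w : ℂ × (Fin d → ℂ) => Λ.eval w.1)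
          ((derivative Λ).eval w.1 • ContinuousLinearMap.fst ℂ ℂ (Fin d → ℂ)) w :=
        (Λ.hasDerivAt w.1).comp_hasFDerivAt w hasFDerivAt_fst
      exact (hE (Λ.eval w.1, Ξ w)).hasFDerivAt.comp w (h3.prodMk (hΞ w).hasFDerivAt)
    have hval : ∀ ρ' ∈ S, ∀ z, fderiv ℂ (fun w : ℂ × (Fin d → ℂ) => E (Λ.eval w.1, Ξ w))
        (ρ', z) (1, 0) = (derivative Λ).eval ρ' • c ρ z + fderiv ℂ Ξ (ρ', z) (1, 0) := by
      intro ρ' hρ' z
      rw [(hd (ρ', z)).fderiv]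
      simp only [ContinuousLinearMap.comp_apply, ContinuousLinearMap.prod_apply,
        _root_.smul_apply, ContinuousLinearMap.coe_fst', h0 ρ' hρ', l0 ρ' hρ', smul_eq_mul,
        mul_one]
      generalize fderiv ℂ Ξ (ρ', z) (1, 0) = v
      have h7 : ((derivative Λ).eval ρ', v) =
          (derivative Λ).eval ρ' • ((1, 0) : ℂ × (Fin d → ℂ)) + (0, v) := by simp
      rw [h7, map_add, map_smul, e1, fderiv_snd_of_id hE e0]
    refine ⟨fun w => E (Λ.eval w.1, Ξ w), fun w => (hd w).differentiableAt, ?_, ?_, ?_, ?_⟩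
    · intro ρ' hρ' z
      simp [l0 ρ' hρ', e0, h0 ρ' hρ']
    · intro ρ' hρ' z
      rw [hval ρ' (hTS hρ')]
      rcases Finset.mem_insert.1 hρ' with rfl | hρT
      · rw [l1, one_smul, h1' ρ' hρS hρ, add_zero]
      · have hne : ρ' ≠ ρ := fun h => hρ (h ▸ hρT)
        rw [l2 ρ' (hTS hρ') hne, zero_smul, zero_add, h1 ρ' hρT]
    · intro ρ' hρ' hnot z
      rw [Finset.mem_insert, not_or] at hnot
      rw [hval ρ' hρ', l2 ρ' hρ' hnot.1, zero_smul, zero_add, h1' ρ' hρ' hnot.2]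
    · intro x z v hv
      rw [(hd (x, z)).fderiv] at hv
      simp only [ContinuousLinearMap.comp_apply, ContinuousLinearMap.prod_apply,
        _root_.smul_apply, ContinuousLinearMap.coe_fst', smul_eq_mul, mul_zero] at hv
      exact h2 x z v (e2 _ _ _ hv)

/-- A family `Ξ(s, ·)` of immersions of `ℂ^d` with `Ξ(ρ, ·) = id` and prescribed derivative in `s`
at `s = ρ` for all `ρ ∈ S`. -/
theorem exists_multiXi (S : Finset ℂ) {c : ℂ → (Fin d → ℂ) → (Fin d → ℂ)}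
    (hc : ∀ ρ ∈ S, Differentiable ℂ (c ρ)) :
    ∃ Ξ : ℂ × (Fin d → ℂ) → (Fin d → ℂ), Differentiable ℂ Ξ ∧
      (∀ ρ ∈ S, ∀ z, Ξ (ρ, z) = z) ∧ (∀ ρ ∈ S, ∀ z, fderiv ℂ Ξ (ρ, z) (1, 0) = c ρ z) ∧
      ∀ s z v, fderiv ℂ Ξ (s, z) (0, v) = 0 → v = 0 := by
  obtain ⟨Ξ, h1, h2, h3, -, h4⟩ := exists_multiXi_aux S hc S (Finset.Subset.refl S)
  exact ⟨Ξ, h1, h2, h3, h4⟩

/-- The congruence at one parameter. -/
theorem exists_mod_at {q : ℂ × (Fin d → ℂ) → ℂ} (hq : Differentiable ℂ q) (ρ : ℂ)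
    {c : (Fin d → ℂ) → (Fin d → ℂ)} {α β : (Fin d → ℂ) → ℂ} (hα : Differentiable ℂ α)
    (hβ : Differentiable ℂ β)
    (hbez : ∀ z, α z * fderiv ℂ q (ρ, z) (1, c z) + β z * q (ρ, z) = 1)
    {Ξ : ℂ × (Fin d → ℂ) → (Fin d → ℂ)} (hΞ : Differentiable ℂ Ξ) (h0 : ∀ z, Ξ (ρ, z) = z)
    (h1 : ∀ z, fderiv ℂ Ξ (ρ, z) (1, c z) = 0) (k : ℕ) :
    ∃ (g : (Fin d → ℂ) → ℂ) (A B : ℂ × (Fin d → ℂ) → ℂ), Differentiable ℂ g ∧
      Differentiable ℂ A ∧ Differentiable ℂ B ∧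
      ∀ w, w.1 - g (Ξ w) = A w * q w + (w.1 - ρ) ^ k * B w := by
  set T : ℂ × (Fin d → ℂ) → ℂ × (Fin d → ℂ) := fun w => (ρ + w.1, w.2) with hT
  have hTd : ∀ w, HasFDerivAt T (ContinuousLinearMap.id ℂ _) w := by
    intro w
    have e1 : HasFDerivAt (fun w : ℂ × (Fin d → ℂ) => w + (ρ, 0)) (ContinuousLinearMap.id ℂ _) w :=
      (hasFDerivAt_id w).add_const _
    have e2 : T = fun w : ℂ × (Fin d → ℂ) => w + (ρ, 0) := by
      funext w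
      simp [hT, Prod.ext_iff, add_comm]
    rw [e2]
    exact e1
  have hTD : Differentiable ℂ T := fun w => (hTd w).differentiableAt
  have e1 : ∀ z, fderiv ℂ (fun w => q (T w)) (0, z) = fderiv ℂ q (ρ, z) := by
    intro z
    have e2 : HasFDerivAt (fun w => q (T w)) ((fderiv ℂ q (T (0, z))).comp
      (ContinuousLinearMap.id ℂ _)) (0, z) := (hq _).hasFDerivAt.comp _ (hTd _)
    rw [e2.fderiv, ContinuousLinearMap.comp_id]
    simp [hT]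
  have e2 : ∀ z, fderiv ℂ (fun w => Ξ (T w)) (0, z) = fderiv ℂ Ξ (ρ, z) := by
    intro z
    have e2 : HasFDerivAt (fun w => Ξ (T w)) ((fderiv ℂ Ξ (T (0, z))).comp
      (ContinuousLinearMap.id ℂ _)) (0, z) := (hΞ _).hasFDerivAt.comp _ (hTd _)
    rw [e2.fderiv, ContinuousLinearMap.comp_id]
    simp [hT]
  obtain ⟨g, A, B, hg, hA, hB, h2⟩ := exists_mod (q := fun w => q (T w)) (hq.comp hTD) (c := c) hα
    hβ (fun z => by rw [e1]; simpa [hT] using hbez z) (Ξ := fun w => Ξ (T w)) (hΞ.comp hTD)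
    (fun z => by simpa [hT] using h0 z) (fun z => by rw [e2, h1]) k (fun w => ρ + w.1)
    (differentiable_fst.const_add ρ)
  refine ⟨g, fun w => A (w.1 - ρ, w.2), fun w => B (w.1 - ρ, w.2), hg, hA.comp (by fun_prop),
    hB.comp (by fun_prop), fun w => ?_⟩
  have h3 := h2 (w.1 - ρ, w.2)
  simp only [hT, add_sub_cancel, Prod.mk.eta] at h3
  exact h3

end Pool.Agent.Helper72.TM
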