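import Mathlib

/-!
# Polynomial data attached to a polynomial without simple roots (project TM of helper72)
-/

open Polynomial

namespace Pool.Agent.Helper72.TM

theorem dvd_aux {R : Type*} [CommRing R] {t u v f g : R} {m : ℕ} (hm : 2 ≤ m) (hu : t ∣ u)
    (hv : t ^ m ∣ v) (hfg : v ∣ f - g) :
    t ^ (2 * (m - 1)) ∣ u ^ (m - 1) * f - (u - v) ^ (m - 1) * g := by
  have h1 : u ^ (m - 1) * f - (u - v) ^ (m - 1) * g =
      u ^ (m - 1) * (f - g) + (u ^ (m - 1) - (u - v) ^ (m - 1)) * g := by ring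
  rw [h1]
  have htv : t ∣ v := (dvd_pow_self t (by omega)).trans hv
  refine dvd_add ?_ (Dvd.dvd.mul_right ?_ g)
  · have h2 : t ^ (2 * (m - 1)) ∣ t ^ (m - 1) * t ^ m := by
      rw [← pow_add]
      exact pow_dvd_pow t (by omega)
    exact h2.trans (mul_dvd_mul (pow_dvd_pow_of_dvd hu _) (hv.trans hfg))
  · have h3 : u ^ (m - 1) - (u - v) ^ (m - 1) =
        (∑ i ∈ Finset.range (m - 1), u ^ i * (u - v) ^ (m - 1 - 1 - i)) * v := by
      have h4 := (Commute.all u (u - v)).geom_sum₂_mul (m - 1)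
      rw [sub_sub_cancel] at h4
      exact h4.symm
    rw [h3]
    have h5 : t ^ (2 * (m - 1)) = t ^ (m - 2) * t ^ m := by
      rw [← pow_add]
      congr 1
      omega
    rw [h5]
    refine mul_dvd_mul (Finset.dvd_sum fun i hi => ?_) hv
    have h6 : t ^ (m - 2) = t ^ i * t ^ (m - 1 - 1 - i) := by
      rw [← pow_add]
      congr 1
      have := Finset.mem_range.1 hi
      omega
    rw [h6]
    exact mul_dvd_mul (pow_dvd_pow_of_dvd hu _) (pow_dvd_pow_of_dvd (dvd_sub hu htv) _)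

theorem eq_prod (a : ℂ[X]) : a = C a.leadingCoeff *
    ∏ r ∈ a.roots.toFinset, (X - C r) ^ a.rootMultiplicity r := by
  classical
  conv_lhs => rw [(IsAlgClosed.splits a).eq_prod_roots]
  rw [Finset.prod_multiset_map_count]
  simp only [count_roots]

theorem pairwise_coprime (S : Finset ℂ) (k : ℂ → ℕ) :
    (S : Set ℂ).Pairwise (Function.onFun IsCoprime fun r => (X - C r : ℂ[X]) ^ k r) := by
  intro r _ r' _ hne
  exact (isCoprime_X_sub_C_of_isUnit_sub (sub_ne_zero.2 hne).isUnit).pow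

theorem eval_aux (c : ℂ[X]) (w : ℂ[X][X]) (x y : ℂ) :
    (((c.map (algebraMap ℂ ℂ[X][X])).eval w).eval (C y)).eval x =
      c.eval ((w.eval (C y)).eval x) := by
  let g : ℂ[X][X] →+* ℂ := (evalRingHom x).comp (evalRingHom (C y))
  have h1 : g.comp (algebraMap ℂ ℂ[X][X]) = RingHom.id ℂ := by
    ext t
    simp [g]
  have h2 := Polynomial.hom_eval₂ c (algebraMap ℂ ℂ[X][X]) g w
  rw [h1, ← eval_map] at h2
  exact h2

/-- The polynomial data. -/
theorem poly_data {a σ : ℂ[X]} (ha : a ≠ 0) (h2 : ∀ r, a.IsRoot r → 2 ≤ a.rootMultiplicity r)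
    (hσ : ∀ r, a.IsRoot r → σ.derivative.eval r ≠ 0)
    (hcls : ∀ r r', a.IsRoot r → a.IsRoot r' → σ.eval r = σ.eval r' →
      a.rootMultiplicity r = a.rootMultiplicity r') :
    ∃ (κ : ℂ) (b P M c c₁ N₀ N₁ : ℂ[X]) (L : ℂ[X][X]), κ ≠ 0 ∧ a = C κ * b * P ∧
      P * derivative b = b * M ∧ c ≠ 0 ∧ N₀ * c₁ + N₁ * b = 1 ∧
      (∀ r, a.IsRoot r → P.eval r = 0 ∧ M.eval r ≠ 0 ∧ N₀.eval r ≠ 0) ∧
      ∀ x y, c.eval (σ.eval x - a.eval x * y) = b.eval x * c₁.eval x -
        b.eval x ^ 2 * (L.eval (C y)).eval x := by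
  classical
  set S := a.roots.toFinset with hS
  have hSr : ∀ r, r ∈ S ↔ a.IsRoot r := by
    intro r
    rw [hS, Multiset.mem_toFinset, mem_roots ha]
  set m : ℂ → ℕ := fun r => a.rootMultiplicity r with hm
  set κ := a.leadingCoeff with hκ
  have hκ0 : κ ≠ 0 := leadingCoeff_ne_zero.2 ha
  set b : ℂ[X] := ∏ r ∈ S, (X - C r) ^ (m r - 1) with hb
  set P : ℂ[X] := ∏ r ∈ S, (X - C r) with hP
  set M : ℂ[X] := ∑ r ∈ S, ((m r - 1 : ℕ) : ℂ[X]) * ∏ r' ∈ S.erase r, (X - C r') with hM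
  have ham : a = C κ * ∏ r ∈ S, (X - C r) ^ m r := eq_prod a
  have hab : a = C κ * b * P := by
    rw [mul_assoc, hb, hP, ← Finset.prod_mul_distrib]
    conv_lhs => rw [ham]
    congr 1
    refine Finset.prod_congr rfl fun r hr => ?_
    rw [← pow_succ, Nat.sub_add_cancel]
    have := h2 r ((hSr r).1 hr)
    simp only [hm]
    omega
  -- the logarithmic derivative of `b`
  have hPM : P * derivative b = b * M := by
    rw [hb, derivative_prod_finset, hM, Finset.mul_sum, Finset.mul_sum]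
    refine Finset.sum_congr rfl fun r hr => ?_
    have h3 := h2 r ((hSr r).1 hr)
    have h4 : m r - 1 = (m r - 1 - 1) + 1 := by simp only [hm]; omega
    rw [derivative_X_sub_C_pow, hP, ← Finset.mul_prod_erase S _ hr,
      ← Finset.mul_prod_erase S (fun r => (X - C r : ℂ[X]) ^ (m r - 1)) hr]
    conv_rhs => rw [show (X - C r : ℂ[X]) ^ (m r - 1) = (X - C r) ^ (m r - 1 - 1) * (X - C r) by
      rw [← pow_succ, ← h4]]
    rw [map_natCast]
    ring
  have hMr : ∀ r ∈ S, M.eval r ≠ 0 := by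
    intro r hr
    rw [hM, eval_finsetSum, Finset.sum_eq_single_of_mem r hr]
    · rw [eval_mul, eval_natCast, eval_prod]
      refine mul_ne_zero ?_ (Finset.prod_ne_zero_iff.2 fun r' hr' => ?_)
      · have h3 := h2 r ((hSr r).1 hr)
        exact_mod_cast (by simp only [hm]; omega : m r - 1 ≠ 0)
      · rw [eval_sub, eval_X, eval_C, sub_ne_zero]
        exact (Finset.ne_of_mem_erase hr').symm
    · intro r' _ hne
      rw [eval_mul, eval_prod]
      refine mul_eq_zero_of_right _ (Finset.prod_eq_zero (i := r) ?_ (by simp))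
      exact Finset.mem_erase.2 ⟨hne.symm, hr⟩
  -- the polynomial `c`
  obtain ⟨μ, hμ⟩ : ∃ μ : ℂ → ℕ, ∀ r ∈ S, μ (σ.eval r) = m r := by
    refine ⟨fun ρ => if h : ∃ r ∈ S, σ.eval r = ρ then m h.choose else 0, fun r hr => ?_⟩
    have h3 : ∃ r' ∈ S, σ.eval r' = σ.eval r := ⟨r, hr, rfl⟩
    simp only
    rw [dif_pos h3]
    exact hcls _ _ ((hSr _).1 h3.choose_spec.1) ((hSr _).1 hr) h3.choose_spec.2
  set T := S.image (fun r => σ.eval r) with hT
  set c : ℂ[X] := ∏ ρ ∈ T, (X - C ρ) ^ (μ ρ - 1) with hc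
  have hc0 : c ≠ 0 := Finset.prod_ne_zero_iff.2 fun ρ _ => pow_ne_zero _ (X_sub_C_ne_zero ρ)
  have hcr : ∀ r ∈ S, ∃ c' : ℂ[X], c = (X - C (σ.eval r)) ^ (m r - 1) * c' ∧
      c'.eval (σ.eval r) ≠ 0 := by
    intro r hr
    have hrT : σ.eval r ∈ T := Finset.mem_image_of_mem _ hr
    refine ⟨∏ ρ ∈ T.erase (σ.eval r), (X - C ρ) ^ (μ ρ - 1), ?_, ?_⟩
    · rw [hc, ← Finset.mul_prod_erase T _ hrT, hμ r hr]
    · rw [eval_prod]
      refine Finset.prod_ne_zero_iff.2 fun ρ hρ => ?_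
      rw [eval_pow, eval_sub, eval_X, eval_C]
      exact pow_ne_zero _ (sub_ne_zero.2 (Finset.ne_of_mem_erase hρ).symm)
  have hσr : ∀ r ∈ S, ∃ σ₁ : ℂ[X], σ - C (σ.eval r) = (X - C r) * σ₁ ∧ σ₁.eval r ≠ 0 := by
    intro r hr
    have h3 : (X - C r) ∣ σ - C (σ.eval r) := by
      rw [dvd_iff_isRoot]
      simp
    obtain ⟨σ₁, h4⟩ := h3
    refine ⟨σ₁, h4, ?_⟩
    have h5 := congrArg (fun p => (derivative p).eval r) h4
    simp at h5
    rw [← h5]
    exact hσ r ((hSr r).1 hr)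
  have hbc : b ∣ c.comp σ := by
    rw [hb]
    refine Finset.prod_dvd_of_coprime (pairwise_coprime S _) fun r hr => ?_
    obtain ⟨c', h3, -⟩ := hcr r hr
    obtain ⟨σ₁, h4, -⟩ := hσr r hr
    rw [h3, mul_comp, pow_comp, sub_comp, X_comp, C_comp, h4]
    exact Dvd.dvd.mul_right (pow_dvd_pow_of_dvd (Dvd.intro _ rfl) _) _
  obtain ⟨c₁, hc₁⟩ := hbc
  have hc₁r : ∀ r ∈ S, c₁.eval r ≠ 0 := by
    intro r hr h0
    obtain ⟨c', h3, h3'⟩ := hcr r hr
    obtain ⟨σ₁, h4, h4'⟩ := hσr r hr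
    have h5 : (X - C r : ℂ[X]) ^ (m r - 1) * (σ₁ ^ (m r - 1) * c'.comp σ) =
        (X - C r) ^ (m r - 1) * ((∏ r' ∈ S.erase r, (X - C r') ^ (m r' - 1)) * c₁) := by
      have h6 : c.comp σ = (X - C r : ℂ[X]) ^ (m r - 1) * (σ₁ ^ (m r - 1) * c'.comp σ) := by
        rw [h3, mul_comp, pow_comp, sub_comp, X_comp, C_comp, h4, mul_pow, mul_assoc]
      rw [← h6, hc₁, hb, ← Finset.mul_prod_erase S _ hr, mul_assoc]
    have h7 := mul_left_cancel₀ (pow_ne_zero _ (X_sub_C_ne_zero r)) h5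
    have h8 := congrArg (fun p => p.eval r) h7
    simp only [eval_mul, eval_pow, eval_comp, h0, mul_zero] at h8
    exact mul_ne_zero (pow_ne_zero _ h4') h3' h8
  have hcop : IsCoprime c₁ b := by
    rw [hb]
    refine IsCoprime.prod_right fun r hr => IsCoprime.pow_right ?_
    refine IsCoprime.symm ?_
    rw [(irreducible_X_sub_C r).coprime_iff_not_dvd, dvd_iff_isRoot]
    exact hc₁r r hr
  obtain ⟨N₀, N₁, hN⟩ := hcop
  -- the polynomial `L`
  have hL : (C b : ℂ[X][X]) ^ 2 ∣ (c.map (algebraMap ℂ ℂ[X][X])).eval (C σ) -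
      (c.map (algebraMap ℂ ℂ[X][X])).eval (C σ - C a * X) := by
    have h3 : (C b : ℂ[X][X]) ^ 2 = ∏ r ∈ S, (C (X - C r) : ℂ[X][X]) ^ (2 * (m r - 1)) := by
      rw [hb, map_prod, ← Finset.prod_pow]
      refine Finset.prod_congr rfl fun r _ => ?_
      rw [map_pow, ← pow_mul, mul_comm]
    rw [h3]
    refine Finset.prod_dvd_of_coprime ?_ fun r hr => ?_
    · intro r _ r' _ hne
      exact ((isCoprime_X_sub_C_of_isUnit_sub (sub_ne_zero.2 hne).isUnit).map
        (C : ℂ[X] →+* ℂ[X][X])).pow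
    · obtain ⟨c', h4, -⟩ := hcr r hr
      obtain ⟨σ₁, h5, -⟩ := hσr r hr
      have hev : ∀ w : ℂ[X][X], (c.map (algebraMap ℂ ℂ[X][X])).eval w =
          (w - C (C (σ.eval r))) ^ (m r - 1) * (c'.map (algebraMap ℂ ℂ[X][X])).eval w := by
        intro w
        rw [h4, Polynomial.map_mul, Polynomial.map_pow, Polynomial.map_sub, map_X, map_C,
          eval_mul, eval_pow, eval_sub, eval_X, eval_C]
        rfl
      rw [hev, hev]
      have h6 : (C σ - C a * X - C (C (σ.eval r)) : ℂ[X][X]) =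
          (C σ - C (C (σ.eval r))) - C a * X := by ring
      rw [h6]
      refine dvd_aux (h2 r ((hSr r).1 hr)) ?_ ?_ ?_
      · rw [← C_sub, h5, C_mul]
        exact Dvd.intro _ rfl
      · obtain ⟨w, hw⟩ : (X - C r : ℂ[X]) ^ (m r) ∣ a := pow_rootMultiplicity_dvd a r
        have h9 : (C ((X - C r : ℂ[X]) ^ (m r)) : ℂ[X][X]) ∣ C a :=
          ⟨C w, by rw [← C_mul, ← hw]⟩
        rw [C_pow] at h9
        exact h9.mul_right X
      · have h7 := Polynomial.sub_dvd_eval_sub (C σ) (C σ - C a * X)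
          (c'.map (algebraMap ℂ ℂ[X][X]))
        rw [sub_sub_cancel] at h7
        exact h7
  obtain ⟨L, hL⟩ := hL
  refine ⟨κ, b, P, M, c, c₁, N₀, N₁, L, hκ0, hab, hPM, hc0, hN, fun r hr => ⟨?_,
    hMr r ((hSr r).2 hr), fun h0 => ?_⟩, fun x y => ?_⟩
  · rw [hP, eval_prod]
    exact Finset.prod_eq_zero ((hSr r).2 hr) (by simp)
  · have h3 := congrArg (fun p => p.eval r) hN
    have h4 : b.eval r = 0 := by
      rw [hb, eval_prod]
      refine Finset.prod_eq_zero ((hSr r).2 hr) ?_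
      rw [eval_pow, eval_sub, eval_X, eval_C, sub_self, zero_pow]
      have := h2 r hr
      simp only [hm]
      omega
    simp [h0, h4] at h3
  · have h3 := congrArg (fun p => (p.eval (C y)).eval x) hL
    simp only [eval_sub, eval_aux] at h3
    simp only [eval_C, eval_mul, eval_X, eval_pow] at h3
    have h5 := congrArg (fun p => p.eval x) hc₁
    simp only [eval_comp, eval_mul] at h5
    linear_combination h5 - h3

end Pool.Agent.Helper72.TM
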