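import Pool.Agent.Helper72.TM.CoreG

/-!
# Surfaces `a(x) y = q(x, z)`: removing a simple root of `a`
(project TM of helper72, MP_1994dd_an)
-/

open Polynomial Complex MeasureTheory

namespace Pool.Agent.Helper72.TM

/-- Primitives depending on a parameter. -/
theorem exists_prim {R : ℂ × ℂ → ℂ} (hR : Differentiable ℂ R) : ∃ S : ℂ × ℂ → ℂ,
    Differentiable ℂ S ∧ (∀ x, S (x, 0) = 0) ∧ ∀ x z, HasDerivAt (fun z => S (x, z)) (R (x, z)) z := by
  have hGd : Differentiable ℂ (fun q : ℂ × (ℂ × ℂ) => q.2.2 * R (q.2.1, q.1 * q.2.2)) := by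
    have h1 : Differentiable ℂ (fun q : ℂ × (ℂ × ℂ) => R (q.2.1, q.1 * q.2.2)) :=
      hR.comp (by fun_prop)
    have h2 : Differentiable ℂ (fun q : ℂ × (ℂ × ℂ) => q.2.2) := by fun_prop
    exact h2.mul h1
  refine ⟨fun w => ∫ t in (0 : ℝ)..1, w.2 * R (w.1, (t : ℂ) * w.2), differentiable_par hGd,
    fun x => by simp, fun x z => ?_⟩
  have hg : Differentiable ℂ (fun z : ℂ => R (x, z)) := hR.comp (by fun_prop)
  obtain ⟨Γ, hΓ⟩ := hg.isExactOn_univ
  have hΓ' : ∀ z, HasDerivAt Γ (R (x, z)) z := fun z => hΓ z (Set.mem_univ _)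
  have h1 : ∀ z : ℂ, (∫ t in (0 : ℝ)..1, z * R (x, (t : ℂ) * z)) = Γ z - Γ 0 := by
    intro z
    have h3 : ∀ t : ℝ, HasDerivAt (fun t : ℝ => Γ ((t : ℂ) * z)) (z * R (x, (t : ℂ) * z)) t := by
      intro t
      have h4 : HasDerivAt (fun t : ℝ => (t : ℂ) * z) z t := by
        simpa using (Complex.ofRealCLM.hasDerivAt (x := t)).mul_const z
      have h5 := (hΓ' ((t : ℂ) * z)).comp t h4
      rw [mul_comm] at h5
      exact h5
    have h8 : Continuous (fun t : ℝ => z * R (x, (t : ℂ) * z)) :=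
      continuous_const.mul (hR.continuous.comp (by fun_prop))
    rw [intervalIntegral.integral_eq_sub_of_hasDerivAt (fun t _ => h3 t)
      (h8.intervalIntegrable _ _)]
    simp
  have h2 : (fun z : ℂ => ∫ t in (0 : ℝ)..1, z * R (x, (t : ℂ) * z)) = fun z => Γ z - Γ 0 :=
    funext h1
  change HasDerivAt (fun z : ℂ => ∫ t in (0 : ℝ)..1, z * R (x, (t : ℂ) * z)) (R (x, z)) z
  rw [h2]
  exact (hΓ' z).sub_const _

/-- The surface `{a(x) y = q(x, z)}` has a holomorphic immersion into `ℂ²`. -/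
def Imm (a : ℂ[X]) (q : ℂ × ℂ → ℂ) : Prop :=
  ∃ Φ : ℂ × ℂ × ℂ → ℂ × ℂ, Differentiable ℂ Φ ∧ ∀ x y z, a.eval x * y = q (x, z) →
    ∀ dx dy dz, (derivative a).eval x * y * dx + a.eval x * dy = fderiv ℂ q (x, z) (dx, dz) →
      fderiv ℂ Φ (x, y, z) (dx, dy, dz) = 0 → dx = 0 ∧ dy = 0 ∧ dz = 0

/-- The function `Ξ`. -/
theorem exists_Xi_simple {a₃ : ℂ[X]} (ha₃ : a₃ ≠ 0) {r : ℂ} (hr : a₃.eval r ≠ 0) {P : ℂ[X]}
    (hP : P ≠ 0) (hP' : ∀ z, P.eval z = 0 → (derivative P).eval z ≠ 0) :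
    ∃ (S : ℂ × ℂ → ℂ) (H : ℂ → ℂ), Differentiable ℂ S ∧ Differentiable ℂ H ∧
      (∀ z, a₃.eval r * S (r, z) = exp (H z) * P.eval z) ∧
      ∀ x z, (x - r) + a₃.eval x * fderiv ℂ S (x, z) (0, 1) ≠ 0 := by
  obtain ⟨k, E₁, hk, hE₁, hkE⟩ := exists_expInterp_poly hP
    (A := fun z => (derivative P).eval z) (Polynomial.differentiable _) hP'
  obtain ⟨h, hh⟩ := hE₁.isExactOn_univ
  have hh' : ∀ z, HasDerivAt h (E₁ z) z := fun z => hh z (Set.mem_univ _)
  have hhd : Differentiable ℂ h := fun z => (hh' z).differentiableAt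
  obtain ⟨ε, E₂, hε, hE₂, hεE⟩ := exists_expInterp_poly ha₃ (A := fun x => x - r)
    (differentiable_id.sub_const r) (by
      intro x hx h0
      rw [sub_eq_zero.1 h0] at hx
      exact hr hx)
  obtain ⟨φ, hφ, hφ0, hφ1⟩ := exists_phi
  set κ : ℂ → ℂ := fun z => k z + h z with hκ
  have hκd : Differentiable ℂ κ := hk.add hhd
  set c₀ : ℂ := (a₃.eval r)⁻¹ with hc₀
  set R : ℂ × ℂ → ℂ := fun w => c₀ * κ w.2 * φ (c₀ * a₃.eval w.1 * κ w.2) * exp (ε w.1) + E₂ w.1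
    with hR
  have ha₃d : Differentiable ℂ (fun w : ℂ × ℂ => a₃.eval w.1) := fun w =>
    (hasFDerivAt_eval_fst a₃ w).differentiableAt
  have hκ2 : Differentiable ℂ (fun w : ℂ × ℂ => κ w.2) := hκd.comp differentiable_snd
  have hε1 : Differentiable ℂ (fun w : ℂ × ℂ => ε w.1) := hε.comp differentiable_fst
  have hE1 : Differentiable ℂ (fun w : ℂ × ℂ => E₂ w.1) := hE₂.comp differentiable_fst
  have hRd : Differentiable ℂ R := by
    have e1 : Differentiable ℂ (fun w : ℂ × ℂ => φ (c₀ * a₃.eval w.1 * κ w.2)) :=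
      hφ.comp ((ha₃d.const_mul c₀).mul hκ2)
    exact (((hκ2.const_mul c₀).mul e1).mul hε1.cexp).add hE1
  have hR1 : ∀ x z, (x - r) + a₃.eval x * R (x, z) = exp (c₀ * a₃.eval x * κ z + ε x) := by
    intro x z
    have e1 := hφ1 (c₀ * a₃.eval x * κ z)
    have e2 := hεE x
    rw [exp_add]
    simp only [hR]
    linear_combination (-1 : ℂ) * e2 - exp (ε x) * e1
  obtain ⟨S₀, hS₀, hS0, hS₁⟩ := exists_prim hRd
  set H : ℂ → ℂ := fun z => h z + ε r with hH
  set C₁ : ℂ := c₀ * (exp (H 0) * P.eval 0) with hC₁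
  have hfd : ∀ x z, fderiv ℂ (fun w => S₀ w + C₁) (x, z) (0, 1) = R (x, z) := by
    intro x z
    have e1 : HasDerivAt (fun z : ℂ => ((x, z) : ℂ × ℂ)) (0, 1) z :=
      (hasDerivAt_const z x).prodMk (hasDerivAt_id z)
    have e2 := ((hS₀.add_const C₁) (x, z)).hasFDerivAt.comp_hasDerivAt z e1
    exact e2.unique ((hS₁ x z).add_const C₁)
  refine ⟨fun w => S₀ w + C₁, H, hS₀.add_const C₁, hhd.add_const _, ?_, ?_⟩
  · have hHd : ∀ z, HasDerivAt H (E₁ z) z := fun z => (hh' z).add_const _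
    have e1 : ∀ z, HasDerivAt (fun z => a₃.eval r * (S₀ (r, z) + C₁) - exp (H z) * P.eval z) 0 z := by
      intro z
      have e2 := (((hS₁ r z).add_const C₁).const_mul (a₃.eval r)).sub
        ((hHd z).cexp.mul (P.hasDerivAt z))
      refine e2.congr_deriv ?_
      have e3 := hR1 r z
      rw [sub_self, zero_add] at e3
      have e4 := hkE z
      have e5 : exp (c₀ * a₃.eval r * κ z + ε r) = exp (k z) * exp (H z) := by
        rw [← exp_add]
        congr 1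
        rw [hc₀, inv_mul_cancel₀ hr]
        simp only [hκ, hH]
        ring
      rw [e3, e5, e4]
      ring
    intro z
    have e2 := is_const_of_deriv_eq_zero (𝕜 := ℂ) (fun z => (e1 z).differentiableAt)
      (fun z => (e1 z).deriv) z 0
    have e3 : a₃.eval r * C₁ = exp (H 0) * P.eval 0 := by
      rw [hC₁, hc₀, ← mul_assoc, mul_inv_cancel₀ hr, one_mul]
    simp only [hS0, zero_add] at e2
    linear_combination e2 + e3
  · intro x z
    rw [hfd, hR1]
    exact exp_ne_zero _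

end Pool.Agent.Helper72.TM
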