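import Pool.Agent.Helper72.TM.Surf1

/-!
# Surfaces `a(x) y = q(x, z)`: removing a simple root of `a`, second part
(project TM of helper72, MP_1994dd_an)
-/

open Polynomial Complex

namespace Pool.Agent.Helper72.TM

theorem step_simple {a₃ : ℂ[X]} (ha₃ : a₃ ≠ 0) {r : ℂ} (hr : a₃.eval r ≠ 0) {q : ℂ × ℂ → ℂ}
    (hq : Differentiable ℂ q) {P : ℂ[X]} (hqP : ∀ z, q (r, z) = P.eval z)
    (hP : P ≠ 0) (hP' : ∀ z, P.eval z = 0 → (derivative P).eval z ≠ 0) (h : Imm a₃ q) :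
    Imm ((X - C r) * a₃) q := by
  obtain ⟨Φ, hΦ, hΦ1⟩ := h
  obtain ⟨S, H, hS, hH, hSr, hSz⟩ := exists_Xi_simple ha₃ hr hP hP'
  -- the function `R`
  have ha₃d : Differentiable ℂ (fun w : ℂ × ℂ => a₃.eval w.1) := fun w =>
    (hasFDerivAt_eval_fst a₃ w).differentiableAt
  have hH2 : Differentiable ℂ (fun w : ℂ × ℂ => H w.2) := hH.comp differentiable_snd
  have hΞd : Differentiable ℂ (fun w : ℂ × ℂ => (w.1 - r) * w.2 + a₃.eval w.1 * S w -
      exp (H w.2) * q w) :=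
    ((((differentiable_fst.sub_const r).mul differentiable_snd)).add (ha₃d.mul hS)).sub
      (hH2.cexp.mul hq)
  obtain ⟨R, hR, hR1⟩ : ∃ R : ℂ × ℂ → ℂ, Differentiable ℂ R ∧ ∀ x z,
      (x - r) * z + a₃.eval x * S (x, z) - exp (H z) * q (x, z) = (x - r) * R (x, z) := by
    have e1 : Differentiable ℂ (fun w : ℂ × ℂ => ((r + w.1, w.2) : ℂ × ℂ)) := by fun_prop
    obtain ⟨B, hB, hB1, -⟩ := exists_div (hΞd.comp e1) (by
      intro z
      simp only [Function.comp, add_zero]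
      rw [hSr, hqP]
      ring)
    refine ⟨fun w => B (w.1 - r, w.2), hB.comp (by fun_prop), fun x z => ?_⟩
    have e2 := hB1 (x - r) z
    simp only [Function.comp, add_sub_cancel] at e2
    exact e2
  -- the function `Q`
  obtain ⟨Q, hQ, hQ1⟩ : ∃ Q : ℂ × (ℂ × ℂ) → ℂ, Differentiable ℂ Q ∧ ∀ x z t,
      q (x, z + t) - q (x, z) = t * Q (t, (x, z)) := by
    have e1 : Differentiable ℂ (fun w : ℂ × (ℂ × ℂ) => q (w.2.1, w.2.2 + w.1) - q w.2) :=
      (hq.comp (by fun_prop)).sub (hq.comp (by fun_prop))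
    obtain ⟨B, hB, hB1, -⟩ := exists_div e1 (by intro z; simp)
    exact ⟨B, hB, fun x z t => hB1 t (x, z)⟩
  obtain ⟨U, V, hUV⟩ : IsCoprime (X - C r) a₃ := by
    rw [(irreducible_X_sub_C r).coprime_iff_not_dvd, dvd_iff_isRoot]
    exact hr
  have hUV' : ∀ x, U.eval x * (x - r) + V.eval x * a₃.eval x = 1 := by
    intro x
    have := congrArg (fun p => p.eval x) hUV
    simpa using this
  -- projections
  have dx_ : Differentiable ℂ (fun p : ℂ × ℂ × ℂ => p.1) := by fun_prop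
  have dy_ : Differentiable ℂ (fun p : ℂ × ℂ × ℂ => p.2.1) := by fun_prop
  have dz_ : Differentiable ℂ (fun p : ℂ × ℂ × ℂ => p.2.2) := by fun_prop
  have dxz : Differentiable ℂ (fun p : ℂ × ℂ × ℂ => (p.1, p.2.2)) := by fun_prop
  have dpol : ∀ A : ℂ[X], Differentiable ℂ (fun p : ℂ × ℂ × ℂ => A.eval p.1) := fun A =>
    A.differentiable.comp dx_
  have dH : Differentiable ℂ (fun p : ℂ × ℂ × ℂ => exp (H p.2.2)) := (hH.comp dz_).cexp
  have dS : Differentiable ℂ (fun p : ℂ × ℂ × ℂ => S (p.1, p.2.2)) := hS.comp dxz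
  have dq : Differentiable ℂ (fun p : ℂ × ℂ × ℂ => q (p.1, p.2.2)) := hq.comp dxz
  set Z : ℂ × ℂ × ℂ → ℂ := fun p => exp (H p.2.2) * a₃.eval p.1 * p.2.1 + R (p.1, p.2.2) with hZ
  have dZ : Differentiable ℂ Z := ((dH.mul (dpol a₃)).mul dy_).add (hR.comp dxz)
  set T : ℂ × ℂ × ℂ → ℂ := fun p => U.eval p.1 * S (p.1, p.2.2) + V.eval p.1 * (Z p - p.2.2)
    with hT
  have dT : Differentiable ℂ T := ((dpol U).mul dS).add ((dpol V).mul (dZ.sub dz_))
  have dQ : Differentiable ℂ (fun p : ℂ × ℂ × ℂ => Q (Z p - p.2.2, (p.1, p.2.2))) :=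
    hQ.comp ((dZ.sub dz_).prodMk dxz)
  set Y : ℂ × ℂ × ℂ → ℂ := fun p => (p.1 - r) * p.2.1 + T p * Q (Z p - p.2.2, (p.1, p.2.2))
    with hY
  have dY : Differentiable ℂ Y := ((dx_.sub_const r).mul dy_).add (dT.mul dQ)
  set F : ℂ × ℂ × ℂ → ℂ := fun p => (p.1 - r) * a₃.eval p.1 * p.2.1 - q (p.1, p.2.2) with hF
  have dF : Differentiable ℂ F := (((dx_.sub_const r).mul (dpol a₃)).mul dy_).sub dq
  have I1 : ∀ p, (p.1 - r) * (Z p - p.2.2) = a₃.eval p.1 * S (p.1, p.2.2) +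
      exp (H p.2.2) * F p := by
    intro p
    have e1 := hR1 p.1 p.2.2
    simp only [hZ, hF]
    linear_combination -e1
  have I2 : ∀ p, a₃.eval p.1 * Y p - q (p.1, Z p) = F p * (1 - U.eval p.1 * exp (H p.2.2) *
      Q (Z p - p.2.2, (p.1, p.2.2))) := by
    intro p
    have e1 := I1 p
    have e2 := hQ1 p.1 p.2.2 (Z p - p.2.2)
    rw [add_sub_cancel] at e2
    have e3 := hUV' p.1
    have e4 : Z p - p.2.2 = a₃.eval p.1 * T p + U.eval p.1 * exp (H p.2.2) * F p := by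
      simp only [hT]
      linear_combination (U.eval p.1) * e1 - (Z p - p.2.2) * e3
    simp only [hY]
    have e5 : (p.1 - r) * a₃.eval p.1 * p.2.1 = F p + q (p.1, p.2.2) := by
      simp only [hF]
      ring
    linear_combination e5 - e2 - Q (Z p - p.2.2, (p.1, p.2.2)) * e4
  have dK : Differentiable ℂ (fun p : ℂ × ℂ × ℂ => 1 - U.eval p.1 * exp (H p.2.2) *
      Q (Z p - p.2.2, (p.1, p.2.2))) :=
    (differentiable_const _).sub (((dpol U).mul dH).mul dQ)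
  have hμ : ∀ p, HasFDerivAt (fun p : ℂ × ℂ × ℂ => ((p.1, Y p, Z p) : ℂ × ℂ × ℂ))
      ((ContinuousLinearMap.fst ℂ ℂ (ℂ × ℂ)).prod ((fderiv ℂ Y p).prod (fderiv ℂ Z p))) p :=
    fun p => hasFDerivAt_fst.prodMk ((dY p).hasFDerivAt.prodMk (dZ p).hasFDerivAt)
  refine ⟨fun p => Φ (p.1, Y p, Z p), hΦ.comp (fun p => (hμ p).differentiableAt), ?_⟩
  intro x y z hX dx dy dz hTX hv
  set p : ℂ × ℂ × ℂ := (x, y, z) with hp
  set v : ℂ × ℂ × ℂ := (dx, dy, dz) with hv0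
  have hFp : F p = 0 := by
    simp only [hF, hp]
    rw [eval_mul, eval_sub, eval_X, eval_C] at hX
    rw [hX, sub_self]
  -- the derivative of `F`
  have hdxz : HasFDerivAt (fun p : ℂ × ℂ × ℂ => (p.1, p.2.2))
      ((ContinuousLinearMap.fst ℂ ℂ (ℂ × ℂ)).prod ((ContinuousLinearMap.snd ℂ ℂ ℂ).comp
        (ContinuousLinearMap.snd ℂ ℂ (ℂ × ℂ)))) p :=
    hasFDerivAt_fst.prodMk ((ContinuousLinearMap.snd ℂ ℂ ℂ).comp
        (ContinuousLinearMap.snd ℂ ℂ (ℂ × ℂ))).hasFDerivAt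
  have hpol : ∀ A : ℂ[X], HasFDerivAt (fun p : ℂ × ℂ × ℂ => A.eval p.1)
      ((derivative A).eval p.1 • ContinuousLinearMap.fst ℂ ℂ (ℂ × ℂ)) p := fun A =>
    (A.hasDerivAt p.1).comp_hasFDerivAt p hasFDerivAt_fst
  have hyy : HasFDerivAt (fun p : ℂ × ℂ × ℂ => p.2.1) ((ContinuousLinearMap.fst ℂ ℂ ℂ).comp
        (ContinuousLinearMap.snd ℂ ℂ (ℂ × ℂ))) p :=
    ((ContinuousLinearMap.fst ℂ ℂ ℂ).comp (ContinuousLinearMap.snd ℂ ℂ (ℂ × ℂ))).hasFDerivAt
  have hzz : HasFDerivAt (fun p : ℂ × ℂ × ℂ => p.2.2) ((ContinuousLinearMap.snd ℂ ℂ ℂ).comp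
        (ContinuousLinearMap.snd ℂ ℂ (ℂ × ℂ))) p :=
    ((ContinuousLinearMap.snd ℂ ℂ ℂ).comp (ContinuousLinearMap.snd ℂ ℂ (ℂ × ℂ))).hasFDerivAt
  have hFv : fderiv ℂ F p v = 0 := by
    have e1 : HasFDerivAt F _ p := ((hpol ((X - C r) * a₃)).fun_mul hyy).sub
      ((hq (x, z)).hasFDerivAt.comp p hdxz) |>.congr_of_eventuallyEq
        (Filter.Eventually.of_forall fun w => by simp [hF])
    rw [e1.fderiv]
    simp only [_root_.sub_apply, _root_.add_apply, _root_.smul_apply,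
      ContinuousLinearMap.comp_apply, ContinuousLinearMap.coe_fst', ContinuousLinearMap.coe_snd',
      ContinuousLinearMap.prod_apply, smul_eq_mul, hp, hv0]
    linear_combination hTX
  -- the image is tangent
  have hΦv : fderiv ℂ Φ (x, Y p, Z p) (dx, fderiv ℂ Y p v, fderiv ℂ Z p v) = 0 := by
    have e1 : HasFDerivAt (fun p => Φ (p.1, Y p, Z p)) _ p :=
      (hΦ (p.1, Y p, Z p)).hasFDerivAt.comp p (hμ p)
    rw [e1.fderiv] at hv
    exact hv
  have hI2 : (derivative a₃).eval x * Y p * dx + a₃.eval x * fderiv ℂ Y p v =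
      fderiv ℂ q (x, Z p) (dx, fderiv ℂ Z p v) := by
    have e1 : HasFDerivAt (fun p : ℂ × ℂ × ℂ => a₃.eval p.1 * Y p - q (p.1, Z p)) _ p :=
      ((hpol a₃).fun_mul (dY p).hasFDerivAt).sub
        ((hq (x, Z p)).hasFDerivAt.comp p (hasFDerivAt_fst.prodMk (dZ p).hasFDerivAt))
    have e2 := (dF p).hasFDerivAt.fun_mul (dK p).hasFDerivAt
    rw [funext I2] at e1
    have e3 := congrArg (fun L => L v) (e1.unique e2)
    simp only [_root_.sub_apply, _root_.add_apply, _root_.smul_apply,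
      ContinuousLinearMap.comp_apply, ContinuousLinearMap.coe_fst',
      ContinuousLinearMap.prod_apply, smul_eq_mul, hFv, hFp, zero_mul, mul_zero, add_zero] at e3
    simp only [hp, hv0] at e3 ⊢
    linear_combination e3
  obtain ⟨hdx, hdY, hdZ⟩ := hΦ1 x (Y p) (Z p) (by
    have e1 := I2 p
    rw [hFp, zero_mul, sub_eq_zero] at e1
    exact e1) dx _ _ hI2 hΦv
  -- `dz = 0`
  have hdz : dz = 0 := by
    have e1 : HasFDerivAt (fun p : ℂ × ℂ × ℂ => (p.1 - r) * (Z p - p.2.2)) _ p :=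
      ((hasFDerivAt_fst (𝕜 := ℂ) (E := ℂ) (F := ℂ × ℂ) (p := p)).sub_const r).fun_mul
        ((dZ p).hasFDerivAt.fun_sub hzz)
    have e2 := ((hpol a₃).fun_mul ((hS (x, z)).hasFDerivAt.comp p hdxz)).fun_add
      ((dH p).hasFDerivAt.fun_mul (dF p).hasFDerivAt)
    have e3 : (fun p : ℂ × ℂ × ℂ => (p.1 - r) * (Z p - p.2.2)) = fun p =>
        a₃.eval p.1 * S (p.1, p.2.2) + exp (H p.2.2) * F p := funext I1
    rw [e3] at e1
    have e4 := congrArg (fun L => L v) (e1.unique e2)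
    simp only [_root_.sub_apply, _root_.add_apply, _root_.smul_apply,
      ContinuousLinearMap.comp_apply, ContinuousLinearMap.coe_fst', ContinuousLinearMap.coe_snd',
      ContinuousLinearMap.prod_apply, smul_eq_mul, hFv, hFp, zero_mul, mul_zero, add_zero,
      hdZ] at e4
    simp only [hp, hv0, hdx] at e4
    have e5 : ((0, dz) : ℂ × ℂ) = dz • ((0, 1) : ℂ × ℂ) := by simp
    rw [e5, map_smul, smul_eq_mul] at e4
    refine (mul_eq_zero.1 ?_).resolve_right (hSz x z)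
    linear_combination -e4
  subst hdx hdz
  refine ⟨rfl, ?_, rfl⟩
  -- `dy = 0`
  have hline : HasDerivAt (fun t : ℂ => ((x, y + t * dy, z) : ℂ × ℂ × ℂ)) (0, dy, 0) 0 := by
    refine (hasDerivAt_const _ _).prodMk (HasDerivAt.prodMk ?_ (hasDerivAt_const _ _))
    simpa using ((hasDerivAt_id (0 : ℂ)).mul_const dy).const_add y
  have hp0 : p = (x, y + 0 * dy, z) := by simp [hp]
  have hZv : fderiv ℂ Z p v = exp (H z) * a₃.eval x * dy := by
    have e1 : HasDerivAt (fun t : ℂ => Z (x, y + t * dy, z)) (fderiv ℂ Z p v) 0 := by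
      rw [hp0]
      exact (dZ _).hasFDerivAt.comp_hasDerivAt (0 : ℂ) hline
    have e2 : HasDerivAt (fun t : ℂ => Z (x, y + t * dy, z)) (exp (H z) * a₃.eval x * dy) 0 := by
      simp only [hZ]
      have e3 := ((((hasDerivAt_id (0 : ℂ)).mul_const dy).const_add y).const_mul
        (exp (H z) * a₃.eval x)).add_const (R (x, z))
      simpa using e3
    exact e1.unique e2
  have ha₃dy : a₃.eval x * dy = 0 := by
    rw [hZv, mul_assoc] at hdZ
    exact (mul_eq_zero.1 hdZ).resolve_left (exp_ne_zero _)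
  have hZc : ∀ t : ℂ, Z (x, y + t * dy, z) = Z (x, y, z) := by
    intro t
    simp only [hZ]
    linear_combination (exp (H z) * t) * ha₃dy
  have hYv : fderiv ℂ Y p v = (x - r) * dy := by
    have e1 : HasDerivAt (fun t : ℂ => Y (x, y + t * dy, z)) (fderiv ℂ Y p v) 0 := by
      rw [hp0]
      exact (dY _).hasFDerivAt.comp_hasDerivAt (0 : ℂ) hline
    have e2 : HasDerivAt (fun t : ℂ => Y (x, y + t * dy, z)) ((x - r) * dy) 0 := by
      simp only [hY, hT, hZc]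
      have e3 := ((((hasDerivAt_id (0 : ℂ)).mul_const dy).const_add y).const_mul
        (x - r)).add_const ((U.eval x * S (x, z) + V.eval x * (Z (x, y, z) - z)) *
          Q (Z (x, y, z) - z, (x, z)))
      simpa using e3
    exact e1.unique e2
  rw [hYv] at hdY
  linear_combination (U.eval x) * hdY + (V.eval x) * ha₃dy - dy * hUV' x

end Pool.Agent.Helper72.TM
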