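import Pool.Agent.Helper72.TM.Surf2

/-!
# Surfaces `a(x) y = q(x, z)`: the case where `a` has no simple roots
(project TM of helper72, MP_1994dd_an)
-/

open Polynomial Complex

namespace Pool.Agent.Helper72.TM

theorem exists_lambda (S : Finset ℂ) (P : ℂ → ℂ[X]) (hP : ∀ r ∈ S, P r ≠ 0) : ∃ l : ℂ,
    ∀ r ∈ S, ∀ r' ∈ S, r ≠ r' → ∀ t, (P r).eval (t + l * r) = 0 → (P r').eval (t + l * r') ≠ 0 := by
  classical
  obtain ⟨l, hl⟩ := Infinite.exists_notMem_finset ((S ×ˢ S).biUnion fun s =>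
    ((P s.1).roots.toFinset ×ˢ (P s.2).roots.toFinset).image fun z => (z.1 - z.2) / (s.1 - s.2))
  refine ⟨l, fun r hr r' hr' hne t h1 h2 => hl ?_⟩
  refine Finset.mem_biUnion.2 ⟨(r, r'), Finset.mem_product.2 ⟨hr, hr'⟩, ?_⟩
  refine Finset.mem_image.2 ⟨(t + l * r, t + l * r'), Finset.mem_product.2 ⟨?_, ?_⟩, ?_⟩
  · exact Multiset.mem_toFinset.2 ((mem_roots (hP r hr)).2 h1)
  · exact Multiset.mem_toFinset.2 ((mem_roots (hP r' hr')).2 h2)
  · have h3 : r - r' ≠ 0 := sub_ne_zero.2 hne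
    simp only
    field_simp
    ring

theorem imm_multiple {a : ℂ[X]} (ha : a ≠ 0) (h2 : ∀ r, a.IsRoot r → 2 ≤ a.rootMultiplicity r)
    {q : ℂ × ℂ → ℂ} (hq : Differentiable ℂ q) (P : ℂ → ℂ[X])
    (hP : ∀ r, a.IsRoot r → ∀ z, q (r, z) = (P r).eval z) (hP0 : ∀ r, a.IsRoot r → P r ≠ 0)
    (hsm : ∀ r, a.IsRoot r → ∀ z, (P r).eval z = 0 → (derivative (P r)).eval z = 0 →
      fderiv ℂ q (r, z) (1, 0) ≠ 0) : Imm a q := by
  classical
  have hq01 : ∀ r, a.IsRoot r → ∀ z, fderiv ℂ q (r, z) (0, 1) = (derivative (P r)).eval z := by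
    intro r hr z
    have e1 : HasDerivAt (fun z : ℂ => ((r, z) : ℂ × ℂ)) (0, 1) z :=
      (hasDerivAt_const z r).prodMk (hasDerivAt_id z)
    have e2 : HasDerivAt (fun z : ℂ => q (r, z)) (fderiv ℂ q (r, z) (0, 1)) z :=
      (hq (r, z)).hasFDerivAt.comp_hasDerivAt z e1
    rw [funext (hP r hr)] at e2
    exact e2.unique ((P r).hasDerivAt z)
  -- the data
  have hdata : ∀ r, a.IsRoot r → ∃ c α β : ℂ → ℂ, Differentiable ℂ c ∧ Differentiable ℂ α ∧
      Differentiable ℂ β ∧ ∀ z, α z * fderiv ℂ q (r, z) (1, c z) + β z * q (r, z) = 1 := by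
    intro r hr
    set G := EuclideanDomain.gcd (P r) (derivative (P r)) with hG
    have hG0 : G ≠ 0 := by
      intro h0
      exact hP0 r hr (EuclideanDomain.gcd_eq_zero_iff.1 h0).1
    set A : ℂ → ℂ := fun z => fderiv ℂ q (r, z) (1, 0) with hA
    have hAd : Differentiable ℂ A :=
      (differentiable_fderiv_apply hq (1, 0)).comp
        (by fun_prop : Differentiable ℂ (fun z : ℂ => ((r, z) : ℂ × ℂ)))
    obtain ⟨h, E, hh, hE, hhE⟩ := exists_expInterp_poly hG0 hAd (by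
      intro z hz
      refine hsm r hr z ?_ ?_
      · obtain ⟨k, hk⟩ := EuclideanDomain.gcd_dvd_left (P r) (derivative (P r))
        rw [hk, eval_mul]
        exact mul_eq_zero_of_left hz _
      · obtain ⟨k, hk⟩ := EuclideanDomain.gcd_dvd_right (P r) (derivative (P r))
        rw [hk, eval_mul]
        exact mul_eq_zero_of_left hz _)
    set u := EuclideanDomain.gcdA (P r) (derivative (P r))
    set v := EuclideanDomain.gcdB (P r) (derivative (P r))
    have huv : ∀ z, G.eval z = (P r).eval z * u.eval z + (derivative (P r)).eval z * v.eval z := by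
      intro z
      have e1 := congrArg (fun p => p.eval z)
        (EuclideanDomain.gcd_eq_gcd_ab (P r) (derivative (P r)))
      simpa using e1
    refine ⟨fun z => v.eval z * E z, fun z => exp (-(h z)), fun z => exp (-(h z)) * (u.eval z * E z),
      v.differentiable.mul hE, hh.neg.cexp, hh.neg.cexp.mul (u.differentiable.mul hE), fun z => ?_⟩
    have e1 : ((1 : ℂ), v.eval z * E z) = (1, 0) + (v.eval z * E z) • ((0 : ℂ), (1 : ℂ)) := by
      simp
    rw [e1, map_add, map_smul, hq01 r hr z, hP r hr z, smul_eq_mul]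
    have e2 := hhE z
    have e3 := huv z
    have e4 : exp (-(h z)) * exp (h z) = 1 := by rw [← exp_add]; simp
    rw [e2, e3] at e4
    simp only [hA] at e4
    linear_combination e4
  choose! c α β hc hα hβ hbez using hdata
  obtain ⟨l, hl⟩ := exists_lambda a.roots.toFinset P (fun r hr =>
    hP0 r (isRoot_of_mem_roots (Multiset.mem_toFinset.1 hr)))
  have hmem : ∀ r, a.IsRoot r → r ∈ a.roots.toFinset := fun r hr =>
    Multiset.mem_toFinset.2 ((mem_roots ha).2 hr)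
  -- the shifted function
  set T : ℂ × (Fin 1 → ℂ) → ℂ × ℂ := fun w => (w.1, w.2 0 + l * w.1) with hT
  set DT : ℂ × (Fin 1 → ℂ) →L[ℂ] ℂ × ℂ := (ContinuousLinearMap.fst ℂ ℂ (Fin 1 → ℂ)).prod
    ((ContinuousLinearMap.proj (R := ℂ) (φ := fun _ : Fin 1 => ℂ) 0).comp
      (ContinuousLinearMap.snd ℂ ℂ (Fin 1 → ℂ)) + l • ContinuousLinearMap.fst ℂ ℂ (Fin 1 → ℂ))
    with hDT
  have hTd : ∀ w, HasFDerivAt T DT w := fun w => DT.hasFDerivAt
  have hTD : Differentiable ℂ T := fun w => (hTd w).differentiableAt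
  have hq'd : ∀ w v, fderiv ℂ (fun w => q (T w)) w v = fderiv ℂ q (T w) (v.1, v.2 0 + l * v.1) := by
    intro w v
    have e1 : HasFDerivAt (fun w => q (T w)) ((fderiv ℂ q (T w)).comp DT) w :=
      (hq _).hasFDerivAt.comp w (hTd w)
    rw [e1.fderiv]
    rfl
  have hζ : ∀ ρ : ℂ, Differentiable ℂ (fun ζ : Fin 1 → ℂ => ζ 0 + l * ρ) := fun ρ => by fun_prop
  obtain ⟨Φ, hΦ, hΦ1⟩ := coreG (d := 1) (a := a) (σ := X) ha h2 (by intro r _; simp)
    (by intro r r' _ _ h; simp at h; rw [h]) (q := fun w => q (T w)) (hq.comp hTD)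
    (c := fun ρ ζ _ => c ρ (ζ 0 + l * ρ) - l) (α := fun ρ ζ => α ρ (ζ 0 + l * ρ))
    (β := fun ρ ζ => β ρ (ζ 0 + l * ρ))
    (fun r hr => by
      simp only [eval_X]
      exact differentiable_pi.2 fun _ => ((hc r hr).comp (hζ r)).sub_const l)
    (fun r hr => by
      simp only [eval_X]
      exact (hα r hr).comp (hζ r))
    (fun r hr => by
      simp only [eval_X]
      exact (hβ r hr).comp (hζ r))
    (fun r hr ζ => by
      simp only [eval_X]
      rw [hq'd]
      simp only [hT, mul_one, sub_add_cancel]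
      exact hbez r hr _)
    (fun ρ => aeval (MvPolynomial.X 0 + MvPolynomial.C (l * ρ)) (P ρ))
    (fun r hr ζ => by
      simp only [eval_X, hT]
      rw [hP r hr]
      have e1 := Polynomial.aeval_algHom_apply
        (MvPolynomial.aeval ζ : MvPolynomial (Fin 1) ℂ →ₐ[ℂ] ℂ)
        (MvPolynomial.X 0 + MvPolynomial.C (l * r)) (P r)
      simpa [MvPolynomial.aeval_eq_eval] using e1)
    (fun r r' hr hr' hne ζ => by
      simp only [eval_X, hT] at hne ⊢
      rw [hP r hr, hP r' hr']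
      exact hl r (hmem r hr) r' (hmem r' hr') hne (ζ 0))
  -- the immersion
  set J : ℂ × ℂ × ℂ →L[ℂ] ℂ × ℂ × (Fin 1 → ℂ) := (ContinuousLinearMap.fst ℂ ℂ (ℂ × ℂ)).prod
    (((ContinuousLinearMap.fst ℂ ℂ ℂ).comp (ContinuousLinearMap.snd ℂ ℂ (ℂ × ℂ))).prod
      (ContinuousLinearMap.pi fun _ => (ContinuousLinearMap.snd ℂ ℂ ℂ).comp
        (ContinuousLinearMap.snd ℂ ℂ (ℂ × ℂ)) - l • ContinuousLinearMap.fst ℂ ℂ (ℂ × ℂ))) with hJ
  have hJa : ∀ x y z, J (x, y, z) = (x, y, fun _ => z - l * x) := fun x y z => rfl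
  set O : ℂ × (Fin 1 → ℂ) →L[ℂ] ℂ × ℂ := (ContinuousLinearMap.fst ℂ ℂ (Fin 1 → ℂ)).prod
    ((ContinuousLinearMap.proj (R := ℂ) (φ := fun _ : Fin 1 => ℂ) 0).comp
      (ContinuousLinearMap.snd ℂ ℂ (Fin 1 → ℂ))) with hO
  have hO0 : ∀ w, O w = 0 → w = 0 := by
    intro w hw
    have e1 : w.1 = 0 := congrArg Prod.fst hw
    have e2 : w.2 0 = 0 := congrArg Prod.snd hw
    refine Prod.ext e1 (funext fun j => ?_)
    rw [Subsingleton.elim j 0]
    exact e2
  have hd : ∀ p, HasFDerivAt (fun p => O (Φ (J p))) (O.comp ((fderiv ℂ Φ (J p)).comp J)) p :=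
    fun p => O.hasFDerivAt.comp p ((hΦ _).hasFDerivAt.comp p J.hasFDerivAt)
  refine ⟨fun p => O (Φ (J p)), fun p => (hd p).differentiableAt, ?_⟩
  intro x y z hX dx dy dz hTX hv
  rw [(hd (x, y, z)).fderiv] at hv
  have e1 : fderiv ℂ Φ (x, y, fun _ => z - l * x) (dx, dy, fun _ => dz - l * dx) = 0 :=
    hO0 _ hv
  obtain ⟨v0, v1, v2⟩ := hΦ1 x y (fun _ => z - l * x) (by
    simp only [hT, eval_X, sub_add_cancel]
    exact hX) dx dy (fun _ => dz - l * dx) (by
    rw [hq'd]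
    simp only [hT, eval_X, derivative_X, eval_one, one_mul, sub_add_cancel]
    exact hTX) e1
  refine ⟨v0, v1, ?_⟩
  have e2 := congrFun v2 0
  simp only [v0, mul_zero, sub_zero, Pi.zero_apply] at e2
  exact e2

end Pool.Agent.Helper72.TM
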