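import Pool.Agent.Helper72.TM.Surf3

/-!
# All smooth surfaces `a(x) y = q(x, z)` (project TM of helper72, MP_1994dd_an)
-/

open Polynomial Complex

namespace Pool.Agent.Helper72.TM

/-- The function of a polynomial in two variables. -/
noncomputable def ev (p : ℂ[X][X]) (w : ℂ × ℂ) : ℂ := (p.eval (C w.2)).eval w.1

theorem differentiable_ev (p : ℂ[X][X]) : Differentiable ℂ (ev p) := differentiable_evalEval p

/-- The restriction to `x = ρ`. -/
noncomputable def sl (p : ℂ[X][X]) (ρ : ℂ) : ℂ[X] := p.map (evalRingHom ρ)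

theorem eval_sl (p : ℂ[X][X]) (ρ z : ℂ) : (sl p ρ).eval z = ev p (ρ, z) := by
  rw [sl, ev, eval_map]
  have h1 := Polynomial.hom_eval₂ p (RingHom.id ℂ[X]) (evalRingHom ρ) (C z)
  rw [eval₂_id] at h1
  simp only [RingHom.comp_id, coe_evalRingHom, eval_C] at h1
  exact h1.symm

theorem fderiv_ev_snd (p : ℂ[X][X]) (ρ z : ℂ) :
    fderiv ℂ (ev p) (ρ, z) (0, 1) = (derivative (sl p ρ)).eval z := by
  have e1 : HasDerivAt (fun z : ℂ => ((ρ, z) : ℂ × ℂ)) (0, 1) z :=
    (hasDerivAt_const z ρ).prodMk (hasDerivAt_id z)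
  have e2 : HasDerivAt (fun z : ℂ => ev p (ρ, z)) (fderiv ℂ (ev p) (ρ, z) (0, 1)) z :=
    (differentiable_ev p (ρ, z)).hasFDerivAt.comp_hasDerivAt z e1
  rw [← funext (eval_sl p ρ)] at e2
  exact e2.unique ((sl p ρ).hasDerivAt z)

/-- Smoothness of `{a(x) y = q(x, z)}`. -/
def Smth (a : ℂ[X]) (q : ℂ × ℂ → ℂ) : Prop :=
  ∀ x y z, a.eval x * y = q (x, z) → (derivative a).eval x * y = fderiv ℂ q (x, z) (1, 0) →
    a.eval x = 0 → fderiv ℂ q (x, z) (0, 1) = 0 → False

theorem fderiv_split {q : ℂ × ℂ → ℂ} (w : ℂ × ℂ) (dx dz : ℂ) :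
    fderiv ℂ q w (dx, dz) = dx * fderiv ℂ q w (1, 0) + dz * fderiv ℂ q w (0, 1) := by
  have e1 : ((dx, dz) : ℂ × ℂ) = dx • ((1, 0) : ℂ × ℂ) + dz • ((0, 1) : ℂ × ℂ) := by simp
  rw [e1, map_add, map_smul, map_smul, smul_eq_mul, smul_eq_mul]

theorem ev_mul (ρ : ℂ) (p : ℂ[X][X]) (w : ℂ × ℂ) :
    ev (C (X - C ρ) * p) w = (w.1 - ρ) * ev p w := by
  simp [ev]

theorem fderiv_ev_mul (ρ : ℂ) (p : ℂ[X][X]) (w v : ℂ × ℂ) :
    fderiv ℂ (ev (C (X - C ρ) * p)) w v = v.1 * ev p w + (w.1 - ρ) * fderiv ℂ (ev p) w v := by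
  have e1 : HasFDerivAt (fun w : ℂ × ℂ => (w.1 - ρ) * ev p w) _ w :=
    ((hasFDerivAt_fst (𝕜 := ℂ) (E := ℂ) (F := ℂ) (p := w)).sub_const ρ).fun_mul
      (differentiable_ev p w).hasFDerivAt
  rw [funext (ev_mul ρ p), e1.fderiv]
  simp only [_root_.add_apply, _root_.smul_apply, ContinuousLinearMap.coe_fst', smul_eq_mul]
  ring

/-- Splitting off a component `{x = ρ}`. -/
theorem step_plane {a₁ : ℂ[X]} {ρ κ : ℂ} {p : ℂ[X][X]} (h0 : a₁.eval ρ = 0) (hκ : κ ≠ 0)
    (hp : ∀ z, ev p (ρ, z) = κ) (h : Imm a₁ (ev p)) :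
    Imm ((X - C ρ) * a₁) (ev (C (X - C ρ) * p)) := by
  obtain ⟨Φ, hΦ, hΦ1⟩ := h
  have dx_ : Differentiable ℂ (fun p : ℂ × ℂ × ℂ => p.1) := by fun_prop
  have dy_ : Differentiable ℂ (fun p : ℂ × ℂ × ℂ => p.2.1) := by fun_prop
  have dxz : Differentiable ℂ (fun p : ℂ × ℂ × ℂ => (p.1, p.2.2)) := by fun_prop
  set F : ℂ × ℂ × ℂ → ℂ := fun w => a₁.eval w.1 * w.2.1 - ev p (w.1, w.2.2) with hF
  have dF : Differentiable ℂ F := ((a₁.differentiable.comp dx_).mul dy_).sub
    ((differentiable_ev p).comp dxz)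
  have hFv : ∀ x y z dx dy dz : ℂ, fderiv ℂ F (x, y, z) (dx, dy, dz) =
      (derivative a₁).eval x * y * dx + a₁.eval x * dy - fderiv ℂ (ev p) (x, z) (dx, dz) := by
    intro x y z dx dy dz
    have h1 : HasFDerivAt (fun p : ℂ × ℂ × ℂ => (p.1, p.2.2))
        ((ContinuousLinearMap.fst ℂ ℂ (ℂ × ℂ)).prod ((ContinuousLinearMap.snd ℂ ℂ ℂ).comp
        (ContinuousLinearMap.snd ℂ ℂ (ℂ × ℂ)))) (x, y, z) :=
      hasFDerivAt_fst.prodMk ((ContinuousLinearMap.snd ℂ ℂ ℂ).comp
        (ContinuousLinearMap.snd ℂ ℂ (ℂ × ℂ))).hasFDerivAt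
    have h2 : HasFDerivAt (fun p : ℂ × ℂ × ℂ => a₁.eval p.1)
        ((derivative a₁).eval x • ContinuousLinearMap.fst ℂ ℂ (ℂ × ℂ)) (x, y, z) :=
      HasDerivAt.comp_hasFDerivAt (f := fun p : ℂ × ℂ × ℂ => p.1) (x, y, z) (a₁.hasDerivAt x)
        hasFDerivAt_fst
    have h3 : HasFDerivAt (fun p : ℂ × ℂ × ℂ => p.2.1) ((ContinuousLinearMap.fst ℂ ℂ ℂ).comp
        (ContinuousLinearMap.snd ℂ ℂ (ℂ × ℂ))) (x, y, z) :=
      ((ContinuousLinearMap.fst ℂ ℂ ℂ).comp (ContinuousLinearMap.snd ℂ ℂ (ℂ × ℂ))).hasFDerivAt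
    have h5 : HasFDerivAt (fun w : ℂ × ℂ × ℂ => ev p (w.1, w.2.2))
        ((fderiv ℂ (ev p) (x, z)).comp ((ContinuousLinearMap.fst ℂ ℂ (ℂ × ℂ)).prod
          ((ContinuousLinearMap.snd ℂ ℂ ℂ).comp
        (ContinuousLinearMap.snd ℂ ℂ (ℂ × ℂ))))) (x, y, z) :=
      HasFDerivAt.comp (f := fun p : ℂ × ℂ × ℂ => (p.1, p.2.2)) (x, y, z)
        (differentiable_ev p (x, z)).hasFDerivAt h1
    have h4 : HasFDerivAt F _ (x, y, z) := (h2.fun_mul h3).sub h5
    rw [h4.fderiv]
    simp only [_root_.sub_apply, _root_.add_apply, _root_.smul_apply,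
      ContinuousLinearMap.comp_apply, ContinuousLinearMap.coe_fst', ContinuousLinearMap.coe_snd',
      ContinuousLinearMap.prod_apply, smul_eq_mul]
    ring
  set e : ℂ × ℂ × ℂ → ℂ := fun w => -(κ⁻¹ * F w) with he
  have de : Differentiable ℂ e := (dF.const_mul _).neg
  have hev : ∀ w v, fderiv ℂ e w v = -(κ⁻¹ * fderiv ℂ F w v) := by
    intro w v
    have h1 : HasFDerivAt e _ w := ((dF w).hasFDerivAt.const_mul κ⁻¹).neg
    rw [h1.fderiv]
    simp
  set O : ℂ × ℂ × ℂ →L[ℂ] ℂ × ℂ := ContinuousLinearMap.snd ℂ ℂ (ℂ × ℂ) with hO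
  have hd : ∀ w, HasFDerivAt (fun w : ℂ × ℂ × ℂ => (1 - e w) • Φ w + e w • w.2)
      (((1 - e w) • fderiv ℂ Φ w + (-fderiv ℂ e w).smulRight (Φ w)) +
        (e w • O + (fderiv ℂ e w).smulRight w.2)) w := by
    intro w
    have h1 : HasFDerivAt (fun w => 1 - e w) (-fderiv ℂ e w) w := (de w).hasFDerivAt.const_sub 1
    exact (h1.smul (hΦ w).hasFDerivAt).add ((de w).hasFDerivAt.smul O.hasFDerivAt)
  refine ⟨_, fun w => (hd w).differentiableAt, ?_⟩
  intro x y z hX dx dy dz hTX hv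
  rw [(hd (x, y, z)).fderiv] at hv
  simp only [_root_.add_apply, _root_.smul_apply, _root_.neg_apply,
    ContinuousLinearMap.smulRight_apply, hO, ContinuousLinearMap.coe_snd', hev] at hv
  rw [ev_mul, eval_mul, eval_sub, eval_X, eval_C] at hX
  rw [fderiv_ev_mul, derivative_mul, derivative_sub, derivative_X, derivative_C, sub_zero, one_mul,
    eval_add, eval_mul, eval_mul, eval_sub, eval_X, eval_C] at hTX
  simp only at hX hTX
  by_cases hx : x = ρ
  · subst hx
    have hdx : dx = 0 := by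
      rw [h0, hp] at hTX
      have : κ * dx = 0 := by linear_combination -hTX
      exact (mul_eq_zero.1 this).resolve_left hκ
    have hF1 : F (x, y, z) = -κ := by
      simp only [hF]
      rw [h0, hp]
      ring
    have he1 : e (x, y, z) = 1 := by
      simp only [he, hF1]
      field_simp
    have hF2 : fderiv ℂ F (x, y, z) (dx, dy, dz) = 0 := by
      rw [hFv, hdx, h0, fderiv_split, fderiv_ev_snd]
      have h1 : sl p x = C κ := by
        apply Polynomial.funext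
        intro t
        rw [eval_sl, hp, eval_C]
      rw [h1]
      simp
    rw [he1, hF2] at hv
    simp only [sub_self, zero_smul, mul_zero, neg_zero, add_zero, one_smul, zero_add] at hv
    exact ⟨hdx, congrArg Prod.fst hv, congrArg Prod.snd hv⟩
  · have hx' : x - ρ ≠ 0 := sub_ne_zero.2 hx
    have hX1 : a₁.eval x * y = ev p (x, z) := by
      refine mul_left_cancel₀ hx' ?_
      linear_combination hX
    have hT1 : (derivative a₁).eval x * y * dx + a₁.eval x * dy =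
        fderiv ℂ (ev p) (x, z) (dx, dz) := by
      refine mul_left_cancel₀ hx' ?_
      linear_combination hTX - dx * hX1
    have hF1 : F (x, y, z) = 0 := by
      simp only [hF]
      rw [hX1, sub_self]
    have he1 : e (x, y, z) = 0 := by
      simp only [he, hF1]
      simp
    have hF2 : fderiv ℂ F (x, y, z) (dx, dy, dz) = 0 := by
      rw [hFv, hT1, sub_self]
    rw [he1, hF2] at hv
    simp only [sub_zero, zero_smul, mul_zero, neg_zero, add_zero, one_smul] at hv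
    exact hΦ1 x y z hX1 dx dy dz hT1 hv

/-- All smooth surfaces `a(x) y = q(x, z)`, `a ≠ 0`, immerse into `ℂ²`. -/
theorem imm_all (N : ℕ) : ∀ a : ℂ[X], a ≠ 0 → a.natDegree = N → ∀ p : ℂ[X][X],
    Smth a (ev p) → Imm a (ev p) := by
  induction N using Nat.strong_induction_on with
  | _ N ih =>
  intro a ha hN p hs
  by_cases hA : ∃ ρ, a.IsRoot ρ ∧ sl p ρ = 0
  · -- a component `{x = ρ}`
    obtain ⟨ρ, hρ, hsl⟩ := hA
    obtain ⟨a₁, rfl⟩ := dvd_iff_isRoot.2 hρ
    have hp : C (X - C ρ) ∣ p := by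
      rw [C_dvd_iff_dvd_coeff]
      intro i
      rw [dvd_iff_isRoot]
      have h1 := congrArg (fun P => P.coeff i) hsl
      simpa [sl, coeff_map] using h1
    obtain ⟨p, rfl⟩ := hp
    have ha₁ : a₁ ≠ 0 := right_ne_zero_of_mul ha
    have hdeg : a₁.natDegree < N := by
      rw [← hN, natDegree_mul (X_sub_C_ne_zero ρ) ha₁, natDegree_X_sub_C]
      omega
    have hd0 : ∀ x, (derivative ((X - C ρ) * a₁)).eval x = a₁.eval x +
        (x - ρ) * (derivative a₁).eval x := by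
      intro x
      simp [derivative_mul]
    have h1 : ∀ y z, a₁.eval ρ * y ≠ ev p (ρ, z) := by
      intro y z h
      refine hs ρ y z ?_ ?_ ?_ ?_
      · rw [ev_mul]; simp
      · rw [fderiv_ev_mul, hd0]
        simp only [sub_self, zero_mul, add_zero, one_mul]
        exact h
      · simp
      · rw [fderiv_ev_mul]; simp
    have h2 : a₁.eval ρ = 0 := by
      by_contra hne
      exact h1 (ev p (ρ, 0) / a₁.eval ρ) 0 (mul_div_cancel₀ _ hne)
    have h3 : ∀ z, ev p (ρ, z) ≠ 0 := by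
      intro z h
      exact h1 0 z (by rw [h2, h, zero_mul])
    obtain ⟨κ, hκ⟩ : ∃ κ, sl p ρ = C κ := by
      have h4 : (sl p ρ).degree ≤ 0 := by
        by_contra hlt
        obtain ⟨z, hz⟩ := IsAlgClosed.exists_root (sl p ρ) (by
          intro h
          exact hlt h.le)
        exact h3 z (by rw [← eval_sl]; exact hz)
      exact ⟨_, eq_C_of_degree_le_zero h4⟩
    have hκ1 : ∀ z, ev p (ρ, z) = κ := by
      intro z
      rw [← eval_sl, hκ, eval_C]
    have hκ0 : κ ≠ 0 := by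
      rw [← hκ1 0]
      exact h3 0
    refine step_plane h2 hκ0 hκ1 (ih _ hdeg a₁ ha₁ rfl p ?_)
    intro x y z e1 e2 e3 e4
    have hx : x ≠ ρ := by
      rintro rfl
      exact h1 y z e1
    refine hs x y z ?_ ?_ ?_ ?_
    · rw [ev_mul, eval_mul, eval_sub, eval_X, eval_C]
      simp only
      linear_combination (x - ρ) * e1
    · rw [fderiv_ev_mul, hd0]
      simp only
      linear_combination e1 + (x - ρ) * e2
    · rw [eval_mul, e3, mul_zero]
    · rw [fderiv_ev_mul, e4]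
      simp
  push Not at hA
  by_cases hB : ∃ r, a.IsRoot r ∧ a.rootMultiplicity r = 1
  · -- a simple root
    obtain ⟨r, hr, hr1⟩ := hB
    obtain ⟨a₃, h3, h3'⟩ := exists_eq_pow_rootMultiplicity_mul_and_not_dvd a ha r
    rw [hr1, pow_one] at h3
    rw [dvd_iff_isRoot, IsRoot.def] at h3'
    subst h3
    have ha₃ : a₃ ≠ 0 := right_ne_zero_of_mul ha
    have hdeg : a₃.natDegree < N := by
      rw [← hN, natDegree_mul (X_sub_C_ne_zero r) ha₃, natDegree_X_sub_C]
      omega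
    have hd0 : ∀ x, (derivative ((X - C r) * a₃)).eval x = a₃.eval x +
        (x - r) * (derivative a₃).eval x := by
      intro x
      simp [derivative_mul]
    refine step_simple ha₃ h3' (differentiable_ev p) (P := sl p r)
      (fun z => (eval_sl p r z).symm) (hA r hr) ?_ (ih _ hdeg a₃ ha₃ rfl p ?_)
    · intro z e1 e2
      refine hs r (fderiv ℂ (ev p) (r, z) (1, 0) / a₃.eval r) z ?_ ?_ hr ?_
      · rw [← eval_sl, e1]; simp
      · rw [hd0, sub_self, zero_mul, add_zero, mul_div_cancel₀ _ h3']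
      · rw [fderiv_ev_snd, e2]
    · intro x y z e1 e2 e3 e4
      have hx : x - r ≠ 0 := by
        intro h
        rw [sub_eq_zero.1 h] at e3
        exact h3' e3
      refine hs x (y / (x - r)) z ?_ ?_ ?_ e4
      · rw [← e1, eval_mul, eval_sub, eval_X, eval_C]
        field_simp
      · rw [← e2, hd0, e3]
        field_simp
        ring
      · rw [eval_mul, e3, mul_zero]
  push Not at hB
  refine imm_multiple ha (fun r hr => ?_) (differentiable_ev p) (sl p)
    (fun r _ z => (eval_sl p r z).symm) hA (fun r hr z e1 e2 e3 => ?_)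
  · have h1 := (rootMultiplicity_pos ha).2 hr
    have h2 := hB r hr
    omega
  · refine hs r 0 z ?_ ?_ hr ?_
    · rw [← eval_sl, e1, mul_zero]
    · rw [e3, mul_zero]
    · rw [fderiv_ev_snd, e2]

end Pool.Agent.Helper72.TM
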